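import Pool.Agent.Helper60_AEU.Defs

/-!
AEU (MP_5b0138_an), Part III, types B, B', D: the statements of the modules (helper60).
-/

namespace Pool.Agent.H60K

open MeasureTheory Complex Filter Topology ProbabilityTheory Pool.Agent.H16Iso Pool.Agent.H62T
  Pool.Agent.H16F Pool.Agent.H38KL
open scoped ENNReal NNReal

/-! ### Block K: Macdonald functions -/

/-- KTB: basic facts -/
def KtbStatement : Prop :=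
  (∀ τ x : ℝ, 0 < x →
    IntegrableOn (fun v => Real.exp (-(x * Real.cosh v)) * Real.cos (τ * v)) (Set.Ioi 0)) ∧
  (∀ τ x : ℝ, Kit (-τ) x = Kit τ x) ∧
  (∀ τ x : ℝ, 0 < x → |Kit τ x| ≤ Kit 0 x) ∧
  (∀ x : ℝ, 0 < x → 0 < Kit 0 x) ∧
  AntitoneOn (Kit 0) (Set.Ioi 0) ∧
  (∀ τ x : ℝ, 0 < x → 0 < τ → |Kit τ x| ≤ 1 / τ) ∧
  (∃ C : ℝ, ∀ x : ℝ, 0 < x → Kit 0 x ≤ C * (1 + |Real.log x|) * Real.exp (-x)) ∧
  Tendsto (Kit 0) (𝓝[>] 0) atTop ∧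
  Measurable (Function.uncurry Kit) ∧
  ContinuousOn (Function.uncurry Kit) (Set.univ ×ˢ Set.Ioi 0)

/-- KTS: shift of the contour -/
def KtsStatement : Prop :=
  (∀ τ x φ : ℝ, 0 < x → 0 ≤ τ → 0 ≤ φ → φ < Real.pi / 2 →
    |Kit τ x| ≤ Real.exp (-(φ * τ)) * Kit 0 (x * Real.cos φ)) ∧
  (∀ τ r ψ : ℝ, 0 < r → |ψ| < Real.pi / 2 →
    pw τ (r * exp (ψ * I)) = Kit τ r * Real.exp (τ * ψ)) ∧
  ∀ x φ : ℝ, 0 < x → |φ| < Real.pi / 2 →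
    IntegrableOn (fun τ : ℝ => Kit τ x * Real.cosh (φ * τ)) (Set.Ioi 0) ∧
    ∫ τ in Set.Ioi (0 : ℝ), Kit τ x * Real.cosh (φ * τ) = Real.pi / 2 * Real.exp (-(x * Real.cos φ))

/-- KTP: the formula of Kontorovich and Lebedev -/
def KtpStatement : Prop :=
  ∀ x x' ψ : ℝ, 0 < x → 0 < x' → |ψ| < Real.pi →
    Integrable (fun τ : ℝ => Kit τ x * Kit τ x' * Real.exp (ψ * τ)) ∧
    ∫ τ : ℝ, Kit τ x * Kit τ x' * Real.exp (ψ * τ)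
      = Real.pi * Kit 0 (√(x ^ 2 + x' ^ 2 + 2 * x * x' * Real.cos ψ))

/-- KTL: Laplace transform of the heat kernel -/
def KtlStatement : Prop :=
  ∀ (κ : ℝ) (z : ℂ), 0 < κ → z ≠ 0 →
    IntegrableOn (fun t : ℝ => Real.exp (-(κ ^ 2 * t)) * G t z) (Set.Ioi 0) ∧
    ∫ t in Set.Ioi (0 : ℝ), Real.exp (-(κ ^ 2 * t)) * G t z = Kit 0 (κ * ‖z‖) / (2 * Real.pi)

/-- MVP: mean value property of plane waves; it implies the local smoothing property -/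
def MvpStatement : Prop :=
  (∀ τ : ℝ, MVP 1 {z | 0 < z.re} (pw τ)) ∧
  (∀ (κ : ℝ) (c : ℂ) (W : Set ℂ) (v : ℂ → ℝ), 0 < κ → ‖c‖ = 1 → MVP 1 W v →
    MVP κ {z | (κ : ℂ) * c * z ∈ W} (fun z => v ((κ : ℂ) * c * z))) ∧
  ∀ (κ : ℝ) (W : Set ℂ) (v : ℂ → ℝ), 0 < κ → IsOpen W → Measurable v →
    (∀ K : Set ℂ, IsCompact K → K ⊆ W → ∃ M : ℝ, ∀ z ∈ K, |v z| ≤ M) → MVP κ W v →
    LMP (κ ^ 2) W v

/-- IDT: uniqueness -/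
def IdtStatement : Prop :=
  ∀ (s : ℝ) (W : Set ℂ) (D B : ℂ → ℝ), 0 < s → IsOpen W → Measurable D → Measurable B →
    LMP s W D → LMP s W B → (∀ z ∈ W, 0 ≤ B z) →
    (∀ ε : ℝ, 0 < ε → ∃ K : Set ℂ, IsCompact K ∧ K ⊆ W ∧ ∀ z ∈ W, z ∉ K →
      |D z| ≤ ε * (1 + B z)) →
    ∀ z ∈ W, D z = 0

/-! ### Block L: kernels -/

/-- UNI: the plane -/
def UniStatement : Prop := ∀ (t : ℝ) (x y : ℂ), 0 < t → pD Set.univ t x y = G t (x - y)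

/-- HPK: the half-plane -/
def HpkStatement : Prop :=
  ∀ (u : ℂ) (b t : ℝ) (x y : ℂ), ‖u‖ = 1 → 0 < t → ip u x < b → ip u y < b →
    pD {z | ip u z < b} t x y = G t (x - y) - G t (x - (y - ((2 * (ip u y - b) : ℝ) : ℂ) * u))

/-- SGR: semigroup property -/
def SgrStatement : Prop :=
  ∀ (D : Set ℂ) (s t : ℝ) (x y : ℂ), IsOpen D → 0 < s → 0 < t →
    pD D (s + t) x y = ∫ z, pD D s x z * pD D t z y

/-- LAB: kernels with labels -/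
def LabStatement : Prop :=
  ∀ (u : Fin 3 → ℂ) (h : Fin 3 → ℝ), (∀ s, ‖u s‖ = 1) →
    (∀ A, Measurable (fun p : ℝ × ℂ × ℂ => kA u h A p.1 p.2.1 p.2.2)) ∧
    ∀ (t : ℝ) (x y : ℂ), 0 < t →
    (∀ A, 0 ≤ kA u h A t x y) ∧
    (∀ B, pB u h B t x y = ∑ A ∈ Bᶜ.powerset, kA u h A t x y) ∧
    (∀ M E, Disjoint M E →
      kME u h M E t x y = ∑ A ∈ (Eᶜ).powerset.filter (fun A => M ⊆ A), kA u h A t x y) ∧
    (∀ A, kA u h A t x y = kA u h A t y x) ∧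
    (∀ A, kA u h A t x y ≤ Real.exp (-(bl u h A x y) ^ 2 / (4 * t)) / (4 * Real.pi * t)) ∧
    ∀ A s, s ∉ A → kA u h A t x y ≠ 0 → ip (u s) x < h s ∧ ip (u s) y < h s

/-- INV: invariance under isometries -/
def InvStatement : Prop :=
  (∀ (g : ℂ ≃ᵢ ℂ) (D : Set ℂ) (t : ℝ) (x y : ℂ), IsOpen D → 0 < t →
    pD (g '' D) t (g x) (g y) = pD D t x y) ∧
  (∀ (u : Fin 3 → ℂ) (h : Fin 3 → ℝ) (M E : Finset (Fin 3)) (L : ℂ ≃ₗᵢ[ℝ] ℂ) (b : ℂ) (t : ℝ),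
    0 < t → VM (fun s => L (u s)) (fun s => h s + ip (L (u s)) b) M E t = VM u h M E t) ∧
  ∀ (u : Fin 3 → ℂ) (h : Fin 3 → ℝ) (M E : Finset (Fin 3)) (σ : Equiv.Perm (Fin 3)) (t : ℝ),
    0 < t → VM (fun s => u (σ s)) (fun s => h (σ s)) M E t
      = VM u h (M.map σ.toEmbedding) (E.map σ.toEmbedding) t

/-- VEX: expectation of an area -/
def VexStatement : Prop :=
  ∀ (u : Fin 3 → ℂ) (h : Fin 3 → ℝ) (M E : Finset (Fin 3)) (t : ℝ), (∀ s, ‖u s‖ = 1) →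
    Disjoint M E → 0 < t → Integrable (fun x => kME u h M E t x x) →
    VM u h M E t = G t 0 * ∫ ω, (volume {x : ℂ |
      (∀ s ∈ M, h s < ip (u s) x + Real.sqrt t * hs ω (u s)) ∧
      ∀ s ∈ E, ip (u s) x + Real.sqrt t * hs ω (u s) < h s}).toReal ∂PP

/-! ### Block W: the kernel of the wedge -/

/-- KER: paths which avoid side `2` and visit side `1` -/
def KerStatement : Prop :=
  ∀ η1 η2 d κ r r' ψ ψ' : ℝ, 0 < η1 → 0 < η2 → η1 + η2 < Real.pi → 0 < κ → 0 < r → 0 < r' →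
    -η2 < ψ → ψ < η1 → -η2 < ψ' → ψ' < η1 →
    IntegrableOn (fun t : ℝ => Real.exp (-(κ ^ 2 * t)) *
      kME (us η1 η2) (hh d) {1} {2} t (r * exp (ψ * I)) (r' * exp (ψ' * I))) (Set.Ioi 0) ∧
    IntegrableOn (fun τ : ℝ => Kit τ (κ * r) * Kit τ (κ * r') * Real.sinh (τ * (ψ + η2))
      * Real.sinh (τ * (ψ' + η2)) * (Real.sinh ((Real.pi - (η1 + η2)) * τ)
        / Real.sinh ((η1 + η2) * τ))) (Set.Ioi 0) ∧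
    ∫ t in Set.Ioi (0 : ℝ), Real.exp (-(κ ^ 2 * t)) *
      kME (us η1 η2) (hh d) {1} {2} t (r * exp (ψ * I)) (r' * exp (ψ' * I))
      = 2 / Real.pi ^ 2 * ∫ τ in Set.Ioi (0 : ℝ), Kit τ (κ * r) * Kit τ (κ * r')
        * Real.sinh (τ * (ψ + η2)) * Real.sinh (τ * (ψ' + η2))
        * (Real.sinh ((Real.pi - (η1 + η2)) * τ) / Real.sinh ((η1 + η2) * τ))

/-- KES: paths which visit both sides -/
def KesStatement : Prop :=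
  ∀ η1 η2 d κ r r' ψ ψ' : ℝ, 0 < η1 → 0 < η2 → η1 + η2 < Real.pi → 0 < κ → 0 < r → 0 < r' →
    -η2 < ψ → ψ < η1 → -η2 < ψ' → ψ' < η1 →
    IntegrableOn (fun t : ℝ => Real.exp (-(κ ^ 2 * t)) *
      kME (us η1 η2) (hh d) {1, 2} ∅ t (r * exp (ψ * I)) (r' * exp (ψ' * I))) (Set.Ioi 0) ∧
    IntegrableOn (fun τ : ℝ => Kit τ (κ * r) * Kit τ (κ * r') *
      ((Real.sinh ((2 * (η1 + η2) - Real.pi) * τ) * Real.cosh ((η1 - η2 - ψ - ψ') * τ)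
        + Real.sinh ((Real.pi - (η1 + η2)) * τ) * Real.cosh ((ψ - ψ') * τ))
        / Real.sinh ((η1 + η2) * τ))) (Set.Ioi 0) ∧
    ∫ t in Set.Ioi (0 : ℝ), Real.exp (-(κ ^ 2 * t)) *
      kME (us η1 η2) (hh d) {1, 2} ∅ t (r * exp (ψ * I)) (r' * exp (ψ' * I))
      = 1 / Real.pi ^ 2 * ∫ τ in Set.Ioi (0 : ℝ), Kit τ (κ * r) * Kit τ (κ * r') *
        ((Real.sinh ((2 * (η1 + η2) - Real.pi) * τ) * Real.cosh ((η1 - η2 - ψ - ψ') * τ)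
          + Real.sinh ((Real.pi - (η1 + η2)) * τ) * Real.cosh ((ψ - ψ') * τ))
          / Real.sinh ((η1 + η2) * τ))

/-! ### Block B: blocks -/

/-- BLV: the loops cut into blocks -/
def BlvStatement : Prop :=
  ∀ (u : Fin 3 → ℂ) (h : Fin 3 → ℝ), (∀ s, ‖u s‖ = 1) → ∀ (n : ℕ) [NeZero n] (τ : Fin n → ℝ),
    (∀ j, 0 < τ j) → ∀ M E : Finset (Fin 3), Disjoint M E →
      ∫⁻ x, ENNReal.ofReal (kME u h M E (∑ j, τ j) x x) = Ms u h τ (fun _ A => Vis M E A)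

open Classical in
/-- TEL: the telescoping identity -/
def TelStatement : Prop :=
  ∀ (n : ℕ) [NeZero n] (O : Finset (Fin 3)) (χ : Fin n → ℝ) (A : Fin n → Finset (Fin 3)),
    0 ∉ O → O.Nonempty → (∀ j, 0 ∈ A j → χ j = 1 ∧ χ (j + 1) = 1) →
    (∀ j, ∀ s ∈ O, s ∈ A j → χ j = 0 ∧ χ (j + 1) = 0) → Vis (insert 0 O) ∅ A → NoAlt O A →
    ∑ j, (χ (j + 1) - χ j) * (if Fj O A j then 1 else 0) = 1

open Classical in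
/-- the flux through block `0` -/
noncomputable def TC {n : ℕ} [NeZero n] (u : Fin 3 → ℂ) (h : Fin 3 → ℝ) (τ : Fin n → ℝ)
    (O E : Finset (Fin 3)) (ξ1 : ℝ) : ℝ :=
  ∑ A : Fin n → Finset (Fin 3), ∫ x, (ch ξ1 (x 1) - ch ξ1 (x 0)) *
    (if Fj O A 0 ∧ ∀ j, Disjoint (A j) E then wt u h τ x A else 0)

/-- BLC: the mass of the loops is the sum of the fluxes up to a bad event -/
def BlcStatement : Prop :=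
  ∀ (u : Fin 3 → ℂ) (h : Fin 3 → ℝ), (∀ s, ‖u s‖ = 1) → ∀ (n : ℕ) [NeZero n] (τ : Fin n → ℝ),
    2 ≤ n → (∀ j, 0 < τ j) → ∀ (O E : Finset (Fin 3)) (ξ1 : ℝ), 0 ∉ O → O.Nonempty →
    Disjoint (insert 0 O) E → Ms u h τ (fun _ A => Vis (insert 0 O) E A) ≠ ⊤ →
    |VM u h (insert 0 O) E (∑ j, τ j) - ∑ j : Fin n, TC u h (fun i => τ (i + j)) O E ξ1|
      ≤ (n + 1) * (Ms u h τ (fun x A => Vis (insert 0 O) E A ∧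
        ¬ (Adp O ξ1 x A ∧ NoAlt O A))).toReal

/-- the other side of line `0` -/
noncomputable def uc (u : Fin 3 → ℂ) : Fin 3 → ℂ := Function.update u 0 (-u 0)

/-- support numbers -/
noncomputable def hc (h : Fin 3 → ℝ) : Fin 3 → ℝ := Function.update h 0 (-h 0)

open Classical in
/-- density of the loops which start block `1` at the reflected point -/
noncomputable def wtw {n : ℕ} [NeZero n] (u : Fin 3 → ℂ) (h : Fin 3 → ℝ) (τ : Fin n → ℝ)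
    (x : Fin n → ℂ) (A : Fin n → Finset (Fin 3)) : ℝ :=
  G (τ 0) (x 0 - x 1) * ∏ j ∈ Finset.univ.erase 0,
    kA (uc u) (hc h) (A j) (τ j) (if j = 1 then rf u h 0 (x 1) else x j) (x (j + 1))

open Classical in
/-- mass of a set of reflected configurations with trivial label in block `0` -/
noncomputable def Mtw {n : ℕ} [NeZero n] (u : Fin 3 → ℂ) (h : Fin 3 → ℝ) (τ : Fin n → ℝ)
    (S : (Fin n → ℂ) → (Fin n → Finset (Fin 3)) → Prop) : ℝ≥0∞ :=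
  ∑ A : Fin n → Finset (Fin 3), ∫⁻ x,
    if A 0 = ∅ ∧ S x A then ENNReal.ofReal (wtw u h τ x A) else 0

/-- `k` is the first block after block `0` with label `0` -/
def Fst {n : ℕ} [NeZero n] (A : Fin n → Finset (Fin 3)) (k : ℕ) : Prop :=
  0 < k ∧ k < n ∧ 0 ∈ A (Fin.ofNat n k) ∧ ∀ l : ℕ, 0 < l → l < k → 0 ∉ A (Fin.ofNat n l)

/-- a label in `E` is visited before or at the first visit of `0` -/
def Bad2 {n : ℕ} [NeZero n] (O E : Finset (Fin 3)) (A : Fin n → Finset (Fin 3)) (l0 : ℕ) : Prop :=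
  ∃ k : ℕ, Fst A k ∧ (∀ s ∈ O, ∃ l : ℕ, k < l ∧ l < n ∧ s ∈ A (Fin.ofNat n l)) ∧
    (∀ l : ℕ, k < l → l < n → Disjoint (A (Fin.ofNat n l)) E) ∧
    ∃ l : ℕ, l0 ≤ l ∧ l ≤ k ∧ ¬ Disjoint (A (Fin.ofNat n l)) E

/-- a label in `O` is visited before or at the first visit of `0` -/
def Bad3 {n : ℕ} [NeZero n] (O E : Finset (Fin 3)) (A : Fin n → Finset (Fin 3)) : Prop :=
  ∃ k : ℕ, Fst A k ∧ (∀ s ∈ O, ∃ l : ℕ, 0 < l ∧ l < n ∧ s ∈ A (Fin.ofNat n l)) ∧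
    (∀ l : ℕ, 0 < l → l < n → Disjoint (A (Fin.ofNat n l)) E) ∧
    ∃ s ∈ O, ∃ l : ℕ, 0 < l ∧ l ≤ k ∧ s ∈ A (Fin.ofNat n l)

/-- configurations of positive density -/
def Cns {n : ℕ} [NeZero n] (u : Fin 3 → ℂ) (h : Fin 3 → ℝ) (x : Fin n → ℂ)
    (A : Fin n → Finset (Fin 3)) : Prop :=
  ∀ (j : Fin n) (s : Fin 3), s ∉ A j → ip (u s) (x j) < h s ∧ ip (u s) (x (j + 1)) < h s

/-- initial point of block `j` of a reflected configuration -/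
noncomputable def ini {n : ℕ} [NeZero n] (u : Fin 3 → ℂ) (h : Fin 3 → ℝ) (x : Fin n → ℂ)
    (j : Fin n) : ℂ := if j = 1 then rf u h 0 (x 1) else x j

/-- reflected configurations of positive density -/
def Cnt {n : ℕ} [NeZero n] (u : Fin 3 → ℂ) (h : Fin 3 → ℝ) (x : Fin n → ℂ)
    (A : Fin n → Finset (Fin 3)) : Prop :=
  ∀ (j : Fin n) (s : Fin 3), j ≠ 0 → s ∉ A j →
    ip (uc u s) (ini u h x j) < hc h s ∧ ip (uc u s) (x (j + 1)) < hc h s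

/-- total length of a configuration -/
noncomputable def Ln {n : ℕ} [NeZero n] (u : Fin 3 → ℂ) (h : Fin 3 → ℝ) (x : Fin n → ℂ)
    (A : Fin n → Finset (Fin 3)) : ℝ := ∑ j, bl u h (A j) (x j) (x (j + 1))

/-- total length of a reflected configuration -/
noncomputable def Lt {n : ℕ} [NeZero n] (u : Fin 3 → ℂ) (h : Fin 3 → ℝ) (x : Fin n → ℂ)
    (A : Fin n → Finset (Fin 3)) : ℝ := ∑ j, bl (uc u) (hc h) (A j) (ini u h x j) (x (j + 1))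

/-- all blocks are short -/
def Sho {n : ℕ} [NeZero n] (u : Fin 3 → ℂ) (h : Fin 3 → ℝ) (δ : ℝ) (x : Fin n → ℂ)
    (A : Fin n → Finset (Fin 3)) : Prop := ∀ j, bl u h (A j) (x j) (x (j + 1)) < δ

/-- all blocks of a reflected configuration are short -/
def Sht {n : ℕ} [NeZero n] (u : Fin 3 → ℂ) (h : Fin 3 → ℝ) (δ : ℝ) (x : Fin n → ℂ)
    (A : Fin n → Finset (Fin 3)) : Prop :=
  ∀ j, bl (uc u) (hc h) (A j) (ini u h x j) (x (j + 1)) < δ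

/-- REF: reflection of the path before its first visit of line `0` -/
def RefStatement : Prop :=
  ∀ (η1 η2 d ξ1 δ ζ1 ζ2 : ℝ) (n : ℕ) [NeZero n] (τ : Fin n → ℝ) (O E : Finset (Fin 3)),
    0 < δ → ξ1 + δ < d → 2 ≤ n → (∀ j, 0 < τ j) → 0 ∉ O → 0 ∉ E → O.Nonempty → Disjoint O E →
    Ms (us η1 η2) (hh d) τ (fun _ A => Vis (insert 0 O) E A) ≠ ⊤ →
    ENNReal.ofReal |TC (us η1 η2) (hh d) τ O E ξ1
        - TT3 η1 η2 d O E ξ1 δ ζ1 ζ2 (τ 0) (∑ j, τ j)|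
      ≤ Ms (us η1 η2) (hh d) τ (fun x A => Fj O A 0 ∧ (∀ j, Disjoint (A j) E) ∧
          ch ξ1 (x 0) ≠ ch ξ1 (x 1) ∧ ¬ (x 0 ∈ Rw ξ1 δ ζ1 ζ2 ∧ x 1 ∈ Rw ξ1 δ ζ1 ζ2))
        + Ms (us η1 η2) (hh d) τ (fun x A => Bad2 O E A 0 ∧ ch ξ1 (x 0) ≠ ch ξ1 (x 1) ∧
          x 0 ∈ Rw ξ1 δ ζ1 ζ2 ∧ x 1 ∈ Rw ξ1 δ ζ1 ζ2)
        + Mtw (us η1 η2) (hh d) τ (fun x A => (Bad2 O E A 1 ∨ Bad3 O E A) ∧
          ch ξ1 (x 0) ≠ ch ξ1 (x 1) ∧ x 0 ∈ Rw ξ1 δ ζ1 ζ2 ∧ x 1 ∈ Rw ξ1 δ ζ1 ζ2)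

/-- LDB: Gaussian bound for chains of blocks -/
def LdbStatement : Prop :=
  ∀ (n : ℕ) [NeZero n] (f : Fin n → ℂ ≃ᵢ ℂ) (δ l R ε : ℝ), 0 < δ → 0 < l → 0 < R → 0 < ε →
    ∃ (C : ℝ) (p : ℕ), ∀ (τ : Fin n → ℝ) (b : Fin n → ℂ → ℂ → ℝ) (S : Set (Fin n → ℂ)),
      (∀ j, 0 < τ j) → (∀ j, τ j * l ^ 2 ≤ δ ^ 2 * ∑ i, τ i) → MeasurableSet S →
      (∀ j, Measurable (Function.uncurry (b j))) → (∀ j x y, ‖f j x - y‖ ≤ b j x y) →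
      (∀ x ∈ S, (∀ j, b j (x j) (x (j + 1)) < δ) → l ≤ ∑ j, b j (x j) (x (j + 1))) →
      (∀ x ∈ S, ‖x 0‖ ≤ R * (1 + ∑ j, b j (x j) (x (j + 1)))) →
      ∫⁻ x in S, ENNReal.ofReal (∏ j, Real.exp (-(b j (x j) (x (j + 1))) ^ 2 / (4 * τ j))
          / (4 * Real.pi * τ j))
        ≤ ENNReal.ofReal (C * (1 + ∑ i, τ i) ^ p / (∑ i, τ i)
          * Real.exp (-((1 - ε) * l ^ 2 / (4 * ∑ i, τ i))))

/-- LDM: Gaussian bounds for masses -/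
def LdmStatement : Prop :=
  ∀ (u : Fin 3 → ℂ) (h : Fin 3 → ℝ), (∀ s, ‖u s‖ = 1) → ∀ (n : ℕ) [NeZero n]
    (S : (Fin n → ℂ) → (Fin n → Finset (Fin 3)) → Prop) (δ l R ε : ℝ),
    (∀ A, MeasurableSet {x | S x A}) → 0 < δ → 0 < l → 0 < R → 0 < ε →
    ((∀ x A, S x A → Cns u h x A → Sho u h δ x A → l ≤ Ln u h x A) →
      (∀ x A, S x A → Cns u h x A → ‖x 0‖ ≤ R * (1 + Ln u h x A)) →
      ∃ (C : ℝ) (p : ℕ), ∀ τ : Fin n → ℝ, (∀ j, 0 < τ j) →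
        (∀ j, τ j * l ^ 2 ≤ δ ^ 2 * ∑ i, τ i) →
        Ms u h τ S ≤ ENNReal.ofReal (C * (1 + ∑ i, τ i) ^ p / (∑ i, τ i)
          * Real.exp (-((1 - ε) * l ^ 2 / (4 * ∑ i, τ i))))) ∧
    (2 ≤ n →
      (∀ x A, S x A → A 0 = ∅ → Cnt u h x A → Sht u h δ x A → l ≤ Lt u h x A) →
      (∀ x A, S x A → ‖x 0‖ ≤ R) →
      ∃ (C : ℝ) (p : ℕ), ∀ τ : Fin n → ℝ, (∀ j, 0 < τ j) →
        (∀ j, τ j * l ^ 2 ≤ δ ^ 2 * ∑ i, τ i) →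
        Mtw u h τ S ≤ ENNReal.ofReal (C * (1 + ∑ i, τ i) ^ p / (∑ i, τ i)
          * Real.exp (-((1 - ε) * l ^ 2 / (4 * ∑ i, τ i)))))

/-- the smaller one of the altitudes from the other two vertices -/
noncomputable def hb (η1 η2 d : ℝ) : ℝ :=
  min (d / Real.cos η1 * Real.sin (η1 + η2)) (d / Real.cos η2 * Real.sin (η1 + η2))

/-- GES: geometry of the spanning case -/
def GesStatement : Prop :=
  ∀ η1 η2 d ε : ℝ, 0 < η1 → η1 < Real.pi / 2 → 0 < η2 → η2 < Real.pi / 2 → 0 < d → 0 < ε →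
    ∃ ρ0 : ℝ, 0 < ρ0 ∧ ∀ ρ : ℝ, 0 < ρ → ρ < ρ0 → ∃ δ0 : ℝ, 0 < δ0 ∧ ∀ δ : ℝ, 0 < δ → δ < δ0 →
    ∀ (n : ℕ) [NeZero n] (x : Fin n → ℂ) (A : Fin n → Finset (Fin 3)), 2 ≤ n →
      (Vis {0, 1, 2} ∅ A → Cns (us η1 η2) (hh d) x A → Sho (us η1 η2) (hh d) δ x A →
        Ln (us η1 η2) (hh d) x A < 2 * hb η1 η2 d - ε →
        Adp {1, 2} (d - 2 * δ) x A ∧ NoAlt {1, 2} A ∧
        (ch (d - 2 * δ) (x 0) ≠ ch (d - 2 * δ) (x 1) →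
          x 0 ∈ Rw (d - 2 * δ) δ (d * Real.tan η1 - ρ) (d * Real.tan η2 - ρ) ∧
          x 1 ∈ Rw (d - 2 * δ) δ (d * Real.tan η1 - ρ) (d * Real.tan η2 - ρ))) ∧
      (A 0 = ∅ → Bad3 {1, 2} ∅ A → Cnt (us η1 η2) (hh d) x A → Sht (us η1 η2) (hh d) δ x A →
        x 1 ∈ Rw (d - 2 * δ) δ (d * Real.tan η1 - ρ) (d * Real.tan η2 - ρ) →
        2 * hb η1 η2 d - ε ≤ Lt (us η1 η2) (hh d) x A)

/-- GEN: geometry of the nonspanning case -/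
def GenStatement : Prop :=
  ∀ η1 η2 d : ℝ, Real.pi / 2 < η1 → 0 < η2 → η1 + η2 < Real.pi → 0 < d →
    ∃ ρ0 : ℝ, 0 < ρ0 ∧ ∀ ρ : ℝ, 0 < ρ → ρ < ρ0 → ∃ e δ0 : ℝ, 0 < e ∧ 0 < δ0 ∧
    ∀ δ : ℝ, 0 < δ → δ < δ0 →
    ∀ (n : ℕ) [NeZero n] (x : Fin n → ℂ) (A : Fin n → Finset (Fin 3)), 2 ≤ n →
      (Vis {0, 1} {2} A → Cns (us η1 η2) (hh d) x A → Sho (us η1 η2) (hh d) δ x A →
        Ln (us η1 η2) (hh d) x A < 2 * d + e →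
        Adp {1} (d - 2 * δ) x A ∧ NoAlt {1} A ∧
        (ch (d - 2 * δ) (x 0) ≠ ch (d - 2 * δ) (x 1) →
          x 0 ∈ Rw (d - 2 * δ) δ ρ ρ ∧ x 1 ∈ Rw (d - 2 * δ) δ ρ ρ)) ∧
      (Bad2 {1} {2} A 0 → Cns (us η1 η2) (hh d) x A → Sho (us η1 η2) (hh d) δ x A →
        x 0 ∈ Rw (d - 2 * δ) δ ρ ρ → x 1 ∈ Rw (d - 2 * δ) δ ρ ρ →
        2 * d + e ≤ Ln (us η1 η2) (hh d) x A) ∧
      (A 0 = ∅ → Bad2 {1} {2} A 1 ∨ Bad3 {1} {2} A → Cnt (us η1 η2) (hh d) x A →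
        Sht (us η1 η2) (hh d) δ x A →
        x 0 ∈ Rw (d - 2 * δ) δ ρ ρ → x 1 ∈ Rw (d - 2 * δ) δ ρ ρ →
        2 * d + e ≤ Lt (us η1 η2) (hh d) x A)

/-- LOC: a loop which visits the lines in question is not short and not far away -/
def LocStatement : Prop :=
  ∀ η1 η2 d : ℝ, 0 < η1 → 0 < η2 → η1 + η2 < Real.pi → 0 < d → ∃ R : ℝ, 0 < R ∧
    ∀ (n : ℕ) [NeZero n] (x : Fin n → ℂ) (A : Fin n → Finset (Fin 3)),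
      (η1 < Real.pi / 2 → η2 < Real.pi / 2 → Vis {0, 1, 2} ∅ A →
        Cns (us η1 η2) (hh d) x A →
        ‖x 0‖ ≤ R * (1 + Ln (us η1 η2) (hh d) x A) ∧ 1 / R ≤ Ln (us η1 η2) (hh d) x A) ∧
      (Real.pi / 2 < η1 → Vis {0, 1} {2} A → Cns (us η1 η2) (hh d) x A →
        ‖x 0‖ ≤ R * (1 + Ln (us η1 η2) (hh d) x A) ∧ 1 / R ≤ Ln (us η1 η2) (hh d) x A)

/-- HYE: almost additive functions -/
def HyeStatement : Prop :=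
  ∀ (f : ℝ → ℝ) (T ε M : ℝ), 0 < T → (∀ a, 0 < a → a ≤ T → |f a| ≤ M) →
    (∀ a b, 0 < a → 0 < b → a + b ≤ T → |f (a + b) - f a - f b| ≤ ε) →
    ∀ a, 0 < a → a ≤ T → |f a - a / T * f T| ≤ 3 * ε

/-- LPS: from the blocks to the Laplace transform -/
def LpsStatement : Prop :=
  ∀ (V : ℝ → ℝ) (T : ℝ → ℝ → ℝ) (n p : ℕ) (C l l0 ε : ℝ), 0 < n → 0 < l → 0 < l0 → 0 < ε →
    Measurable V → Measurable (Function.uncurry T) →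
    (∀ a t : ℝ, 0 < a → n * a ≤ t → |T a t - a / t * V t| ≤ C * (1 + t) ^ p * Real.exp (-(l ^ 2 / (4 * t)))) →
    (∀ t : ℝ, 0 < t → |V t| ≤ C * (1 + t) ^ p * Real.exp (-(l0 ^ 2 / (4 * t)))) →
    (∀ a t : ℝ, 0 < a → a < t → |T a t| ≤ C * (1 + t) ^ p * Real.exp (-(l0 ^ 2 / (4 * t)))) →
    ∃ c0 : ℝ, 0 < c0 ∧ ∀ c : ℝ, 0 < c → c < c0 → ∃ C' κ0 : ℝ, 0 < κ0 ∧ ∀ κ : ℝ, κ0 ≤ κ →
      |PhiT V κ - κ / c * ∫ t in Set.Ioi (c / κ), Real.exp (-(κ ^ 2 * t)) * T (c / κ) t|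
        ≤ C' * Real.exp (-(κ * (l - ε)))

/-- BMS: blocks, spanning case -/
def BmsStatement : Prop :=
  ∀ η1 η2 d ε : ℝ, 0 < η1 → η1 < Real.pi / 2 → 0 < η2 → η2 < Real.pi / 2 → 0 < d → 0 < ε →
    ∃ ρ0 : ℝ, 0 < ρ0 ∧ ∀ ρ : ℝ, 0 < ρ → ρ < ρ0 → ∃ δ0 : ℝ, 0 < δ0 ∧ ∀ δ : ℝ, 0 < δ → δ < δ0 →
    ∃ c0 : ℝ, 0 < c0 ∧ ∀ c : ℝ, 0 < c → c < c0 → ∃ C κ0 : ℝ, 0 < κ0 ∧ ∀ κ : ℝ, κ0 ≤ κ →
      |PhiT (VM (us η1 η2) (hh d) {0, 1, 2} ∅) κ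
        - κ / c * ∫ t in Set.Ioi (c / κ), Real.exp (-(κ ^ 2 * t)) *
          TT3 η1 η2 d {1, 2} ∅ (d - 2 * δ) δ (d * Real.tan η1 - ρ) (d * Real.tan η2 - ρ) (c / κ) t|
        ≤ C * Real.exp (-(κ * (2 * hb η1 η2 d - ε)))

/-- BMN: blocks, nonspanning case -/
def BmnStatement : Prop :=
  ∀ η1 η2 d : ℝ, Real.pi / 2 < η1 → 0 < η2 → η1 + η2 < Real.pi → 0 < d →
    ∃ ρ0 : ℝ, 0 < ρ0 ∧ ∀ ρ : ℝ, 0 < ρ → ρ < ρ0 → ∃ e δ0 : ℝ, 0 < e ∧ 0 < δ0 ∧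
    ∀ δ : ℝ, 0 < δ → δ < δ0 →
    ∃ c0 : ℝ, 0 < c0 ∧ ∀ c : ℝ, 0 < c → c < c0 → ∃ C κ0 : ℝ, 0 < κ0 ∧ ∀ κ : ℝ, κ0 ≤ κ →
      |PhiT (VM (us η1 η2) (hh d) {0, 1} {2}) κ
        - κ / c * ∫ t in Set.Ioi (c / κ), Real.exp (-(κ ^ 2 * t)) *
          TT3 η1 η2 d {1} {2} (d - 2 * δ) δ ρ ρ (c / κ) t|
        ≤ C * Real.exp (-(κ * (2 * d + e)))

/-! ### Block F: the flux -/

/-- product of plane waves, `σ = τ` -/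
noncomputable def P1 (κ d τ : ℝ) (x y : ℂ) : ℝ :=
  pw τ (κ * (2 * d - (starRingEnd ℂ) y)) * pw τ (κ * x)

/-- product of plane waves, `σ = - τ` -/
noncomputable def P2 (κ d τ : ℝ) (x y : ℂ) : ℝ :=
  pw τ (κ * (2 * d - (starRingEnd ℂ) y)) * pw (-τ) (κ * x)

/-- coefficient -/
noncomputable def m1 (α τ : ℝ) : ℝ := Real.sinh ((2 * α - Real.pi) * τ) / Real.sinh (α * τ)

/-- coefficient -/
noncomputable def m2 (α τ : ℝ) : ℝ := Real.sinh ((Real.pi - α) * τ) / Real.sinh (α * τ)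

/-- the strip -/
def St (ξ1 δ : ℝ) : Set ℂ := {x | |x.re - ξ1| < δ}

/-- PAR: Parseval's formula -/
def ParStatement : Prop :=
  ∀ ξ ξ' τ σ b : ℝ, 0 < ξ → 0 < ξ' → 0 < b →
    Integrable (fun p : ℝ × ℝ => Real.exp (-(p.1 - p.2) ^ 2 / (4 * b)) / √(4 * Real.pi * b)
      * pw τ (ξ + p.1 * I) * pw σ (ξ' + p.2 * I)) ∧
    ∫ p : ℝ × ℝ, Real.exp (-(p.1 - p.2) ^ 2 / (4 * b)) / √(4 * Real.pi * b)
      * pw τ (ξ + p.1 * I) * pw σ (ξ' + p.2 * I)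
      = Real.pi / 2 * ∫ v : ℝ, Real.exp (-((ξ + ξ') * Real.cosh v) - b * Real.sinh v ^ 2)
        * Real.cos ((τ - σ) * v) / Real.cosh v

/-- FLE: the flux of one pair of plane waves through a whole line -/
def FleStatement : Prop :=
  ∀ d δ M : ℝ, 0 < δ → 3 * δ < d → 0 < M → ∃ c0 : ℝ, 0 < c0 ∧ ∀ c : ℝ, 0 < c → c < c0 →
    ∃ C κ0 : ℝ, 0 < κ0 ∧ ∀ κ τ : ℝ, κ0 ≤ κ →
      Integrable (fun p : ℂ × ℂ => G (c / κ) (p.1 - p.2) * P1 κ d τ p.1 p.2)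
        (volume.restrict (St (d - 2 * δ) δ ×ˢ St (d - 2 * δ) δ)) ∧
      Integrable (fun p : ℂ × ℂ => G (c / κ) (p.1 - p.2) * P2 κ d τ p.1 p.2)
        (volume.restrict (St (d - 2 * δ) δ ×ˢ St (d - 2 * δ) δ)) ∧
      |κ / c * Real.exp (-(κ ^ 2 * (c / κ))) *
        (∫ p in St (d - 2 * δ) δ ×ˢ St (d - 2 * δ) δ, G (c / κ) (p.1 - p.2)
          * (ch (d - 2 * δ) p.2 - ch (d - 2 * δ) p.1) * P1 κ d τ p.1 p.2)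
        - 2 * Real.pi * Kit 0 (2 * κ * d)| ≤ C * Real.exp (-(κ * M)) ∧
      |κ / c * Real.exp (-(κ ^ 2 * (c / κ))) *
        (∫ p in St (d - 2 * δ) δ ×ˢ St (d - 2 * δ) δ, G (c / κ) (p.1 - p.2)
          * (ch (d - 2 * δ) p.2 - ch (d - 2 * δ) p.1) * P2 κ d τ p.1 p.2)
        - 2 * Real.pi * Kit (2 * τ) (2 * κ * d)|
          ≤ C * Real.exp (-(κ * M)) * Real.exp (-(2 * Real.pi / 5 * |τ|))

/-- TLS: tails, spanning case -/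
def TlsStatement : Prop :=
  ∀ η1 η2 d ε : ℝ, 0 < η1 → η1 < Real.pi / 2 → 0 < η2 → η2 < Real.pi / 2 → 0 < d → 0 < ε →
    |2 * (η1 + η2) - Real.pi| + |η1 - η2| < η1 + η2 →
    ∃ ρ0 : ℝ, 0 < ρ0 ∧ ∀ ρ : ℝ, 0 < ρ → ρ < ρ0 → ∃ δ0 : ℝ, 0 < δ0 ∧ 3 * δ0 < d ∧ ∀ δ : ℝ, 0 < δ →
    δ < δ0 → ∃ c0 : ℝ, 0 < c0 ∧ ∀ c : ℝ, 0 < c → c < c0 → ∃ C κ0 : ℝ, 0 < κ0 ∧
    ∀ κ : ℝ, κ0 ≤ κ →
      ∫⁻ τ : ℝ, ∫⁻ p in (St (d - 2 * δ) δ ×ˢ St (d - 2 * δ) δ) \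
        (Rw (d - 2 * δ) δ (d * Real.tan η1 - ρ) (d * Real.tan η2 - ρ) ×ˢ
          Rw (d - 2 * δ) δ (d * Real.tan η1 - ρ) (d * Real.tan η2 - ρ)),
        ENNReal.ofReal (G (c / κ) (p.1 - p.2) * (|m1 (η1 + η2) τ| * Real.exp (-((η1 - η2) * τ))
          * |P1 κ d τ p.1 p.2| + |m2 (η1 + η2) τ| * |P2 κ d τ p.1 p.2|))
        ≤ ENNReal.ofReal (C * Real.exp (-(κ * (2 * hb η1 η2 d - ε))))

/-- TLN: tails, nonspanning case -/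
def TlnStatement : Prop :=
  ∀ η1 η2 d : ℝ, Real.pi / 2 < η1 → 0 < η2 → η1 + η2 < Real.pi → 0 < d →
    ∃ ρ0 : ℝ, 0 < ρ0 ∧ ∀ ρ : ℝ, 0 < ρ → ρ < ρ0 → ∃ e δ0 : ℝ, 0 < e ∧ 0 < δ0 ∧ 3 * δ0 < d ∧
    ∀ δ : ℝ, 0 < δ → δ < δ0 → ∃ c0 : ℝ, 0 < c0 ∧ ∀ c : ℝ, 0 < c → c < c0 → ∃ C κ0 : ℝ, 0 < κ0 ∧
    ∀ κ : ℝ, κ0 ≤ κ →
      ∫⁻ τ : ℝ, ∫⁻ p in (St (d - 2 * δ) δ ×ˢ St (d - 2 * δ) δ) \
        (Rw (d - 2 * δ) δ ρ ρ ×ˢ Rw (d - 2 * δ) δ ρ ρ),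
        ENNReal.ofReal (G (c / κ) (p.1 - p.2) * (|m2 (η1 + η2) τ| * (Real.exp (2 * η2 * τ)
          * |P1 κ d τ p.1 p.2| + |P2 κ d τ p.1 p.2|)))
        ≤ ENNReal.ofReal (C * Real.exp (-(κ * (2 * d + e))))

/-- FLS: the flux, spanning case -/
def FlsStatement : Prop :=
  ∀ η1 η2 d ε : ℝ, 0 < η1 → η1 < Real.pi / 2 → 0 < η2 → η2 < Real.pi / 2 → 0 < d → 0 < ε →
    |2 * (η1 + η2) - Real.pi| + |η1 - η2| < η1 + η2 →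
    ∃ ρ0 : ℝ, 0 < ρ0 ∧ ∀ ρ : ℝ, 0 < ρ → ρ < ρ0 → ∃ δ0 : ℝ, 0 < δ0 ∧ ∀ δ : ℝ, 0 < δ → δ < δ0 →
    ∃ c0 : ℝ, 0 < c0 ∧ ∀ c : ℝ, 0 < c → c < c0 → ∃ C κ0 : ℝ, 0 < κ0 ∧ ∀ κ : ℝ, κ0 ≤ κ →
      |κ / c * (∫ t in Set.Ioi (c / κ), Real.exp (-(κ ^ 2 * t)) *
          TT3 η1 η2 d {1, 2} ∅ (d - 2 * δ) δ (d * Real.tan η1 - ρ) (d * Real.tan η2 - ρ) (c / κ) t)
        - FS η1 η2 d κ| ≤ C * Real.exp (-(κ * (2 * hb η1 η2 d - ε)))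

/-- FLN: the flux, nonspanning case -/
def FlnStatement : Prop :=
  ∀ η1 η2 d : ℝ, Real.pi / 2 < η1 → 0 < η2 → η1 + η2 < Real.pi → 0 < d →
    ∃ ρ0 : ℝ, 0 < ρ0 ∧ ∀ ρ : ℝ, 0 < ρ → ρ < ρ0 → ∃ e δ0 : ℝ, 0 < e ∧ 0 < δ0 ∧
    ∀ δ : ℝ, 0 < δ → δ < δ0 →
    ∃ c0 : ℝ, 0 < c0 ∧ ∀ c : ℝ, 0 < c → c < c0 → ∃ C κ0 : ℝ, 0 < κ0 ∧ ∀ κ : ℝ, κ0 ≤ κ →
      |κ / c * (∫ t in Set.Ioi (c / κ), Real.exp (-(κ ^ 2 * t)) *
          TT3 η1 η2 d {1} {2} (d - 2 * δ) δ ρ ρ (c / κ) t)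
        - FN η1 η2 d κ| ≤ C * Real.exp (-(κ * (2 * d + e)))

/-! ### The results -/

/-- SPAN: germ of three lines which form a triangle, at the altitude `d` from the vertex between
sides `1` and `2` -/
def SpanStatement : Prop :=
  ∀ η1 η2 d ε : ℝ, 0 < η1 → η1 < Real.pi / 2 → 0 < η2 → η2 < Real.pi / 2 → 0 < d → 0 < ε →
    |2 * (η1 + η2) - Real.pi| + |η1 - η2| < η1 + η2 → ∃ C κ0 : ℝ, 0 < κ0 ∧ ∀ κ : ℝ, κ0 ≤ κ →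
      |PhiT (VM (us η1 η2) (hh d) {0, 1, 2} ∅) κ - FS η1 η2 d κ|
        ≤ C * Real.exp (-(κ * (2 * hb η1 η2 d - ε)))

/-- NSP: germ of three lines in the nonspanning case -/
def NspStatement : Prop :=
  ∀ η1 η2 d : ℝ, Real.pi / 2 < η1 → 0 < η2 → η1 + η2 < Real.pi → 0 < d →
    ∃ e C κ0 : ℝ, 0 < e ∧ 0 < κ0 ∧ ∀ κ : ℝ, κ0 ≤ κ →
      |PhiT (VM (us η1 η2) (hh d) {0, 1} {2}) κ - FN η1 η2 d κ| ≤ C * Real.exp (-(κ * (2 * d + e)))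

/-- FIN: closed forms -/
def FinStatement : Prop :=
  (∀ η1 η2 d κ : ℝ, 0 < η1 → η1 < Real.pi / 2 → 0 < η2 → η2 < Real.pi / 2 → 0 < d → 0 < κ →
    Real.pi / 2 < η1 + η2 →
    FS η1 η2 d κ = -AEU.H12.TB d (Real.pi / (η1 + η2)) η2 κ) ∧
  (∀ η1 η2 d κ : ℝ, 0 < η1 → η1 < Real.pi / 2 → 0 < η2 → η2 < Real.pi / 2 → 0 < d → 0 < κ →
    η1 + η2 < Real.pi / 2 → Real.pi - 2 * (η1 + η2) + |η1 - η2| < η1 + η2 →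
    FS η1 η2 d κ = Real.exp (-(2 * d * Real.sin (η1 + η2) * κ))
      - AEU.H12.TB d (Real.pi / (η1 + η2)) η2 κ) ∧
  ∀ η1 η2 d κ : ℝ, Real.pi / 2 < η1 → 0 < η2 → η1 + η2 < Real.pi → 0 < d → 0 < κ →
    FN η1 η2 d κ = AEU.H12.TB d (Real.pi / (η1 + η2)) η2 κ

end Pool.Agent.H60K
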