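import Pool.Agent.Helper60_AEU.Asm2

/-!
AEU (MP_5b0138_an), Part III: the module LDM from LDB and LAB (helper60).
-/

namespace Pool.Agent.H60K

open MeasureTheory Complex Filter Topology ProbabilityTheory Pool.Agent.H16Iso Pool.Agent.H62T
  Pool.Agent.H16F Pool.Agent.H38KL
open scoped ENNReal NNReal

/-! ### reflections as isometries -/

lemma rf_rf {u : Fin 3 → ℂ} {h : Fin 3 → ℝ} {s : Fin 3} (hu : ‖u s‖ = 1) (y : ℂ) :
    rf u h s (rf u h s y) = y := by
  have h1 : (u s).re ^ 2 + (u s).im ^ 2 = 1 := by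
    rw [← nsq, hu]; norm_num
  have h2 : ip (u s) (rf u h s y) - h s = -(ip (u s) y - h s) := by
    unfold rf
    have h3 : ip (u s) y = (u s).re * y.re + (u s).im * y.im := rfl
    set q := ip (u s) y - h s with hq
    unfold ip
    simp only [sub_re, sub_im, mul_re, mul_im, ofReal_re, ofReal_im]
    have h4 : h s = (u s).re * y.re + (u s).im * y.im - q := by rw [hq, h3]; ring
    rw [h4]
    linear_combination (-2 * q) * h1
  have h5 : rf u h s (rf u h s y)
      = rf u h s y - ((2 * (ip (u s) (rf u h s y) - h s) : ℝ) : ℂ) * u s := rfl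
  rw [h5, h2]
  unfold rf
  push_cast
  ring

lemma rf_isometry {u : Fin 3 → ℂ} {h : Fin 3 → ℝ} {s : Fin 3} (hu : ‖u s‖ = 1) :
    Isometry (rf u h s) := by
  refine Isometry.of_dist_eq fun x y => ?_
  rw [dist_eq_norm, dist_eq_norm]
  have h1 : (u s).re ^ 2 + (u s).im ^ 2 = 1 := by
    rw [← nsq, hu]; norm_num
  have h2 : ‖rf u h s x - rf u h s y‖ ^ 2 = ‖x - y‖ ^ 2 := by
    rw [nsq, nsq]
    unfold rf ip
    simp only [sub_re, sub_im, mul_re, mul_im, ofReal_re, ofReal_im]
    set a := (u s).re
    set b := (u s).im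
    have e : b ^ 2 = 1 - a ^ 2 := by linarith
    ring_nf
    have e3 : b ^ 3 = b * (1 - a ^ 2) := by rw [← e]; ring
    have e4 : b ^ 4 = (1 - a ^ 2) ^ 2 := by rw [← e]; ring
    rw [e4, e3, e]
    ring
  exact (pow_left_inj₀ (norm_nonneg _) (norm_nonneg _) two_ne_zero).1 h2

/-- the reflection as an isometry -/
noncomputable def rfE (u : Fin 3 → ℂ) (h : Fin 3 → ℝ) (s : Fin 3) (hu : ‖u s‖ = 1) : ℂ ≃ᵢ ℂ where
  toFun := rf u h s
  invFun := rf u h s
  left_inv := rf_rf hu
  right_inv := rf_rf hu
  isometry_toFun := rf_isometry hu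

lemma rfE_apply (u : Fin 3 → ℂ) (h : Fin 3 → ℝ) (s : Fin 3) (hu : ‖u s‖ = 1) (x : ℂ) :
    rfE u h s hu x = rf u h s x := rfl

/-! ### measurability of the lengths -/

lemma measurable_ip (a : ℂ) : Measurable (ip a) := by
  unfold ip
  fun_prop

lemma measurable_dd (u : Fin 3 → ℂ) (h : Fin 3 → ℝ) (s : Fin 3) :
    Measurable (fun p : ℂ × ℂ => dd u h s p.1 p.2) := by
  unfold dd
  have h1 : Measurable (fun p : ℂ × ℂ => ip (u s) p.1) := by
    unfold ip
    fun_prop
  have h2 : Measurable (fun p : ℂ × ℂ => ip (u s) p.2) := by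
    unfold ip
    fun_prop
  have h3 : MeasurableSet {p : ℂ × ℂ | ip (u s) p.1 < h s ∧ ip (u s) p.2 < h s} :=
    (measurableSet_lt h1 measurable_const).inter (measurableSet_lt h2 measurable_const)
  refine Measurable.ite h3 ?_ (by fun_prop)
  have h4 : Measurable (fun p : ℂ × ℂ => rf u h s p.2) := measurable_rf_comp u h s (by fun_prop)
  exact (measurable_fst.sub h4).norm

lemma measurable_bl (u : Fin 3 → ℂ) (h : Fin 3 → ℝ) (A : Finset (Fin 3)) :
    Measurable (fun p : ℂ × ℂ => bl u h A p.1 p.2) := by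
  unfold bl
  have h1 : ∀ s : Fin 3, Measurable (fun p : ℂ × ℂ => if s ∈ A then dd u h s p.1 p.2
      else ‖p.1 - p.2‖) := by
    intro s
    by_cases hs : s ∈ A
    · simp only [hs, if_true]
      exact measurable_dd u h s
    · simp only [hs, if_false]
      fun_prop
  have h2 := Finset.measurable_sup' (s := (Finset.univ : Finset (Fin 3))) Finset.univ_nonempty
    (f := fun s (p : ℂ × ℂ) => if s ∈ A then dd u h s p.1 p.2 else ‖p.1 - p.2‖)
    (fun s _ => h1 s)
  have h3 : (fun p : ℂ × ℂ => Finset.univ.sup' Finset.univ_nonempty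
      (fun s : Fin 3 => if s ∈ A then dd u h s p.1 p.2 else ‖p.1 - p.2‖))
      = Finset.univ.sup' Finset.univ_nonempty
        (fun s (p : ℂ × ℂ) => if s ∈ A then dd u h s p.1 p.2 else ‖p.1 - p.2‖) := by
    ext p
    rw [Finset.sup'_apply]
  rw [h3]
  exact h2

lemma measurable_bl_comp (u : Fin 3 → ℂ) (h : Fin 3 → ℝ) (A : Finset (Fin 3)) {β : Type*}
    [MeasurableSpace β] {g k : β → ℂ} (hg : Measurable g) (hk : Measurable k) :
    Measurable (fun a => bl u h A (g a) (k a)) := by
  have h3 := (measurable_bl u h A).comp (hg.prodMk hk)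
  simpa only [Function.comp_def] using h3

lemma bl_nonneg (u : Fin 3 → ℂ) (h : Fin 3 → ℝ) (A : Finset (Fin 3)) (x y : ℂ) :
    0 ≤ bl u h A x y := by
  unfold bl
  refine le_trans ?_ (Finset.le_sup' _ (Finset.mem_univ (0 : Fin 3)))
  unfold dd
  split_ifs <;> exact norm_nonneg _

lemma bl_empty (u : Fin 3 → ℂ) (h : Fin 3 → ℝ) (x y : ℂ) : bl u h ∅ x y = ‖x - y‖ := by
  unfold bl
  simp

lemma meas_Cns {n : ℕ} [NeZero n] (u : Fin 3 → ℂ) (h : Fin 3 → ℝ) (A : Fin n → Finset (Fin 3)) :
    MeasurableSet {x : Fin n → ℂ | Cns u h x A} := by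
  have hm : ∀ (j : Fin n) (s : Fin 3), MeasurableSet {x : Fin n → ℂ | ip (u s) (x j) < h s} := by
    intro j s
    have := (measurable_ip (u s)).comp (measurable_pi_apply (X := fun _ : Fin n => ℂ) j)
    exact measurableSet_lt this measurable_const
  unfold Cns
  rw [Set.ofPred_forall]
  refine MeasurableSet.iInter fun j => ?_
  rw [Set.ofPred_forall]
  refine MeasurableSet.iInter fun s => ?_
  by_cases h' : s ∉ A j
  · simp only [h', not_false_iff, true_imp_iff]
    exact (hm j s).inter (hm (j + 1) s)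
  · simp [h']

lemma meas_Cnt {n : ℕ} [NeZero n] (u : Fin 3 → ℂ) (h : Fin 3 → ℝ) (A : Fin n → Finset (Fin 3)) :
    MeasurableSet {x : Fin n → ℂ | Cnt u h x A} := by
  have hini : ∀ j : Fin n, Measurable (fun x : Fin n → ℂ => ini u h x j) := by
    intro j
    unfold ini
    by_cases hj : j = 1
    · simp only [hj, if_true]
      have := (measurable_rf u h 0).comp (measurable_pi_apply (X := fun _ : Fin n => ℂ) 1)
      exact this
    · simp only [hj, if_false]
      fun_prop
  have hm : ∀ (j : Fin n) (s : Fin 3),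
      MeasurableSet {x : Fin n → ℂ | ip (uc u s) (ini u h x j) < hc h s} := by
    intro j s
    exact measurableSet_lt ((measurable_ip (uc u s)).comp (hini j)) measurable_const
  have hm' : ∀ (j : Fin n) (s : Fin 3),
      MeasurableSet {x : Fin n → ℂ | ip (uc u s) (x j) < hc h s} := by
    intro j s
    have := (measurable_ip (uc u s)).comp (measurable_pi_apply (X := fun _ : Fin n => ℂ) j)
    exact measurableSet_lt this measurable_const
  unfold Cnt
  rw [Set.ofPred_forall]
  refine MeasurableSet.iInter fun j => ?_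
  rw [Set.ofPred_forall]
  refine MeasurableSet.iInter fun s => ?_
  by_cases h0 : j = 0
  · simp [h0]
  · by_cases h' : s ∉ A j
    · simp only [ne_eq, h0, h', not_false_iff, true_imp_iff]
      exact (hm j s).inter (hm' (j + 1) s)
    · simp [h']

lemma norm_uc {u : Fin 3 → ℂ} (hu : ∀ s, ‖u s‖ = 1) (s : Fin 3) : ‖uc u s‖ = 1 := by
  unfold uc
  by_cases hs : s = 0
  · subst hs
    rw [Function.update_self, norm_neg, hu]
  · rw [Function.update_of_ne hs, hu]

/-- sums of equal bounds over labels -/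
lemma sum_le_card {n : ℕ} (F : (Fin n → Finset (Fin 3)) → ℝ≥0∞) {C t : ℝ} {p : ℕ} {m : ℝ}
    (ht : 0 < t)
    (hF : ∀ A, F A ≤ ENNReal.ofReal (C * (1 + t) ^ p / t * Real.exp (-(m / (4 * t))))) :
    ∑ A, F A ≤ ENNReal.ofReal ((Fintype.card (Fin n → Finset (Fin 3)) * |C|) * (1 + t) ^ p / t
      * Real.exp (-(m / (4 * t)))) := by
  refine (Finset.sum_le_sum fun A _ => hF A).trans ?_
  rw [Finset.sum_const, Finset.card_univ, nsmul_eq_mul]
  have h1 : ENNReal.ofReal (C * (1 + t) ^ p / t * Real.exp (-(m / (4 * t))))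
      ≤ ENNReal.ofReal (|C| * (1 + t) ^ p / t * Real.exp (-(m / (4 * t)))) := by
    refine ENNReal.ofReal_le_ofReal ?_
    have := le_abs_self C
    gcongr
  refine (mul_le_mul_right h1 _).trans (le_of_eq ?_)
  rw [← ENNReal.ofReal_natCast, ← ENNReal.ofReal_mul (by positivity)]
  congr 1
  ring

theorem ldm (hLAB : LabStatement) (hLDB : LdbStatement) : LdmStatement := by
  intro u h hu n _ S δ l R ε hS hδ hl hR hε
  classical
  constructor
  · intro hlen hloc
    obtain ⟨C, p, hC⟩ := hLDB n (fun _ => IsometryEquiv.refl ℂ) δ l R ε hδ hl hR hε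
    refine ⟨Fintype.card (Fin n → Finset (Fin 3)) * |C|, p, fun τ hτ hmesh => ?_⟩
    have ht : 0 < ∑ i, τ i := Finset.sum_pos (fun i _ => hτ i) ⟨0, Finset.mem_univ _⟩
    unfold Ms
    refine sum_le_card _ ht fun A => ?_
    have hT : MeasurableSet {x : Fin n → ℂ | S x A ∧ Cns u h x A} :=
      (hS A).inter (meas_Cns u h A)
    have h1 := hC τ (fun j => bl u h (A j)) {x : Fin n → ℂ | S x A ∧ Cns u h x A} hτ hmesh hT
      (fun j => measurable_bl u h (A j)) (fun j x y => le_bl hu (A j) x y)
      (fun x hx hsh => hlen x A hx.1 hx.2 hsh) (fun x hx => hloc x A hx.1 hx.2)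
    refine le_trans ?_ h1
    rw [← lintegral_indicator hT]
    refine lintegral_mono fun x => ?_
    by_cases hx : S x A
    · simp only [hx, if_true]
      by_cases hc : Cns u h x A
      · rw [Set.indicator_of_mem (by exact ⟨hx, hc⟩)]
        refine ENNReal.ofReal_le_ofReal ?_
        unfold wt
        refine Finset.prod_le_prod (fun j _ => ((hLAB u h hu).2 _ _ _ (hτ j)).1 (A j))
          (fun j _ => ?_)
        exact ((hLAB u h hu).2 _ _ _ (hτ j)).2.2.2.2.1 (A j)
      · have h0 : wt u h τ x A = 0 := by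
          by_contra hne
          apply hc
          intro j s hs
          have hk : kA u h (A j) (τ j) (x j) (x (j + 1)) ≠ 0 := by
            intro h0
            apply hne
            unfold wt
            exact Finset.prod_eq_zero (Finset.mem_univ j) h0
          exact ((hLAB u h hu).2 _ _ _ (hτ j)).2.2.2.2.2 (A j) s hs hk
        rw [h0]
        simp
    · simp [hx]
  · intro hn hlen hloc
    have huc := norm_uc hu
    set f : Fin n → ℂ ≃ᵢ ℂ := fun j => if j = 1 then rfE u h 0 (hu 0) else IsometryEquiv.refl ℂ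
      with hf
    obtain ⟨C, p, hC⟩ := hLDB n f δ l R ε hδ hl hR hε
    refine ⟨Fintype.card (Fin n → Finset (Fin 3)) * |C|, p, fun τ hτ hmesh => ?_⟩
    have ht : 0 < ∑ i, τ i := Finset.sum_pos (fun i _ => hτ i) ⟨0, Finset.mem_univ _⟩
    have h01 : (0 : Fin n) ≠ 1 := by
      intro h
      have h2 := congrArg Fin.val h
      have h3 : ((1 : Fin n) : ℕ) = 1 % n := Fin.val_one' n
      rw [h3, Nat.mod_eq_of_lt (by omega)] at h2
      simp at h2
    unfold Mtw
    refine sum_le_card _ ht fun A => ?_
    by_cases hA : A 0 = ∅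
    swap
    · simp [hA]
    have hT : MeasurableSet {x : Fin n → ℂ | S x A ∧ Cnt u h x A} :=
      (hS A).inter (meas_Cnt u h A)
    have hfx : ∀ (x : Fin n → ℂ) (j : Fin n), f j (x j) = ini u h x j := by
      intro x j
      simp only [hf, ini]
      split_ifs with hj
      · subst hj
        rfl
      · rfl
    have h1 := hC τ (fun j x y => bl (uc u) (hc h) (A j) (f j x) y)
      {x : Fin n → ℂ | S x A ∧ Cnt u h x A} hτ hmesh hT
      (fun j => by
        have h2 : Measurable (fun p : ℂ × ℂ => f j p.1) :=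
          (f j).continuous.measurable.comp measurable_fst
        show Measurable (fun p : ℂ × ℂ => bl (uc u) (hc h) (A j) (f j p.1) p.2)
        exact measurable_bl_comp _ _ _ h2 measurable_snd)
      (fun j x y => le_bl huc (A j) _ y)
      (fun x hx hsh => by
        simp only [hfx] at hsh ⊢
        exact hlen x A hx.1 hA hx.2 hsh)
      (fun x hx => by
        refine (hloc x A hx.1).trans ?_
        have h2 : 0 ≤ ∑ j, bl (uc u) (hc h) (A j) (f j (x j)) (x (j + 1)) :=
          Finset.sum_nonneg fun j _ => bl_nonneg _ _ _ _ _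
        nlinarith)
    refine le_trans ?_ h1
    rw [← lintegral_indicator hT]
    refine lintegral_mono fun x => ?_
    by_cases hx : S x A
    · simp only [hx, hA, and_self, if_true]
      by_cases hc' : Cnt u h x A
      · rw [Set.indicator_of_mem (by exact ⟨hx, hc'⟩)]
        refine ENNReal.ofReal_le_ofReal ?_
        rw [← Finset.mul_prod_erase Finset.univ _ (Finset.mem_univ (0 : Fin n))]
        unfold wtw
        refine mul_le_mul ?_ ?_ ?_ ?_
        · have h2 : f 0 (x 0) = x 0 := by
            rw [hfx]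
            simp [ini, h01]
          rw [h2, hA, bl_empty, zero_add]
          unfold G
          rfl
        · refine Finset.prod_le_prod (fun j _ => ((hLAB _ _ huc).2 _ _ _ (hτ j)).1 (A j))
            (fun j _ => ?_)
          have h3 := ((hLAB (uc u) (hc h) huc).2 (τ j) (ini u h x j) (x (j + 1)) (hτ j)).2.2.2.2.1
            (A j)
          rw [hfx]
          exact h3
        · exact Finset.prod_nonneg fun j _ => ((hLAB _ _ huc).2 _ _ _ (hτ j)).1 (A j)
        · have := hτ 0
          positivity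
      · have h0 : wtw u h τ x A = 0 := by
          by_contra hne
          apply hc'
          intro j s hj hs
          have hk : kA (uc u) (hc h) (A j) (τ j) (ini u h x j) (x (j + 1)) ≠ 0 := by
            intro h0
            apply hne
            unfold wtw
            exact mul_eq_zero_of_right _ (Finset.prod_eq_zero
              (Finset.mem_erase.2 ⟨hj, Finset.mem_univ j⟩) h0)
          exact ((hLAB _ _ huc).2 _ _ _ (hτ j)).2.2.2.2.2 (A j) s hs hk
        rw [h0]
        simp
    · simp [hx]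

end Pool.Agent.H60K
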