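import Pool.Agent.Helper60_AEU.Gb3

/-!
AEU (MP_5b0138_an), Part III: the germ of type D (helper60).
-/

namespace Pool.Agent.H60K

open MeasureTheory Complex Filter Topology ProbabilityTheory Pool.Agent.H16Iso Pool.Agent.H62T
  Pool.Agent.H16F Pool.Agent.H38KL
open scoped ENNReal NNReal

lemma TB_bound {d α η : ℝ} (hd : 0 < d) (hα : Real.pi / 3 < α) (hα' : α < Real.pi / 2) :
    ∃ C : ℝ, 0 ≤ C ∧ ∀ᶠ κ in atTop, |AEU.H12.TB d (Real.pi / α) η κ| ≤ C * Real.exp (-(2 * d * κ)) := by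
  have hπ := Real.pi_pos
  have hα0 : 0 < α := by linarith
  have hb1 : Real.cos (Real.pi / α * Real.pi) ≠ 1 := by
    intro h
    rw [Real.cos_eq_one_iff] at h
    obtain ⟨k, hk⟩ := h
    have h1 : (k : ℝ) * 2 * α = Real.pi := by
      have : (k : ℝ) * 2 * α * Real.pi = Real.pi * Real.pi := by
        calc (k : ℝ) * 2 * α * Real.pi = (k * (2 * Real.pi)) * α := by ring
          _ = Real.pi / α * Real.pi * α := by rw [hk]
          _ = Real.pi * Real.pi := by field_simp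
      exact mul_right_cancel₀ hπ.ne' this
    have h2 : (1 : ℝ) < k := by
      by_contra hc
      push Not at hc
      nlinarith only [hα', h1, hα, hc]
    have h3 : (k : ℝ) < 2 := by
      by_contra hc
      push Not at hc
      nlinarith only [h1, hα, hα', hc]
    have h4 : (1 : ℤ) < k := by exact_mod_cast h2
    have h5 : k < (2 : ℤ) := by exact_mod_cast h3
    omega
  have h := AEU.H12.lead_TB (d := d) (b := Real.pi / α) η hd hb1
  unfold AEU.H12.Lead at h
  set c := 1 / Real.pi * ((AEU.H12.Ceta (Real.pi / α) η - AEU.H12.KKf (Real.pi / α) 0) * AEU.H12.II 0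
    * (2 * d) ^ (-(1 / 2 : ℝ))) with hc
  have h1 : ∀ᶠ κ in atTop, |AEU.H12.TB d (Real.pi / α) η κ
      * (Real.exp (2 * d * κ) * κ ^ (1 / 2 : ℝ))| < |c| + 1 :=
    h.abs.eventually_lt_const (by linarith)
  refine ⟨|c| + 1, by positivity, ?_⟩
  filter_upwards [h1, eventually_ge_atTop 1] with κ hκ hκ1
  have h2 : (1 : ℝ) ≤ κ ^ (1 / 2 : ℝ) := Real.one_le_rpow hκ1 (by norm_num)
  rw [abs_mul, abs_of_pos (by positivity : 0 < Real.exp (2 * d * κ) * κ ^ (1 / 2 : ℝ))] at hκ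
  have h3 : |AEU.H12.TB d (Real.pi / α) η κ| * Real.exp (2 * d * κ) ≤ |c| + 1 := by
    refine le_trans ?_ hκ.le
    have h4 : Real.exp (2 * d * κ) ≤ Real.exp (2 * d * κ) * κ ^ (1 / 2 : ℝ) :=
      le_mul_of_one_le_right (Real.exp_pos _).le h2
    gcongr
  rw [Real.exp_neg, ← div_eq_mul_inv, le_div_iff₀ (Real.exp_pos _)]
  exact h3

lemma polar {z w : ℂ} (hz : ‖z‖ = 1) : w = z * ⟨ip z w, dt z w⟩ := by
  have h := nz hz
  apply Complex.ext
  · simp only [mul_re]
    unfold ip dt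
    linear_combination (-w.re) * h
  · simp only [mul_im]
    unfold ip dt
    linear_combination (-w.im) * h

lemma ip_dt {z w : ℂ} (hz : ‖z‖ = 1) (hw : ‖w‖ = 1) : ip z w ^ 2 + dt z w ^ 2 = 1 := by
  have h := nz hz
  have h' := nz hw
  unfold ip dt
  have : (z.re * w.re + z.im * w.im) ^ 2 + (z.re * w.im - z.im * w.re) ^ 2
      = (z.re ^ 2 + z.im ^ 2) * (w.re ^ 2 + w.im ^ 2) := by ring
  rw [this, h, h', one_mul]

lemma germD1 (hB' : AEU.GermB'Stmt) {u1 u2 u3 : ℂ} {D0 L : ℝ} (h1 : ‖u1‖ = 1) (h2 : ‖u2‖ = 1)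
    (h3 : ‖u3‖ = 1) (d12 : 0 < dt u1 u2) (d23 : 0 < dt u2 u3)
    (i12 : ip u1 u2 < 0) (i23 : ip u2 u3 < 0) (i31 : ip u3 u1 < 0)
    (m1 : dt u2 u3 < dt u1 u2) (m2 : dt u3 u1 < dt u1 u2) (hD : 0 < D0)
    (hL : L * dt u1 u2 < 2 * D0) :
    AEU.Small L fun κ => AEU.Lap (AEU.EZ u1 u2 u3 D0) κ - AEU.germD (2 * D0) κ := by
  have hπ := Real.pi_pos
  -- the angle at the vertex
  set α := Real.arccos (-ip u1 u2) with hαd
  have hi12 : ip u1 u2 ^ 2 + dt u1 u2 ^ 2 = 1 := ip_dt h1 h2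
  have hi23 : ip u2 u3 ^ 2 + dt u2 u3 ^ 2 = 1 := ip_dt h2 h3
  have hb12 : -1 ≤ ip u1 u2 := by nlinarith only [hi12]
  have hb23 : -1 ≤ ip u2 u3 := by nlinarith only [hi23]
  have hcos : Real.cos α = -ip u1 u2 := Real.cos_arccos (by linarith) (by linarith)
  have hsin : Real.sin α = dt u1 u2 := by
    rw [hαd, Real.sin_arccos, Real.sqrt_eq_iff_mul_self_eq_of_pos d12]
    linarith only [hi12]
  have hα' : α < Real.pi / 2 := by
    rw [hαd, Real.arccos_lt_pi_div_two]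
    linarith
  have hα0 : 0 < α := by
    rw [hαd, Real.arccos_pos]
    nlinarith only [hi12, m1, d23]
  -- the other angle
  set η := Real.arcsin (-ip u2 u3) with hηd
  have hsη : Real.sin η = -ip u2 u3 := Real.sin_arcsin (by linarith) (by linarith)
  have hcη : Real.cos η = dt u2 u3 := by
    rw [hηd, Real.cos_arcsin, Real.sqrt_eq_iff_mul_self_eq_of_pos d23]
    linarith only [hi23]
  have hη0 : 0 < η := by
    rw [hηd, Real.arcsin_pos]
    linarith
  have hη' : η < Real.pi / 2 := by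
    rw [hηd, Real.arcsin_lt_pi_div_two]
    nlinarith only [hi23, d23]
  have e1 : n1 u2 α = u1 := by
    rw [n1_eq, polar (w := u1) h2]
    congr 1
    apply Complex.ext
    · rw [neg_re, exp_ofReal_mul_I_re, hcos]
      simp only
      unfold ip
      ring
    · rw [neg_im, exp_ofReal_mul_I_im, hsin]
      simp only
      unfold dt
      ring
  have e3 : n3 u2 η = u3 := by
    rw [n3_eq, polar (w := u3) h2]
    congr 1
    apply Complex.ext
    · simp only [mul_re, I_re, I_im, zero_mul, one_mul, zero_sub]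
      rw [exp_ofReal_mul_I_im, hsη]
      ring
    · simp only [mul_im, I_re, I_im, zero_mul, one_mul, zero_add]
      rw [exp_ofReal_mul_I_re, hcη]
  have hαη : 0 < α - η := by
    have k1 : ip (n3 u2 η) (n1 u2 α) = -Real.sin (α - η) := by
      rw [n1_eq, n3_eq, Real.sin_sub]
      have h := nz h2
      unfold ip
      simp only [mul_re, mul_im, neg_re, neg_im, exp_ofReal_mul_I_re, exp_ofReal_mul_I_im, I_re,
        I_im]
      linear_combination (Real.sin η * Real.cos α - Real.cos η * Real.sin α) * h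
    rw [e1, e3] at k1
    rw [k1] at i31
    by_contra hc
    push Not at hc
    have : Real.sin (α - η) ≤ 0 := Real.sin_nonpos_of_nonpos_of_neg_pi_le hc (by linarith)
    linarith
  have c1 : Real.pi / 2 - η < α := by
    have k1 : Real.sin (Real.pi / 2 - η) < Real.sin α := by
      rw [Real.sin_pi_div_two_sub, hcη, hsin]
      exact m1
    exact (Real.strictMonoOn_sin.lt_iff_lt ⟨by linarith, by linarith⟩
      ⟨by linarith, by linarith⟩).1 k1
  have c2 : Real.pi / 2 - (α - η) < α := by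
    have k2 : dt u3 u1 = Real.cos (α - η) := by
      rw [← dt31 h2, e1, e3]
    have k1 : Real.sin (Real.pi / 2 - (α - η)) < Real.sin α := by
      rw [Real.sin_pi_div_two_sub, hsin, ← k2]
      exact m2
    exact (Real.strictMonoOn_sin.lt_iff_lt ⟨by linarith, by linarith⟩
      ⟨by linarith, by linarith⟩).1 k1
  set d := D0 / dt u1 u2 with hd
  have hd0 : 0 < d := by positivity
  obtain ⟨C1, δ, hδ, H1⟩ := hB' u2 α η d h2 hα' c1 c2 hd0
  obtain ⟨C2, hC2, H2⟩ := TB_bound (η := η) hd0 (by linarith : Real.pi / 3 < α) hα'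
  refine ⟨|C1| + C2, 2 * d - L, ?_, ?_⟩
  · rw [hd, sub_pos, mul_div_assoc', lt_div_iff₀ d12]
    exact hL
  filter_upwards [H1, H2, eventually_gt_atTop 0] with κ k1 k2 hκ
  have hD0 : Real.sin α * d = D0 := by
    rw [hsin, hd]
    field_simp
  have k3 : AEU.Lap (AEU.EZ (n1 u2 α) u2 (n3 u2 η) (Real.sin α * d)) κ
      = AEU.Lap (AEU.EZ u1 u2 u3 D0) κ := by
    rw [e1, e3, hD0]
  have k4 : AEU.germD (2 * d * Real.sin α) κ = AEU.germD (2 * D0) κ := by
    congr 1
    linarith only [hD0]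
  have k5 : |AEU.Lap (AEU.EZ (n1 u2 α) u2 (n3 u2 η) (Real.sin α * d)) κ
      - (AEU.germB d α η κ + AEU.germD (2 * d * Real.sin α) κ)|
      ≤ C1 * Real.exp (-((2 * d + δ) * κ)) := k1
  rw [k3, k4] at k5
  have k6 : AEU.Lap (AEU.EZ u1 u2 u3 D0) κ - AEU.germD (2 * D0) κ
      = (AEU.Lap (AEU.EZ u1 u2 u3 D0) κ - (AEU.germB d α η κ + AEU.germD (2 * D0) κ))
        + AEU.germB d α η κ := by ring
  rw [k6]
  refine (abs_add_le _ _).trans ?_
  have k7 : C1 * Real.exp (-((2 * d + δ) * κ)) ≤ |C1| * Real.exp (-(2 * d * κ)) := by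
    calc C1 * Real.exp (-((2 * d + δ) * κ)) ≤ |C1| * Real.exp (-((2 * d + δ) * κ)) := by
          gcongr
          exact le_abs_self _
      _ ≤ |C1| * Real.exp (-(2 * d * κ)) := by
          have : 2 * d ≤ 2 * d + δ := by linarith only [hδ]
          gcongr
  have k8 : |AEU.germB d α η κ| ≤ C2 * Real.exp (-(2 * d * κ)) := k2
  refine (add_le_add (k5.trans k7) k8).trans (le_of_eq ?_)
  have k9 : (L + (2 * d - L)) * κ = 2 * d * κ := by ring
  rw [k9]
  ring

lemma EZ_cyc (u1 u2 u3 : ℂ) (D0 : ℝ) : AEU.EZ u2 u3 u1 D0 = AEU.EZ u1 u2 u3 D0 := by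
  have h1 : AEU.pr u2 u3 u1 = AEU.pr u1 u2 u3 := by
    unfold AEU.pr
    ring
  have h2 : ∀ k : ℂ → ℝ, AEU.DD u2 u3 u1 k = AEU.DD u1 u2 u3 k := by
    intro k
    unfold AEU.DD
    ring
  unfold AEU.EZ AEU.ZZ
  simp only [h1, h2]

theorem germD (hB' : AEU.GermB'Stmt) : AEU.GermDStmt := by
  intro u1 u2 u3 D0 L h1 h2 h3 d12 d23 d31 i12 i23 i31 n1 n2 n3 hD L1 L2 L3
  by_cases a : dt u2 u3 < dt u1 u2
  · by_cases b : dt u3 u1 < dt u1 u2
    · exact germD1 hB' h1 h2 h3 d12 d23 i12 i23 i31 a b hD L1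
    · have b' : dt u1 u2 < dt u3 u1 := lt_of_le_of_ne (not_lt.1 b) n3.symm
      have := germD1 hB' h3 h1 h2 d31 d12 i31 i12 i23 b' (a.trans b') hD L3
      rw [← EZ_cyc u3 u1 u2 D0] at this
      exact this
  · have a' : dt u1 u2 < dt u2 u3 := lt_of_le_of_ne (not_lt.1 a) n1
    by_cases b : dt u3 u1 < dt u2 u3
    · have := germD1 hB' h2 h3 h1 d23 d31 i23 i31 i12 b a' hD L2
      rw [EZ_cyc u1 u2 u3 D0] at this
      exact this
    · have b' : dt u2 u3 < dt u3 u1 := lt_of_le_of_ne (not_lt.1 b) n2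
      have := germD1 hB' h3 h1 h2 d31 d12 i31 i12 i23 (a'.trans b') b' hD L3
      rw [← EZ_cyc u3 u1 u2 D0] at this
      exact this

end Pool.Agent.H60K
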