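import Pool.Agent.Helper60_AEU.Bm
import Pool.Agent.Helper60_AEU.Gb4
import Pool.Agent.Helper60_AEU.Ldm
import Pool.Agent.Helper44_BLK.Lab
import Pool.Agent.Helper44_BLK.Tel
import Pool.Agent.Helper44_BLK.Blv
import Pool.Agent.Helper44_BLK.Fin
import Pool.Agent.Helper53_AEU.Blc
import Pool.Agent.Helper53_AEU.Inv
import Pool.Agent.Helper15_AEU3.Hpk
import Pool.Agent.Helper51_KT.Kts
import Pool.Agent.Helper69_AEU3.Ges
import Pool.Agent.Helper69_AEU3.Gen
import Pool.Agent.Helper69_AEU3.Loc
import Pool.Agent.Helper29_AEU.Lps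
import Pool.Agent.Helper25_AEU3.Vex
import Pool.Agent.Helper20_AEU3.RefMain
import Pool.Agent.Helper7_AEU.Ldb
import Pool.Agent.Helper12_AEU.Fln
import Pool.Agent.Helper12_AEU.Fls
import Pool.Agent.Helper25_AEU3.Img
import Pool.Agent.Helper15_AEU3.Kes
import Pool.Agent.Helper51_KT.Ktb
import Pool.Agent.Helper38_AEU3.Ktp
import Pool.Agent.Helper7_AEU.Ktl
import Pool.Agent.Helper44_BLK.Small
import Pool.Agent.Helper38_AEU3.KerAll

/-!
AEU (MP_5b0138_an), Part III: the germs of types B, B', D 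
(helper60).
-/

namespace Pool.Agent.H60K

theorem lab_all : LabStatement := H44.lab H15.hpk

theorem blc_all : BlcStatement := H53B.blc H44.blv H44.tel lab_all

theorem fin_all : FinStatement := H44.fin H51.kts

theorem fls_all : FlsStatement :=
  AEU.H12.fls (H15.kes H38.kerAll H51.ktb H38.ktp AEU.H7.ktl H44.uni) H51.kts AEU.H12F.H25.img

/-- the germs -/
theorem germs : AEU.GermBStmt ∧ AEU.GermB'Stmt ∧ AEU.GermDStmt := by
  have hldm := ldm lab_all AEU.H7.ldb
  have hs : SpanStatement := span (bms lab_all H44.blv blc_all H20.ref hldm H44.hye H29.lps H69.ges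
    H69.loc) fls_all
  have hn : NspStatement := nsp (bmn lab_all H44.blv blc_all H20.ref hldm H44.hye H29.lps H69.gen
    H69.loc) (AEU.H12.fln H38.kerAll)
  have hb := germB hs hn fin_all H53.inv H25.vex
  have hb' := germB' hs fin_all H53.inv H25.vex
  exact ⟨hb, hb', germD hb'⟩

end Pool.Agent.H60K
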