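import Pool.Agent.Helper60_AEU.Stmt

/-!
AEU (MP_5b0138_an), Part III: assembly of the block modules, common part of the spanning and of the
nonspanning case (helper60).
-/

namespace Pool.Agent.H60K

open MeasureTheory Complex Filter Topology ProbabilityTheory Pool.Agent.H16Iso Pool.Agent.H62T
  Pool.Agent.H16F Pool.Agent.H38KL
open scoped ENNReal NNReal

lemma norm_us (η1 η2 : ℝ) (s : Fin 3) : ‖us η1 η2 s‖ = 1 := by
  unfold us
  have h1 : ‖exp (η1 * I)‖ = 1 := norm_exp_ofReal_mul_I η1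
  have h2 : ‖exp (-(η2 * I))‖ = 1 := by
    have : -((η2 : ℂ) * I) = ((-η2 : ℝ) : ℂ) * I := by push_cast; ring
    rw [this]
    exact norm_exp_ofReal_mul_I _
  split_ifs
  · simp
  · rw [norm_mul, norm_I, h1, one_mul]
  · rw [norm_neg, norm_mul, norm_I, h2, one_mul]

/-- the geometric input of the block argument -/
structure Geo (η1 η2 d : ℝ) (O E : Finset (Fin 3)) (l δ ζ1 ζ2 R : ℝ) : Prop where
  hO0 : 0 ∉ O
  hE0 : 0 ∉ E
  hOn : O.Nonempty
  hOE : Disjoint O E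
  hδ : 0 < δ
  hl : 0 < l
  hR : 0 < R
  loc : ∀ (n : ℕ) [NeZero n] (x : Fin n → ℂ) (A : Fin n → Finset (Fin 3)),
    Vis (insert 0 O) E A → Cns (us η1 η2) (hh d) x A →
      ‖x 0‖ ≤ R * (1 + Ln (us η1 η2) (hh d) x A) ∧ 1 / R ≤ Ln (us η1 η2) (hh d) x A
  g1 : ∀ (n : ℕ) [NeZero n] (x : Fin n → ℂ) (A : Fin n → Finset (Fin 3)), 2 ≤ n →
    Vis (insert 0 O) E A → Cns (us η1 η2) (hh d) x A → Sho (us η1 η2) (hh d) δ x A →
      Ln (us η1 η2) (hh d) x A < l →
      Adp O (d - 2 * δ) x A ∧ NoAlt O A ∧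
        (ch (d - 2 * δ) (x 0) ≠ ch (d - 2 * δ) (x 1) →
          x 0 ∈ Rw (d - 2 * δ) δ ζ1 ζ2 ∧ x 1 ∈ Rw (d - 2 * δ) δ ζ1 ζ2)
  g2 : ∀ (n : ℕ) [NeZero n] (x : Fin n → ℂ) (A : Fin n → Finset (Fin 3)), 2 ≤ n →
    Bad2 O E A 0 → Cns (us η1 η2) (hh d) x A → Sho (us η1 η2) (hh d) δ x A →
      x 0 ∈ Rw (d - 2 * δ) δ ζ1 ζ2 → x 1 ∈ Rw (d - 2 * δ) δ ζ1 ζ2 →
      l ≤ Ln (us η1 η2) (hh d) x A
  g3 : ∀ (n : ℕ) [NeZero n] (x : Fin n → ℂ) (A : Fin n → Finset (Fin 3)), 2 ≤ n →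
    A 0 = ∅ → Bad2 O E A 1 ∨ Bad3 O E A → Cnt (us η1 η2) (hh d) x A →
      Sht (us η1 η2) (hh d) δ x A →
      x 0 ∈ Rw (d - 2 * δ) δ ζ1 ζ2 → x 1 ∈ Rw (d - 2 * δ) δ ζ1 ζ2 →
      l ≤ Lt (us η1 η2) (hh d) x A

variable {η1 η2 d : ℝ} {O E : Finset (Fin 3)} {l δ ζ1 ζ2 R : ℝ}

/-- the bound used in this file -/
noncomputable def Q (C : ℝ) (p : ℕ) (m t : ℝ) : ℝ :=
  C * (1 + t) ^ p / t * Real.exp (-(m / (4 * t)))

lemma Q_le {C C' : ℝ} {p p' : ℕ} {m t : ℝ} (ht : 0 < t) (hC : C ≤ C') (hC' : 0 ≤ C')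
    (hp : p ≤ p') : Q C p m t ≤ Q C' p' m t := by
  unfold Q
  have h1 : (1 : ℝ) ≤ 1 + t := by linarith
  have h2 : (1 + t) ^ p ≤ (1 + t) ^ p' := pow_le_pow_right₀ h1 hp
  have h3 : (0 : ℝ) ≤ (1 + t) ^ p := by positivity
  gcongr

lemma Q_nonneg {C : ℝ} {p : ℕ} {m t : ℝ} (ht : 0 < t) (hC : 0 ≤ C) : 0 ≤ Q C p m t := by
  unfold Q
  positivity

lemma Q_add {C C' : ℝ} {p : ℕ} {m t : ℝ} : Q C p m t + Q C' p m t = Q (C + C') p m t := by
  unfold Q
  ring

lemma Q_mul {C a : ℝ} {p : ℕ} {m t : ℝ} : a * Q C p m t = Q (a * C) p m t := by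
  unfold Q
  ring

lemma sum_rot {n : ℕ} [NeZero n] (τ : Fin n → ℝ) (j : Fin n) : ∑ i, τ (i + j) = ∑ i, τ i :=
  Equiv.sum_comp (Equiv.addRight j) τ

lemma norm_Rw {ξ1 δ ζ1 ζ2 : ℝ} {x : ℂ} (hx : x ∈ Rw ξ1 δ ζ1 ζ2) :
    ‖x‖ ≤ |ξ1| + δ + |ζ1| + |ζ2| := by
  obtain ⟨h1, h2, h3⟩ := hx
  have h4 := Complex.norm_le_abs_re_add_abs_im x
  have h5 : |x.re| ≤ |ξ1| + δ := by
    have := abs_sub_abs_le_abs_sub x.re ξ1
    linarith
  have h6 : |x.im| ≤ |ζ1| + |ζ2| := by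
    rw [abs_le]
    constructor
    · have := le_abs_self ζ2
      have := abs_nonneg ζ1
      linarith
    · have := le_abs_self ζ1
      have := abs_nonneg ζ2
      linarith
  linarith

lemma measurable_ch (ξ1 : ℝ) : Measurable (ch ξ1) := by
  unfold ch
  exact Measurable.ite (measurableSet_le measurable_const Complex.measurable_re)
    measurable_const measurable_const

lemma measurableSet_Rw (ξ1 δ ζ1 ζ2 : ℝ) : MeasurableSet (Rw ξ1 δ ζ1 ζ2) := by
  unfold Rw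
  have h1 : MeasurableSet {x : ℂ | |x.re - ξ1| < δ} :=
    measurableSet_lt (by fun_prop) measurable_const
  have h2 : MeasurableSet {x : ℂ | -ζ2 < x.im} := measurableSet_lt measurable_const (by fun_prop)
  have h3 : MeasurableSet {x : ℂ | x.im < ζ1} := measurableSet_lt (by fun_prop) measurable_const
  exact h1.inter (h2.inter h3)

lemma meas_const_and {n : ℕ} {p : Prop} {T : Set (Fin n → ℂ)} (hT : MeasurableSet T) :
    MeasurableSet {x : Fin n → ℂ | p ∧ x ∈ T} := by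
  by_cases hp : p
  · simpa [hp] using hT
  · simp [hp]

lemma meas_Adp {n : ℕ} [NeZero n] (O : Finset (Fin 3)) (ξ1 : ℝ) (A : Fin n → Finset (Fin 3)) :
    MeasurableSet {x : Fin n → ℂ | Adp O ξ1 x A} := by
  have hm : ∀ j : Fin n, MeasurableSet {x : Fin n → ℂ | ξ1 ≤ (x j).re} := fun j =>
    measurableSet_le measurable_const (by fun_prop)
  have hm' : ∀ j : Fin n, MeasurableSet {x : Fin n → ℂ | (x j).re < ξ1} := fun j =>
    measurableSet_lt (by fun_prop) measurable_const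
  have h1 : MeasurableSet {x : Fin n → ℂ | ∀ j, 0 ∈ A j → ξ1 ≤ (x j).re ∧ ξ1 ≤ (x (j + 1)).re} := by
    rw [Set.ofPred_forall]
    refine MeasurableSet.iInter fun j => ?_
    by_cases h : (0 : Fin 3) ∈ A j
    · simp only [h, true_imp_iff]
      exact (hm j).inter (hm (j + 1))
    · simp [h]
  have h2 : MeasurableSet {x : Fin n → ℂ | ∀ j, ∀ s ∈ O, s ∈ A j →
      (x j).re < ξ1 ∧ (x (j + 1)).re < ξ1} := by
    rw [Set.ofPred_forall]
    refine MeasurableSet.iInter fun j => ?_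
    rw [Set.ofPred_forall]
    refine MeasurableSet.iInter fun s => ?_
    by_cases h : s ∈ O
    · by_cases h' : s ∈ A j
      · simp only [h, h', true_imp_iff]
        exact (hm' j).inter (hm' (j + 1))
      · simp [h']
    · simp [h]
  exact h1.inter h2

lemma meas_ch_ne {n : ℕ} [NeZero n] (ξ1 : ℝ) :
    MeasurableSet {x : Fin n → ℂ | ch ξ1 (x 0) ≠ ch ξ1 (x 1)} := by
  have h : MeasurableSet {x : Fin n → ℂ | ch ξ1 (x 0) = ch ξ1 (x 1)} :=
    measurableSet_eq_fun ((measurable_ch ξ1).comp (measurable_pi_apply 0))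
      ((measurable_ch ξ1).comp (measurable_pi_apply 1))
  exact h.compl

lemma meas_Rw2 {n : ℕ} [NeZero n] (ξ1 δ ζ1 ζ2 : ℝ) :
    MeasurableSet {x : Fin n → ℂ | x 0 ∈ Rw ξ1 δ ζ1 ζ2 ∧ x 1 ∈ Rw ξ1 δ ζ1 ζ2} :=
by
  have h0 : MeasurableSet ((fun x : Fin n → ℂ => x 0) ⁻¹' Rw ξ1 δ ζ1 ζ2) :=
    (measurable_pi_apply 0) (measurableSet_Rw ξ1 δ ζ1 ζ2)
  have h1 : MeasurableSet ((fun x : Fin n → ℂ => x 1) ⁻¹' Rw ξ1 δ ζ1 ζ2) :=
    (measurable_pi_apply 1) (measurableSet_Rw ξ1 δ ζ1 ζ2)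
  exact h0.inter h1

/-- Claim A -/
lemma claimA (hBLC : BlcStatement) (hREF : RefStatement) (hLDM : LdmStatement)
    (g : Geo η1 η2 d O E l δ ζ1 ζ2 R) {ε : ℝ} (hε : 0 < ε) (n : ℕ) [NeZero n] (hn : 2 ≤ n) :
    ∃ (C : ℝ) (p : ℕ), 0 ≤ C ∧ ∀ τ : Fin n → ℝ, (∀ j, 0 < τ j) →
      (∀ j, τ j * l ^ 2 ≤ δ ^ 2 * ∑ i, τ i) →
      |VM (us η1 η2) (hh d) (insert 0 O) E (∑ j, τ j)
        - ∑ j, TT3 η1 η2 d O E (d - 2 * δ) δ ζ1 ζ2 (τ j) (∑ i, τ i)|
        ≤ Q C p ((1 - ε) * l ^ 2) (∑ i, τ i) := by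
  have hu := norm_us η1 η2
  have hδ := g.hδ
  have hl := g.hl
  have hR := g.hR
  have hVis : ∀ A : Fin n → Finset (Fin 3), Fj O A 0 → (∀ j, Disjoint (A j) E) →
      Vis (insert 0 O) E A := by
    intro A hF hD
    obtain ⟨k, hk0, hkn, h0, hs⟩ := hF
    refine ⟨fun s hs' => ?_, hD⟩
    rw [Finset.mem_insert] at hs'
    rcases hs' with rfl | hs'
    · exact ⟨_, h0⟩
    · obtain ⟨l, -, -, hl⟩ := hs s hs'
      exact ⟨_, hl⟩
  -- the mass of all loops
  obtain ⟨-, hV0⟩ : True ∧ ∃ (C : ℝ) (p : ℕ), ∀ τ : Fin n → ℝ, (∀ j, 0 < τ j) →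
      (∀ j, τ j * (min l (1 / R)) ^ 2 ≤ δ ^ 2 * ∑ i, τ i) →
      Ms (us η1 η2) (hh d) τ (fun _ A => Vis (insert 0 O) E A)
        ≤ ENNReal.ofReal (C * (1 + ∑ i, τ i) ^ p / (∑ i, τ i)
          * Real.exp (-((1 - ε) * (min l (1 / R)) ^ 2 / (4 * ∑ i, τ i)))) := by
    refine ⟨trivial, (hLDM (us η1 η2) (hh d) hu n (fun _ A => Vis (insert 0 O) E A) δ
      (min l (1 / R)) R ε (fun A => MeasurableSet.const _) hδ (by positivity) hR hε).1 ?_ ?_⟩
    · intro x A hS hC _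
      exact (min_le_right _ _).trans (g.loc n x A hS hC).2
    · intro x A hS hC
      exact (g.loc n x A hS hC).1
  -- the bad set of BLC
  obtain ⟨C1, p1, h1⟩ := (hLDM (us η1 η2) (hh d) hu n (fun x A => Vis (insert 0 O) E A ∧
      ¬ (Adp O (d - 2 * δ) x A ∧ NoAlt O A)) δ l R ε (fun A => by
        have := meas_const_and (n := n) (p := NoAlt O A) (meas_Adp O (d - 2 * δ) A)
        have h2 : MeasurableSet {x : Fin n → ℂ | ¬ (Adp O (d - 2 * δ) x A ∧ NoAlt O A)} := by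
          have h3 := this.compl
          refine h3.congr ?_
          ext x
          simp only [Set.mem_compl_iff, Set.mem_ofPred_eq]
          tauto
        exact meas_const_and h2) hδ hl hR hε).1
    (fun x A hS hC hSh => by
      by_contra hcon
      push Not at hcon
      obtain ⟨ha, hb, -⟩ := g.g1 n x A hn hS.1 hC hSh hcon
      exact hS.2 ⟨ha, hb⟩)
    (fun x A hS hC => (g.loc n x A hS.1 hC).1)
  -- the first bad set of REF
  obtain ⟨C2, p2, h2⟩ := (hLDM (us η1 η2) (hh d) hu n (fun x A => Fj O A 0 ∧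
      (∀ j, Disjoint (A j) E) ∧ ch (d - 2 * δ) (x 0) ≠ ch (d - 2 * δ) (x 1) ∧
      ¬ (x 0 ∈ Rw (d - 2 * δ) δ ζ1 ζ2 ∧ x 1 ∈ Rw (d - 2 * δ) δ ζ1 ζ2)) δ l R ε (fun A => by
        have h3 := (meas_ch_ne (n := n) (d - 2 * δ)).inter
          (meas_Rw2 (n := n) (d - 2 * δ) δ ζ1 ζ2).compl
        have h4 := meas_const_and (p := Fj O A 0 ∧ ∀ j, Disjoint (A j) E) h3
        refine h4.congr ?_
        ext x
        simp only [Set.mem_inter_iff, Set.mem_compl_iff, Set.mem_ofPred_eq]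
        tauto) hδ hl hR hε).1
    (fun x A hS hC hSh => by
      by_contra hcon
      push Not at hcon
      obtain ⟨-, -, hc⟩ := g.g1 n x A hn (hVis A hS.1 hS.2.1) hC hSh hcon
      exact hS.2.2.2 (hc hS.2.2.1))
    (fun x A hS hC => (g.loc n x A (hVis A hS.1 hS.2.1) hC).1)
  -- a radius for the window
  set R' : ℝ := |d - 2 * δ| + δ + |ζ1| + |ζ2| with hR'
  have hR'0 : 0 < R' := by positivity
  -- the second bad set of REF
  obtain ⟨C3, p3, h3⟩ := (hLDM (us η1 η2) (hh d) hu n (fun x A => Bad2 O E A 0 ∧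
      ch (d - 2 * δ) (x 0) ≠ ch (d - 2 * δ) (x 1) ∧
      x 0 ∈ Rw (d - 2 * δ) δ ζ1 ζ2 ∧ x 1 ∈ Rw (d - 2 * δ) δ ζ1 ζ2) δ l R' ε (fun A => by
        have h3 := (meas_ch_ne (n := n) (d - 2 * δ)).inter
          (meas_Rw2 (n := n) (d - 2 * δ) δ ζ1 ζ2)
        exact meas_const_and h3) hδ hl hR'0 hε).1
    (fun x A hS hC hSh => g.g2 n x A hn hS.1 hC hSh hS.2.2.1 hS.2.2.2)
    (fun x A hS hC => by
      have h4 := norm_Rw hS.2.2.1
      have h5 : 0 ≤ Ln (us η1 η2) (hh d) x A := by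
        refine Finset.sum_nonneg fun j _ => ?_
        unfold bl
        refine le_trans ?_ (Finset.le_sup' _ (Finset.mem_univ (0 : Fin 3)))
        unfold dd
        split_ifs <;> exact norm_nonneg _
      nlinarith)
  -- the third bad set of REF
  obtain ⟨C4, p4, h4⟩ := (hLDM (us η1 η2) (hh d) hu n (fun x A => (Bad2 O E A 1 ∨ Bad3 O E A) ∧
      ch (d - 2 * δ) (x 0) ≠ ch (d - 2 * δ) (x 1) ∧
      x 0 ∈ Rw (d - 2 * δ) δ ζ1 ζ2 ∧ x 1 ∈ Rw (d - 2 * δ) δ ζ1 ζ2) δ l R' ε (fun A => by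
        have h3 := (meas_ch_ne (n := n) (d - 2 * δ)).inter
          (meas_Rw2 (n := n) (d - 2 * δ) δ ζ1 ζ2)
        exact meas_const_and h3) hδ hl hR'0 hε).2 hn
    (fun x A hS hA hC hSh => g.g3 n x A hn hA hS.1 hC hSh hS.2.2.1 hS.2.2.2)
    (fun x A hS => norm_Rw hS.2.2.1)
  -- constants
  set p : ℕ := p1 + p2 + p3 + p4 with hp
  set D : ℝ := |C1| + |C2| + |C3| + |C4| with hD
  have hD0 : 0 ≤ D := by positivity
  refine ⟨(n + 1) * D + n * (D + D + D), p, by positivity, fun τ hτ hmesh => ?_⟩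
  set t : ℝ := ∑ i, τ i with ht
  have ht0 : 0 < t := Finset.sum_pos (fun i _ => hτ i) ⟨0, Finset.mem_univ _⟩
  set m : ℝ := (1 - ε) * l ^ 2 with hm
  have hQ : ∀ (C : ℝ) (q : ℕ), C ≤ D → q ≤ p →
      C * (1 + t) ^ q / t * Real.exp (-((1 - ε) * l ^ 2 / (4 * t))) ≤ Q D p m t :=
    fun C q hC hq => Q_le (m := m) ht0 hC hD0 hq
  have hQ0 : 0 ≤ Q D p m t := Q_nonneg ht0 hD0
  have hC1 : C1 ≤ D := by
    have := le_abs_self C1
    have := abs_nonneg C2
    have := abs_nonneg C3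
    have := abs_nonneg C4
    linarith
  have hC2 : C2 ≤ D := by
    have := le_abs_self C2
    have := abs_nonneg C1
    have := abs_nonneg C3
    have := abs_nonneg C4
    linarith
  have hC3 : C3 ≤ D := by
    have := le_abs_self C3
    have := abs_nonneg C2
    have := abs_nonneg C1
    have := abs_nonneg C4
    linarith
  have hC4 : C4 ≤ D := by
    have := le_abs_self C4
    have := abs_nonneg C2
    have := abs_nonneg C3
    have := abs_nonneg C1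
    linarith
  -- finiteness
  obtain ⟨C0, p0, hV0⟩ := hV0
  have hmesh0 : ∀ j, τ j * (min l (1 / R)) ^ 2 ≤ δ ^ 2 * ∑ i, τ i := by
    intro j
    refine le_trans ?_ (hmesh j)
    have h5 : 0 < min l (1 / R) := by positivity
    have h6 : min l (1 / R) ≤ l := min_le_left _ _
    have := hτ j
    gcongr
  have hfin : Ms (us η1 η2) (hh d) τ (fun _ A => Vis (insert 0 O) E A) ≠ ⊤ :=
    ne_top_of_le_ne_top ENNReal.ofReal_ne_top (hV0 τ hτ hmesh0)
  have hdis : Disjoint (insert 0 O) E := by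
    rw [Finset.disjoint_insert_left]
    exact ⟨g.hE0, g.hOE⟩
  have hb1 := hBLC (us η1 η2) (hh d) hu n τ hn hτ O E (d - 2 * δ) g.hO0 g.hOn hdis hfin
  have hb1' : |VM (us η1 η2) (hh d) (insert 0 O) E t
      - ∑ j : Fin n, TC (us η1 η2) (hh d) (fun i => τ (i + j)) O E (d - 2 * δ)|
        ≤ (n + 1) * Q D p m t := by
    refine hb1.trans ?_
    have h5 : (Ms (us η1 η2) (hh d) τ (fun x A => Vis (insert 0 O) E A ∧
        ¬ (Adp O (d - 2 * δ) x A ∧ NoAlt O A))).toReal ≤ Q D p m t := by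
      refine ENNReal.toReal_le_of_le_ofReal hQ0 ((h1 τ hτ hmesh).trans ?_)
      exact ENNReal.ofReal_le_ofReal (hQ C1 p1 hC1 (by omega))
    gcongr
  have hb2 : ∀ j : Fin n, |TC (us η1 η2) (hh d) (fun i => τ (i + j)) O E (d - 2 * δ)
      - TT3 η1 η2 d O E (d - 2 * δ) δ ζ1 ζ2 (τ j) t| ≤ Q (D + D + D) p m t := by
    intro j
    have hs : ∑ i, τ (i + j) = t := sum_rot τ j
    have hτ' : ∀ i, 0 < (fun i => τ (i + j)) i := fun i => hτ _
    have hmesh' : ∀ i, (fun i => τ (i + j)) i * l ^ 2 ≤ δ ^ 2 * ∑ i, (fun i => τ (i + j)) i := by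
      intro i
      simp only [hs]
      exact hmesh _
    have hmesh0' : ∀ i, (fun i => τ (i + j)) i * (min l (1 / R)) ^ 2
        ≤ δ ^ 2 * ∑ i, (fun i => τ (i + j)) i := by
      intro i
      simp only [hs]
      exact hmesh0 _
    have hfin' : Ms (us η1 η2) (hh d) (fun i => τ (i + j))
        (fun _ A => Vis (insert 0 O) E A) ≠ ⊤ :=
      ne_top_of_le_ne_top ENNReal.ofReal_ne_top (hV0 _ hτ' hmesh0')
    have h5 := hREF η1 η2 d (d - 2 * δ) δ ζ1 ζ2 n (fun i => τ (i + j)) O E hδ (by linarith) hn hτ'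
      g.hO0 g.hE0 g.hOn g.hOE hfin'
    have e2 := h2 _ hτ' hmesh'
    have e3 := h3 _ hτ' hmesh'
    have e4 := h4 _ hτ' hmesh'
    simp only [hs, zero_add] at h5 e2 e3 e4
    have h6 := h5.trans (add_le_add (add_le_add
      (e2.trans (ENNReal.ofReal_le_ofReal (hQ C2 p2 hC2 (by omega))))
      (e3.trans (ENNReal.ofReal_le_ofReal (hQ C3 p3 hC3 (by omega)))))
      (e4.trans (ENNReal.ofReal_le_ofReal (hQ C4 p4 hC4 (by omega)))))
    rw [← ENNReal.ofReal_add hQ0 hQ0, ← ENNReal.ofReal_add (by positivity) hQ0,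
      ENNReal.ofReal_le_ofReal_iff (by positivity)] at h6
    rwa [Q_add, Q_add] at h6
  have hb3 : |∑ j : Fin n, TC (us η1 η2) (hh d) (fun i => τ (i + j)) O E (d - 2 * δ)
      - ∑ j, TT3 η1 η2 d O E (d - 2 * δ) δ ζ1 ζ2 (τ j) t| ≤ n * Q (D + D + D) p m t := by
    rw [← Finset.sum_sub_distrib]
    refine (Finset.abs_sum_le_sum_abs _ _).trans ?_
    refine (Finset.sum_le_sum fun j _ => hb2 j).trans ?_
    simp
  have := abs_sub_le (VM (us η1 η2) (hh d) (insert 0 O) E t)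
    (∑ j : Fin n, TC (us η1 η2) (hh d) (fun i => τ (i + j)) O E (d - 2 * δ))
    (∑ j, TT3 η1 η2 d O E (d - 2 * δ) δ ζ1 ζ2 (τ j) t)
  rw [Q_mul] at hb1' hb3
  have h7 := add_le_add hb1' hb3
  rw [Q_add] at h7
  exact this.trans h7

/-- Claim B -/
lemma claimB (hBLC : BlcStatement) (hREF : RefStatement) (hLDM : LdmStatement)
    (hHYE : HyeStatement) (g : Geo η1 η2 d O E l δ ζ1 ζ2 R)
    (hbd : ∀ t : ℝ, 0 < t → ∃ M : ℝ, ∀ a : ℝ, 0 < a → a ≤ t / 2 →
      |TT3 η1 η2 d O E (d - 2 * δ) δ ζ1 ζ2 a t| ≤ M) {ε : ℝ} (hε : 0 < ε) :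
    ∃ (K : ℕ) (C : ℝ) (p : ℕ), 2 ≤ K ∧ l ^ 2 ≤ δ ^ 2 * K ∧ 0 ≤ C ∧
      ∀ a t : ℝ, 0 < a → K * a ≤ t →
      |TT3 η1 η2 d O E (d - 2 * δ) δ ζ1 ζ2 a t
        - a / t * VM (us η1 η2) (hh d) (insert 0 O) E t| ≤ Q C p ((1 - ε) * l ^ 2) t := by
  have hδ := g.hδ
  have hl := g.hl
  obtain ⟨K0, hK0⟩ := exists_nat_ge (l ^ 2 / δ ^ 2)
  set K : ℕ := K0 + 2 with hK
  have hK2 : 2 ≤ K := by omega
  have hKl : l ^ 2 ≤ δ ^ 2 * K := by
    rw [div_le_iff₀ (by positivity)] at hK0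
    rw [hK]
    push_cast
    linarith only [hK0, sq_nonneg δ]
  have hKR : (0 : ℝ) < K := by positivity
  have hK2R : (2 : ℝ) ≤ K := by exact_mod_cast hK2
  obtain ⟨C1, p1, hC1, h1⟩ := claimA hBLC hREF hLDM g hε (K + 1) (by omega)
  obtain ⟨C2, p2, hC2, h2⟩ := claimA hBLC hREF hLDM g hε (K + 2) (by omega)
  set m : ℝ := (1 - ε) * l ^ 2 with hm
  refine ⟨K, 3 * (C1 + C2) + (C1 + (K + 1) * (3 * (C1 + C2))), p1 + p2, hK2, hKl, by positivity,
    fun a t ha hat => ?_⟩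
  have ht : 0 < t := lt_of_lt_of_le (by positivity) hat
  set T : ℝ → ℝ := fun a => TT3 η1 η2 d O E (d - 2 * δ) δ ζ1 ζ2 a t with hT
  set V : ℝ := VM (us η1 η2) (hh d) (insert 0 O) E t with hV
  set q1 : ℝ := Q C1 (p1 + p2) m t with hq1
  set q2 : ℝ := Q C2 (p1 + p2) m t with hq2
  have hmesh : ∀ r : ℝ, 0 < r → r ≤ t / K → r * l ^ 2 ≤ δ ^ 2 * t := by
    intro r hr hr'
    have h3 : r * K ≤ t := by rwa [le_div_iff₀ hKR] at hr'
    calc r * l ^ 2 ≤ r * (δ ^ 2 * K) := by gcongr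
      _ = δ ^ 2 * (r * K) := by ring
      _ ≤ δ ^ 2 * t := by gcongr
  -- `K + 1` blocks
  have e1 : ∀ s r : ℝ, 0 < s → s ≤ t / K → 0 < r → r ≤ t / K → s + K * r = t →
      |V - (T s + K * T r)| ≤ q1 := by
    intro s r hs hs' hr hr' hsum
    have hS : ∑ j : Fin (K + 1), (Fin.cons s (fun _ : Fin K => r) : Fin (K + 1) → ℝ) j = t := by
      rw [Fin.sum_univ_succ]
      simp only [Fin.cons_zero, Fin.cons_succ, Finset.sum_const, Finset.card_univ,
        Fintype.card_fin, nsmul_eq_mul]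
      exact hsum
    have h3 := h1 (Fin.cons s (fun _ : Fin K => r) : Fin (K + 1) → ℝ) (by
      intro j
      refine Fin.cases ?_ (fun i => ?_) j
      · simpa using hs
      · simpa using hr) (by
      intro j
      rw [hS]
      refine Fin.cases ?_ (fun i => ?_) j
      · simpa using hmesh s hs hs'
      · simpa using hmesh r hr hr')
    rw [hS, Fin.sum_univ_succ] at h3
    simp only [Fin.cons_zero, Fin.cons_succ, Finset.sum_const, Finset.card_univ,
      Fintype.card_fin, nsmul_eq_mul] at h3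
    exact h3.trans (Q_le ht le_rfl hC1 (by omega))
  -- `K + 2` blocks
  have e2 : ∀ s s' r : ℝ, 0 < s → s ≤ t / K → 0 < s' → s' ≤ t / K → 0 < r → r ≤ t / K →
      s + (s' + K * r) = t → |V - (T s + (T s' + K * T r))| ≤ q2 := by
    intro s s' r hs hs' hs2 hs2' hr hr' hsum
    set τ : Fin (K + 2) → ℝ := Fin.cons s (Fin.cons s' (fun _ : Fin K => r) : Fin (K + 1) → ℝ)
      with hτ
    have hS : ∑ j : Fin (K + 2), τ j = t := by
      rw [Fin.sum_univ_succ, Fin.sum_univ_succ]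
      simp only [hτ, Fin.cons_zero, Fin.cons_succ, Finset.sum_const, Finset.card_univ,
        Fintype.card_fin, nsmul_eq_mul]
      exact hsum
    have h3 := h2 τ (by
      intro j
      refine Fin.cases ?_ (fun i => ?_) j
      · simpa [hτ] using hs
      · rw [hτ, Fin.cons_succ]
        refine Fin.cases ?_ (fun i => ?_) i
        · simpa using hs2
        · simpa using hr) (by
      intro j
      rw [hS]
      refine Fin.cases ?_ (fun i => ?_) j
      · simpa [hτ] using hmesh s hs hs'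
      · rw [hτ, Fin.cons_succ]
        refine Fin.cases ?_ (fun i => ?_) i
        · simpa using hmesh s' hs2 hs2'
        · simpa using hmesh r hr hr')
    rw [hS, Fin.sum_univ_succ, Fin.sum_univ_succ] at h3
    simp only [hτ, Fin.cons_zero, Fin.cons_succ, Finset.sum_const, Finset.card_univ,
      Fintype.card_fin, nsmul_eq_mul] at h3
    exact h3.trans (Q_le ht le_rfl hC2 (by omega))
  -- almost additivity
  have e3 : ∀ a b : ℝ, 0 < a → 0 < b → a + b ≤ t / K → |T (a + b) - T a - T b| ≤ q1 + q2 := by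
    intro a b ha hb hab
    have hr0 : a + b < t := by
      have : t / K ≤ t / 2 := by gcongr
      linarith
    have hr : 0 < (t - (a + b)) / K := div_pos (by linarith) hKR
    have hr' : (t - (a + b)) / K ≤ t / K := by
      gcongr
      linarith
    have hKr : K * ((t - (a + b)) / K) = t - (a + b) := by field_simp
    have f1 := e1 (a + b) ((t - (a + b)) / K) (by linarith) hab hr hr' (by rw [hKr]; ring)
    have f2 := e2 a b ((t - (a + b)) / K) ha (by linarith) hb (by linarith) hr hr'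
      (by rw [hKr]; ring)
    rw [abs_le] at f1 f2 ⊢
    constructor <;> linarith only [f1.1, f1.2, f2.1, f2.2]
  obtain ⟨M, hM⟩ := hbd t ht
  have e4 := hHYE T (t / K) (q1 + q2) M (by positivity) (fun a ha ha' => hM a ha (by
    have : t / K ≤ t / 2 := by gcongr
    linarith)) e3
  -- comparison with the total mass
  have hr : 0 < t / (K + 1) := by positivity
  have hr' : t / (K + 1) ≤ t / K := by gcongr; linarith
  have e5 := e1 (t / (K + 1)) (t / (K + 1)) hr hr' hr hr' (by field_simp; ring)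
  have e6 := e4 (t / (K + 1)) hr hr'
  have e7 := e4 a ha (by rw [le_div_iff₀ hKR]; linarith)
  have hq0 : 0 ≤ q1 + q2 := (abs_nonneg _).trans (e3 (t / K / 2) (t / K / 2) (by positivity)
    (by positivity) (by linarith))
  have h8 : t / (K + 1) / (t / K) = K / (K + 1) := by field_simp
  have h9 : a / (t / K) = a / t * K := by field_simp
  rw [h8] at e6
  rw [h9] at e7
  set X : ℝ := T (t / K) with hX
  have e8 : |V - K * X| ≤ q1 + (K + 1) * (3 * (q1 + q2)) := by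
    have f1 : V - K * X = (V - (T (t / (K + 1)) + K * T (t / (K + 1))))
        + (K + 1) * (T (t / (K + 1)) - K / (K + 1) * X) := by
      field_simp
      ring
    rw [f1]
    refine (abs_add_le _ _).trans ?_
    rw [abs_mul, abs_of_pos (by positivity : (0 : ℝ) < K + 1)]
    gcongr
  have hat1 : a / t ≤ 1 := by
    rw [div_le_one ht]
    nlinarith only [hat, hK2R, ha]
  have hat0 : 0 ≤ a / t := by positivity
  have e9 : |T a - a / t * V| ≤ 3 * (q1 + q2) + (q1 + (K + 1) * (3 * (q1 + q2))) := by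
    have f1 : T a - a / t * V = (T a - a / t * K * X) - a / t * (V - K * X) := by ring
    rw [f1]
    refine (abs_sub _ _).trans ?_
    rw [abs_mul, abs_of_nonneg hat0]
    refine add_le_add e7 ?_
    calc a / t * |V - K * X| ≤ 1 * |V - K * X| := by gcongr
      _ ≤ _ := by rw [one_mul]; exact e8
  refine e9.trans (le_of_eq ?_)
  rw [hq1, hq2]
  simp only [Q]
  ring

end Pool.Agent.H60K
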