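import Pool.Agent.Helper60_AEU.Gb1

/-!
AEU (MP_5b0138_an), Part III: the transform of the contribution of a triple of sides in terms of the
masses of loops of the standard configuration (helper60).
-/

namespace Pool.Agent.H60K

open MeasureTheory Complex Filter Topology ProbabilityTheory Pool.Agent.H16Iso Pool.Agent.H62T
  Pool.Agent.H16F Pool.Agent.H38KL
open scoped ENNReal NNReal

lemma lap_eq (hVEX : VexStatement) {u : Fin 3 → ℂ} (hu : ∀ s, ‖u s‖ = 1) {h : Fin 3 → ℝ}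
    {M E : Finset (Fin 3)} (hME : Disjoint M E) {u1 u2 u3 : ℂ} {D0 σ : ℝ} (hσ : σ * σ = 1)
    (h0 : ∀ k : ℂ → ℝ, 0 ≤ σ * AEU.ZZ u1 u2 u3 D0 k)
    (hvol : ∀ t : ℝ, 0 < t → ∀ ω,
      volume {x : ℂ | (∀ s ∈ M, h s < ip (u s) x + Real.sqrt t * hs ω (u s)) ∧
        ∀ s ∈ E, ip (u s) x + Real.sqrt t * hs ω (u s) < h s}
        = ENNReal.ofReal (σ * AEU.ZZ u1 u2 u3 D0 (fun v => Real.sqrt t * hs ω v))) (κ : ℝ) :
    AEU.Lap (AEU.EZ u1 u2 u3 D0) κ = σ * PhiT (VM u h M E) κ := by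
  unfold AEU.Lap PhiT
  rw [← integral_const_mul]
  refine setIntegral_congr_fun measurableSet_Ioi fun t ht => ?_
  have ht' : 0 < t := ht
  have h1 := vexT hVEX u h M E t hu hME ht'
    (fun ω => σ * AEU.ZZ u1 u2 u3 D0 (fun v => Real.sqrt t * hs ω v)) (fun ω => h0 _)
    ((AEU.H62.am_ZZ u1 u2 u3 D0 (Real.sqrt t)).integrable.const_mul σ) (hvol t ht')
  rw [integral_const_mul] at h1
  show Real.exp (-(κ ^ 2 * t)) * AEU.EZ u1 u2 u3 D0 t / (4 * Real.pi * t ^ 2)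
    = σ * (Real.exp (-(κ ^ 2 * t)) * VM u h M E t / t)
  rw [h1]
  have h2 : AEU.EZ u1 u2 u3 D0 t = ∫ ω, AEU.ZZ u1 u2 u3 D0 (fun v => Real.sqrt t * hs ω v) ∂PP :=
    rfl
  rw [← h2]
  have h3 : σ * (Real.exp (-(κ ^ 2 * t)) * (1 / (4 * Real.pi * t) * (σ * AEU.EZ u1 u2 u3 D0 t)) / t)
      = (σ * σ) * (Real.exp (-(κ ^ 2 * t)) * AEU.EZ u1 u2 u3 D0 t / (4 * Real.pi * t ^ 2)) := by
    have := Real.pi_pos
    field_simp
  rw [h3, hσ, one_mul]

lemma phi_L (hINV : InvStatement) (L : ℂ ≃ₗᵢ[ℝ] ℂ) (η1 η2 d : ℝ) (M E : Finset (Fin 3)) (κ : ℝ) :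
    PhiT (VM (fun s => L (us η1 η2 s)) (hh d) M E) κ = PhiT (VM (us η1 η2) (hh d) M E) κ := by
  unfold PhiT
  refine setIntegral_congr_fun measurableSet_Ioi fun t ht => ?_
  have h1 := hINV.2.1 (us η1 η2) (hh d) M E L 0 t ht
  have h2 : (fun s => hh d s + ip (L (us η1 η2 s)) 0) = hh d := by
    funext s
    simp [ip]
  rw [h2] at h1
  simp only [h1]

lemma dep3 (a b c x : ℂ) : dt b c * ip a x + dt c a * ip b x + dt a b * ip c x = 0 := by
  unfold dt ip
  ring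

lemma max_neg_div {a : ℝ} (ha : 0 < a) (X : ℝ) : max (-X / a) 0 = -(min X 0) / a := by
  rcases le_total X 0 with h | h
  · rw [min_eq_left h, max_eq_left]
    have : 0 ≤ -X := by linarith
    positivity
  · rw [min_eq_right h, max_eq_right]
    · simp
    · rw [neg_div, neg_nonpos]
      positivity

/-- spanning triples -/
lemma lap_span (hVEX : VexStatement) (hINV : InvStatement) {η1 η2 d : ℝ} {u1 u2 u3 : ℂ}
    (L : ℂ ≃ₗᵢ[ℝ] ℂ) (e0 : L (us η1 η2 0) = u3) (e1 : L (us η1 η2 1) = u1)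
    (e2 : L (us η1 η2 2) = u2) (h1 : ‖u1‖ = 1) (h2 : ‖u2‖ = 1) (h3 : ‖u3‖ = 1)
    (h12 : 0 < dt u1 u2) (h23 : 0 < dt u2 u3) (h31 : 0 < dt u3 u1) (κ : ℝ) :
    AEU.Lap (AEU.EZ u1 u2 u3 (dt u1 u2 * d)) κ
      = -PhiT (VM (us η1 η2) (hh d) {0, 1, 2} ∅) κ := by
  rw [← phi_L hINV L, ← neg_one_mul]
  have hpr : 0 < AEU.pr u1 u2 u3 := by
    unfold AEU.pr
    positivity
  refine lap_eq hVEX (fun s => ?_) (Finset.disjoint_empty_right _) (by norm_num) (fun k => ?_)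
    (fun t ht ω => ?_) κ
  · fin_cases s
    · show ‖L (us η1 η2 0)‖ = 1
      rw [e0, h3]
    · show ‖L (us η1 η2 1)‖ = 1
      rw [e1, h1]
    · show ‖L (us η1 η2 2)‖ = 1
      rw [e2, h2]
  · unfold AEU.ZZ
    rw [neg_div, neg_mul_neg, one_mul]
    positivity
  · have hset : {x : ℂ | (∀ s ∈ ({0, 1, 2} : Finset (Fin 3)), hh d s
          < ip (L (us η1 η2 s)) x + Real.sqrt t * hs ω (L (us η1 η2 s))) ∧
        ∀ s ∈ (∅ : Finset (Fin 3)), ip (L (us η1 η2 s)) x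
          + Real.sqrt t * hs ω (L (us η1 η2 s)) < hh d s}
        = {x : ℂ | -(Real.sqrt t * hs ω u1) < ip u1 x ∧ -(Real.sqrt t * hs ω u2) < ip u2 x ∧
          d - Real.sqrt t * hs ω u3 < ip u3 x} := by
      ext x
      simp only [Set.mem_ofPred_eq, Finset.mem_insert, Finset.mem_singleton, forall_eq_or_imp,
        forall_eq, Finset.notMem_empty, false_imp_iff, forall_true_iff, and_true, e0, e1, e2]
      have k0 : hh d 0 = d := by simp [hh]
      have k1 : hh d 1 = 0 := by simp [hh]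
      have k2 : hh d 2 = 0 := by simp [hh]
      rw [k0, k1, k2]
      constructor
      · rintro ⟨b0, b1, b2⟩
        exact ⟨by linarith, by linarith, by linarith⟩
      · rintro ⟨b1, b2, b0⟩
        exact ⟨by linarith, by linarith, by linarith⟩
    rw [hset, vol_corner (p := dt u2 u3 / dt u1 u2) (q := dt u3 u1 / dt u1 u2) (by positivity)
      (by positivity) h1 h2 h3 (fun x => by
        have := dep3 u1 u2 u3 x
        field_simp
        linarith) h12.ne']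
    congr 1
    have k1 : -(dt u2 u3 / dt u1 u2 * -(Real.sqrt t * hs ω u1)
        + dt u3 u1 / dt u1 u2 * -(Real.sqrt t * hs ω u2) + (d - Real.sqrt t * hs ω u3))
        = -(dt u1 u2 * d - AEU.DD u1 u2 u3 (fun v => Real.sqrt t * hs ω v)) / dt u1 u2 := by
      unfold AEU.DD
      field_simp
      ring
    rw [k1]
    unfold AEU.ZZ AEU.pr
    set X := dt u1 u2 * d - AEU.DD u1 u2 u3 (fun v => Real.sqrt t * hs ω v) with hX
    rw [max_neg_div h12, abs_of_pos h12]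
    field_simp

/-- nonspanning triples; the lines with the normals `u3` and `v1` are visited -/
lemma lap_nsp (hVEX : VexStatement) (hINV : InvStatement) {η1 η2 d : ℝ} {u1 u2 u3 v1 v2 : ℂ}
    (L : ℂ ≃ₗᵢ[ℝ] ℂ) (e0 : L (us η1 η2 0) = u3) (e1 : L (us η1 η2 1) = v1)
    (e2 : L (us η1 η2 2) = v2) (h1 : ‖v1‖ = 1) (h2 : ‖v2‖ = 1) (h3 : ‖u3‖ = 1)
    (h12 : 0 < dt u1 u2) {p q : ℝ} (hp : 0 < p) (hq : 0 < q)
    (hv : |dt v1 v2| = dt u1 u2) (hpr : AEU.pr u1 u2 u3 = -(p * q * dt u1 u2 ^ 3))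
    (hw : ∀ x, ip u3 x = -(p * ip v1 x) + q * ip v2 x)
    (hDD : ∀ k : ℂ → ℝ, AEU.DD u1 u2 u3 k = (p * k v1 - q * k v2 + k u3) * dt u1 u2) (κ : ℝ) :
    AEU.Lap (AEU.EZ u1 u2 u3 (dt u1 u2 * d)) κ
      = PhiT (VM (us η1 η2) (hh d) {0, 1} {2}) κ := by
  rw [← phi_L hINV L, ← one_mul (PhiT _ κ)]
  have hpr' : AEU.pr u1 u2 u3 < 0 := by
    rw [hpr, neg_lt_zero]
    positivity
  refine lap_eq hVEX (fun s => ?_) (by decide) (by norm_num) (fun k => ?_)
    (fun t ht ω => ?_) κ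
  · fin_cases s
    · show ‖L (us η1 η2 0)‖ = 1
      rw [e0, h3]
    · show ‖L (us η1 η2 1)‖ = 1
      rw [e1, h1]
    · show ‖L (us η1 η2 2)‖ = 1
      rw [e2, h2]
  · unfold AEU.ZZ
    rw [one_mul, neg_div, ← div_neg]
    have : 0 < -(2 * AEU.pr u1 u2 u3) := by linarith
    positivity
  · have hset : {x : ℂ | (∀ s ∈ ({0, 1} : Finset (Fin 3)), hh d s
          < ip (L (us η1 η2 s)) x + Real.sqrt t * hs ω (L (us η1 η2 s))) ∧
        ∀ s ∈ ({2} : Finset (Fin 3)), ip (L (us η1 η2 s)) x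
          + Real.sqrt t * hs ω (L (us η1 η2 s)) < hh d s}
        = {x : ℂ | -(Real.sqrt t * hs ω v1) < ip v1 x ∧ Real.sqrt t * hs ω v2 < ip (-v2) x ∧
          d - Real.sqrt t * hs ω u3 < ip u3 x} := by
      ext x
      simp only [Set.mem_ofPred_eq, Finset.mem_insert, Finset.mem_singleton, forall_eq_or_imp,
        forall_eq, e0, e1, e2]
      have k0 : hh d 0 = d := by simp [hh]
      have k1 : hh d 1 = 0 := by simp [hh]
      have k2 : hh d 2 = 0 := by simp [hh]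
      have k3 : ip (-v2) x = -ip v2 x := by
        unfold ip
        simp
        ring
      rw [k0, k1, k2, k3]
      constructor
      · rintro ⟨⟨b0, b1⟩, b2⟩
        exact ⟨by linarith, by linarith, by linarith⟩
      · rintro ⟨b1, b2, b0⟩
        exact ⟨⟨by linarith, by linarith⟩, by linarith⟩
    have hdv : dt v1 (-v2) = -dt v1 v2 := by
      unfold dt
      simp
      ring
    have hv0 : dt v1 v2 ≠ 0 := by
      intro h
      rw [h, abs_zero] at hv
      linarith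
    rw [hset, vol_corner (p := p) (q := q) hp hq h1 (by rw [norm_neg, h2]) h3 (fun x => by
        have k3 : ip (-v2) x = -ip v2 x := by
          unfold ip
          simp
          ring
        rw [k3, hw x]
        ring) (by rw [hdv]; exact neg_ne_zero.2 hv0)]
    congr 1
    rw [hdv, abs_neg, hv, one_mul]
    unfold AEU.ZZ
    rw [hpr, hDD]
    set X := dt u1 u2 * d - (p * (Real.sqrt t * hs ω v1) - q * (Real.sqrt t * hs ω v2)
      + Real.sqrt t * hs ω u3) * dt u1 u2 with hX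
    have k1 : -(p * -(Real.sqrt t * hs ω v1) + q * (Real.sqrt t * hs ω v2)
        + (d - Real.sqrt t * hs ω u3)) = -X / dt u1 u2 := by
      rw [hX]
      field_simp
      ring
    rw [k1, max_neg_div h12]
    field_simp

end Pool.Agent.H60K
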