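import Pool.Agent.Helper60_AEU.Asm
import Pool.Agent.Helper8_TRI.Heat

/-!
AEU (MP_5b0138_an), Part III: assembly of the block modules, bounds and measurability (helper60).
-/

namespace Pool.Agent.H60K

open MeasureTheory Complex Filter Topology ProbabilityTheory Pool.Agent.H16Iso Pool.Agent.H62T
  Pool.Agent.H16F Pool.Agent.H38KL
open scoped ENNReal NNReal

variable {η1 η2 d : ℝ} {O E : Finset (Fin 3)} {l δ ζ1 ζ2 R : ℝ}

lemma nsq (z : ℂ) : ‖z‖ ^ 2 = z.re ^ 2 + z.im ^ 2 := by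
  rw [← Complex.normSq_eq_norm_sq, Complex.normSq_apply]
  ring

lemma norm_sub_rf {u : Fin 3 → ℂ} {h : Fin 3 → ℝ} {s : Fin 3} (hu : ‖u s‖ = 1) (x y : ℂ) :
    ‖x - rf u h s y‖ ^ 2 = ‖x - y‖ ^ 2 + 4 * (ip (u s) y - h s) * (ip (u s) x - h s) := by
  have h1 : (u s).re ^ 2 + (u s).im ^ 2 = 1 := by
    rw [← nsq, hu]; norm_num
  rw [nsq, nsq]
  unfold rf
  simp only [sub_re, sub_im, mul_re, mul_im, ofReal_re, ofReal_im]
  have h2 : ip (u s) y = (u s).re * y.re + (u s).im * y.im := rfl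
  have h3 : ip (u s) x = (u s).re * x.re + (u s).im * x.im := rfl
  set q := ip (u s) y - h s with hq
  have h4 : ip (u s) x - h s = (u s).re * (x.re - y.re) + (u s).im * (x.im - y.im) + q := by
    rw [hq, h2, h3]; ring
  rw [h4]
  have h5 : (u s).re ^ 2 = 1 - (u s).im ^ 2 := by linarith
  ring_nf
  rw [h5]
  ring

lemma le_dd {u : Fin 3 → ℂ} {h : Fin 3 → ℝ} {s : Fin 3} (hu : ‖u s‖ = 1) (x y : ℂ) :
    ‖x - y‖ ≤ dd u h s x y := by
  unfold dd
  split_ifs with hc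
  · have h1 := norm_sub_rf (h := h) hu x y
    have h2 : 0 ≤ 4 * (ip (u s) y - h s) * (ip (u s) x - h s) := by
      have := mul_nonneg (sub_nonneg.2 hc.1.le) (sub_nonneg.2 hc.2.le)
      linarith only [this]
    nlinarith only [h1, hc, norm_nonneg (x - y), norm_nonneg (x - rf u h s y)]
  · exact le_rfl

lemma le_bl {u : Fin 3 → ℂ} {h : Fin 3 → ℝ} (hu : ∀ s, ‖u s‖ = 1) (A : Finset (Fin 3)) (x y : ℂ) :
    ‖x - y‖ ≤ bl u h A x y := by
  unfold bl
  refine le_trans ?_ (Finset.le_sup' _ (Finset.mem_univ (0 : Fin 3)))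
  split_ifs
  · exact le_dd (hu 0) x y
  · exact le_rfl

lemma kA_le_G (hLAB : LabStatement) {u : Fin 3 → ℂ} {h : Fin 3 → ℝ} (hu : ∀ s, ‖u s‖ = 1)
    (A : Finset (Fin 3)) {t : ℝ} (ht : 0 < t) (x y : ℂ) : kA u h A t x y ≤ G t (x - y) := by
  refine (((hLAB u h hu).2 t x y ht).2.2.2.2.1 A).trans ?_
  unfold G
  have h1 := le_bl (h := h) hu A x y
  have h2 : ‖x - y‖ ^ 2 ≤ bl u h A x y ^ 2 := by
    have := norm_nonneg (x - y)
    gcongr
  simp only [neg_div]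
  gcongr

lemma kME_nonneg (hLAB : LabStatement) {u : Fin 3 → ℂ} {h : Fin 3 → ℝ} (hu : ∀ s, ‖u s‖ = 1)
    {M E : Finset (Fin 3)} (hME : Disjoint M E) {t : ℝ} (ht : 0 < t) (x y : ℂ) :
    0 ≤ kME u h M E t x y := by
  rw [((hLAB u h hu).2 t x y ht).2.2.1 M E hME]
  exact Finset.sum_nonneg fun A _ => ((hLAB u h hu).2 t x y ht).1 A

lemma kME_le (hLAB : LabStatement) {u : Fin 3 → ℂ} {h : Fin 3 → ℝ} (hu : ∀ s, ‖u s‖ = 1)
    {M E : Finset (Fin 3)} (hME : Disjoint M E) {t : ℝ} (ht : 0 < t) (x y : ℂ) :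
    kME u h M E t x y ≤ 8 * G t (x - y) := by
  rw [((hLAB u h hu).2 t x y ht).2.2.1 M E hME]
  have hG : 0 ≤ G t (x - y) := (H8.G_pos ht _).le
  refine (Finset.sum_le_sum fun A _ => kA_le_G hLAB hu A ht x y).trans ?_
  rw [Finset.sum_const, nsmul_eq_mul]
  have h1 : ((Eᶜ).powerset.filter (fun A => M ⊆ A)).card ≤ 8 := by
    refine (Finset.card_filter_le _ _).trans ?_
    rw [Finset.card_powerset]
    have h2 : (Eᶜ : Finset (Fin 3)).card ≤ 3 := by
      refine (Finset.card_le_univ _).trans ?_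
      simp
    calc 2 ^ (Eᶜ : Finset (Fin 3)).card ≤ 2 ^ 3 := Nat.pow_le_pow_right (by norm_num) h2
      _ = 8 := by norm_num
  have h2 : (((Eᶜ).powerset.filter (fun A => M ⊆ A)).card : ℝ) ≤ 8 := by exact_mod_cast h1
  gcongr

lemma vol_Rw (ξ1 δ ζ1 ζ2 : ℝ) : volume (Rw ξ1 δ ζ1 ζ2) < ⊤ := by
  have h : Rw ξ1 δ ζ1 ζ2 ⊆ Metric.closedBall 0 (|ξ1| + δ + |ζ1| + |ζ2|) := by
    intro x hx
    rw [mem_closedBall_zero_iff]
    exact norm_Rw hx
  exact lt_of_le_of_lt (measure_mono h) measure_closedBall_lt_top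

lemma abs_ch_sub (ξ1 : ℝ) (x y : ℂ) : |ch ξ1 y - ch ξ1 x| ≤ 1 := by
  unfold ch
  split_ifs <;> simp

lemma window_dist {x y : ℂ} (hx : x ∈ Rw (d - 2 * δ) δ ζ1 ζ2)
    (hy : y ∈ Rw (d - 2 * δ) δ ζ1 ζ2) : 2 * δ ≤ ‖rf (us η1 η2) (hh d) 0 y - x‖ := by
  have h1 := hx.1
  have h2 := hy.1
  rw [abs_lt] at h1 h2
  refine le_trans ?_ (Complex.re_le_norm _)
  have h3 : (rf (us η1 η2) (hh d) 0 y).re = 2 * d - y.re := by
    simp only [rf, us, hh, ip, if_true]
    simp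
    ring
  rw [sub_re, h3]
  linarith [h1.1, h1.2, h2.1, h2.2]

lemma G_le_of_dist {s r : ℝ} (hs : 0 < s) (hr : 0 ≤ r) {z : ℂ} (hz : r ≤ ‖z‖) :
    G s z ≤ Real.exp (-(r ^ 2 / (4 * s))) / (4 * Real.pi * s) := by
  unfold G
  have h1 : r ^ 2 ≤ ‖z‖ ^ 2 := by gcongr
  rw [neg_div]
  gcongr

/-- bound of the flux -/
lemma TT3_bound (hLAB : LabStatement) (hδ : 0 < δ) (hOE : Disjoint O E) :
    ∃ C : ℝ, 0 ≤ C ∧ ∀ a t : ℝ, 0 < a → a < t →
      |TT3 η1 η2 d O E (d - 2 * δ) δ ζ1 ζ2 a t|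
        ≤ C * (Real.exp (-(δ ^ 2 / (t - a))) / (t - a)) := by
  set v : ℝ := (volume (Rw (d - 2 * δ) δ ζ1 ζ2)).toReal with hv
  refine ⟨8 / (4 * Real.pi) * v, by positivity, fun a t ha hat => ?_⟩
  have hs : 0 < t - a := by linarith
  have hu := norm_us η1 η2
  set B : ℝ := 8 / (4 * Real.pi) * (Real.exp (-(δ ^ 2 / (t - a))) / (t - a)) with hB
  have hB0 : 0 ≤ B := by positivity
  have h1 : ∀ x ∈ Rw (d - 2 * δ) δ ζ1 ζ2, ∀ y ∈ Rw (d - 2 * δ) δ ζ1 ζ2,
      |G a (x - y) * (ch (d - 2 * δ) y - ch (d - 2 * δ) x)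
        * kME (us η1 η2) (hh d) O E (t - a) (rf (us η1 η2) (hh d) 0 y) x|
        ≤ G a (x - y) * B := by
    intro x hx y hy
    have h2 := kME_le hLAB (h := hh d) hu hOE hs (rf (us η1 η2) (hh d) 0 y) x
    have h3 := kME_nonneg hLAB (h := hh d) hu hOE hs (rf (us η1 η2) (hh d) 0 y) x
    have h4 := G_le_of_dist hs (by positivity : 0 ≤ 2 * δ) (window_dist (η1 := η1) (η2 := η2) hx hy)
    have h5 : 0 ≤ G a (x - y) := (H8.G_pos ha _).le
    rw [abs_mul, abs_mul, abs_of_nonneg h5, abs_of_nonneg h3]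
    have h6 : (2 * δ) ^ 2 / (4 * (t - a)) = δ ^ 2 / (t - a) := by field_simp; ring
    rw [h6] at h4
    have h7 : 8 * (Real.exp (-(δ ^ 2 / (t - a))) / (4 * Real.pi * (t - a))) = B := by
      rw [hB]; field_simp
    calc G a (x - y) * |ch (d - 2 * δ) y - ch (d - 2 * δ) x|
          * kME (us η1 η2) (hh d) O E (t - a) (rf (us η1 η2) (hh d) 0 y) x
        ≤ G a (x - y) * 1 * (8 * G (t - a) (rf (us η1 η2) (hh d) 0 y - x)) := by
          gcongr
          exact abs_ch_sub _ _ _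
      _ ≤ G a (x - y) * 1 * (8 * (Real.exp (-(δ ^ 2 / (t - a))) / (4 * Real.pi * (t - a)))) := by
          gcongr
      _ = G a (x - y) * B := by rw [h7]; ring
  have h8 : ∀ x ∈ Rw (d - 2 * δ) δ ζ1 ζ2,
      ‖∫ y in Rw (d - 2 * δ) δ ζ1 ζ2, G a (x - y) * (ch (d - 2 * δ) y - ch (d - 2 * δ) x)
        * kME (us η1 η2) (hh d) O E (t - a) (rf (us η1 η2) (hh d) 0 y) x‖ ≤ B := by
    intro x hx
    have h9 : Integrable (fun y => G a (x - y) * B) := by
      exact ((H8.G_integrable ha).comp_sub_left x).mul_const B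
    refine (norm_integral_le_of_norm_le h9.integrableOn ?_).trans ?_
    · filter_upwards [ae_restrict_mem (measurableSet_Rw (d - 2 * δ) δ ζ1 ζ2)] with y hy
      exact h1 x hx y hy
    · have h10 : ∫ y in Rw (d - 2 * δ) δ ζ1 ζ2, G a (x - y) * B ≤ ∫ y, G a (x - y) * B := by
        refine setIntegral_le_integral h9 ?_
        exact Eventually.of_forall fun y => mul_nonneg ((H8.G_pos ha _).le) hB0
      refine h10.trans ?_
      rw [integral_mul_const, integral_sub_left_eq_self (fun z => G a z) volume x,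
        H8.G_integral ha, one_mul]
  rw [← Real.norm_eq_abs]
  unfold TT3
  refine (norm_setIntegral_le_of_norm_le_const (vol_Rw _ _ _ _) h8).trans (le_of_eq ?_)
  rw [hB]
  simp only [Measure.real, hv]
  ring

lemma measurable_kA_comp (hLAB : LabStatement) {u : Fin 3 → ℂ} {h : Fin 3 → ℝ}
    (hu : ∀ s, ‖u s‖ = 1) (A : Finset (Fin 3)) {α : Type*} [MeasurableSpace α] {f : α → ℝ}
    {g k : α → ℂ} (hf : Measurable f) (hg : Measurable g) (hk : Measurable k) :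
    Measurable (fun a => kA u h A (f a) (g a) (k a)) := by
  have h1 := (hLAB u h hu).1 A
  have h2 : Measurable (fun a => (f a, g a, k a)) := hf.prodMk (hg.prodMk hk)
  have h3 := h1.comp h2
  simpa only [Function.comp_def] using h3

/-- measurable version of the total mass -/
noncomputable def V2 (u : Fin 3 → ℂ) (h : Fin 3 → ℝ) (M E : Finset (Fin 3)) (t : ℝ) : ℝ :=
  ∫ x, ∑ A ∈ (Eᶜ).powerset.filter (fun A => M ⊆ A), kA u h A t x x

lemma measurable_V2 (hLAB : LabStatement) {u : Fin 3 → ℂ} {h : Fin 3 → ℝ} (hu : ∀ s, ‖u s‖ = 1)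
    (M E : Finset (Fin 3)) : Measurable (V2 u h M E) := by
  have h1 : Measurable (fun p : ℝ × ℂ => ∑ A ∈ (Eᶜ).powerset.filter (fun A => M ⊆ A),
      kA u h A p.1 p.2 p.2) := by
    refine Finset.measurable_sum _ fun A _ => ?_
    exact measurable_kA_comp hLAB hu A measurable_fst measurable_snd measurable_snd
  exact (h1.stronglyMeasurable.integral_prod_right').measurable

lemma V2_eq (hLAB : LabStatement) {u : Fin 3 → ℂ} {h : Fin 3 → ℝ} (hu : ∀ s, ‖u s‖ = 1)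
    {M E : Finset (Fin 3)} (hME : Disjoint M E) {t : ℝ} (ht : 0 < t) :
    V2 u h M E t = VM u h M E t := by
  unfold V2 VM
  congr 1
  ext x
  rw [((hLAB u h hu).2 t x x ht).2.2.1 M E hME]

/-- measurable version of the flux -/
noncomputable def T2 (η1 η2 d : ℝ) (O E : Finset (Fin 3)) (ξ1 δ ζ1 ζ2 a t : ℝ) : ℝ :=
  ∫ x in Rw ξ1 δ ζ1 ζ2, ∫ y in Rw ξ1 δ ζ1 ζ2, G a (x - y) * (ch ξ1 y - ch ξ1 x)
    * ∑ A ∈ (Eᶜ).powerset.filter (fun A => O ⊆ A),
      kA (us η1 η2) (hh d) A (t - a) (rf (us η1 η2) (hh d) 0 y) x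

lemma measurable_rf (u : Fin 3 → ℂ) (h : Fin 3 → ℝ) (s : Fin 3) : Measurable (rf u h s) := by
  unfold rf ip
  fun_prop

lemma measurable_G2 : Measurable (fun p : ℝ × ℂ => G p.1 p.2) := by
  unfold G
  fun_prop

lemma measurable_G_comp {α : Type*} [MeasurableSpace α] {f : α → ℝ}
    {g : α → ℂ} (hf : Measurable f) (hg : Measurable g) :
    Measurable (fun a => G (f a) (g a)) := by
  have h3 := measurable_G2.comp (hf.prodMk hg)
  simpa only [Function.comp_def] using h3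

lemma measurable_ch_comp (ξ1 : ℝ) {α : Type*} [MeasurableSpace α] {g : α → ℂ}
    (hg : Measurable g) : Measurable (fun a => ch ξ1 (g a)) := by
  have h3 := (measurable_ch ξ1).comp hg
  simpa only [Function.comp_def] using h3

lemma measurable_rf_comp (u : Fin 3 → ℂ) (h : Fin 3 → ℝ) (s : Fin 3) {α : Type*}
    [MeasurableSpace α] {g : α → ℂ} (hg : Measurable g) :
    Measurable (fun a => rf u h s (g a)) := by
  have h3 := (measurable_rf u h s).comp hg
  simpa only [Function.comp_def] using h3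

lemma measurable_T2 (hLAB : LabStatement) (η1 η2 d : ℝ) (O E : Finset (Fin 3))
    (ξ1 δ ζ1 ζ2 : ℝ) :
    Measurable (fun p : ℝ × ℝ => T2 η1 η2 d O E ξ1 δ ζ1 ζ2 p.1 p.2) := by
  have hu := norm_us η1 η2
  have h1 : Measurable (fun q : ((ℝ × ℝ) × ℂ) × ℂ => G q.1.1.1 (q.1.2 - q.2)
      * (ch ξ1 q.2 - ch ξ1 q.1.2) * ∑ A ∈ (Eᶜ).powerset.filter (fun A => O ⊆ A),
      kA (us η1 η2) (hh d) A (q.1.1.2 - q.1.1.1) (rf (us η1 η2) (hh d) 0 q.2) q.1.2) := by
    have f1 : Measurable (fun q : ((ℝ × ℝ) × ℂ) × ℂ => G q.1.1.1 (q.1.2 - q.2)) :=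
      measurable_G_comp (by fun_prop) (by fun_prop)
    have f2 : Measurable (fun q : ((ℝ × ℝ) × ℂ) × ℂ => ch ξ1 q.2 - ch ξ1 q.1.2) :=
      (measurable_ch_comp ξ1 (by fun_prop)).sub (measurable_ch_comp ξ1 (by fun_prop))
    refine (f1.mul f2).mul ?_
    · refine Finset.measurable_sum _ fun A _ => ?_
      exact measurable_kA_comp hLAB hu A (by fun_prop)
        (measurable_rf_comp _ _ _ (by fun_prop)) (by fun_prop)
  have h4 := (h1.stronglyMeasurable.integral_prod_right'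
    (ν := volume.restrict (Rw ξ1 δ ζ1 ζ2)))
  exact (h4.integral_prod_right' (ν := volume.restrict (Rw ξ1 δ ζ1 ζ2))).measurable

lemma T2_eq (hLAB : LabStatement) {ξ1 a t : ℝ} (hOE : Disjoint O E) (hat : a < t) :
    T2 η1 η2 d O E ξ1 δ ζ1 ζ2 a t = TT3 η1 η2 d O E ξ1 δ ζ1 ζ2 a t := by
  have hu := norm_us η1 η2
  unfold T2 TT3
  have : ∀ x y : ℂ, ∑ A ∈ (Eᶜ).powerset.filter (fun A => O ⊆ A),
      kA (us η1 η2) (hh d) A (t - a) (rf (us η1 η2) (hh d) 0 y) x
      = kME (us η1 η2) (hh d) O E (t - a) (rf (us η1 η2) (hh d) 0 y) x := fun x y =>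
    (((hLAB (us η1 η2) (hh d) hu).2 (t - a) _ x (by linarith)).2.2.1 O E hOE).symm
  simp only [this]

/-- bound of the total mass -/
lemma V_bound (hLAB : LabStatement) (hBLV : BlvStatement) (hLDM : LdmStatement)
    (g : Geo η1 η2 d O E l δ ζ1 ζ2 R) :
    ∃ (C : ℝ) (p : ℕ), 0 ≤ C ∧ ∀ t : ℝ, 0 < t →
      |VM (us η1 η2) (hh d) (insert 0 O) E t|
        ≤ Q C p ((1 - 1 / 2) * (min l (1 / R)) ^ 2) t := by
  have hu := norm_us η1 η2
  have hδ := g.hδ
  have hl := g.hl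
  have hR := g.hR
  set l1 : ℝ := min l (1 / R) with hl1
  have hl10 : 0 < l1 := by positivity
  have hdis : Disjoint (insert 0 O) E := by
    rw [Finset.disjoint_insert_left]
    exact ⟨g.hE0, g.hOE⟩
  obtain ⟨K0, hK0⟩ := exists_nat_ge (l1 ^ 2 / δ ^ 2)
  set K : ℕ := K0 + 1 with hK
  have hKl : l1 ^ 2 ≤ δ ^ 2 * K := by
    rw [div_le_iff₀ (by positivity)] at hK0
    rw [hK]
    push_cast
    linarith only [hK0, sq_nonneg δ]
  have hKR : (0 : ℝ) < K := by positivity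
  have : NeZero K := ⟨by omega⟩
  obtain ⟨C, p, h1⟩ := (hLDM (us η1 η2) (hh d) hu K (fun _ A => Vis (insert 0 O) E A) δ
      l1 R (1 / 2) (fun A => MeasurableSet.const _) hδ hl10 hR (by norm_num)).1
      (fun x A hS hC _ => (min_le_right _ _).trans (g.loc K x A hS hC).2)
      (fun x A hS hC => (g.loc K x A hS hC).1)
  refine ⟨max C 0, p, le_max_right _ _, fun t ht => ?_⟩
  have hsum : ∑ _j : Fin K, t / K = t := by
    simp only [Finset.sum_const, Finset.card_univ, Fintype.card_fin, nsmul_eq_mul]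
    field_simp
  have h2 := h1 (fun _ => t / K) (fun _ => by positivity) (fun _ => by
    rw [hsum, div_mul_eq_mul_div, div_le_iff₀ hKR]
    calc t * l1 ^ 2 ≤ t * (δ ^ 2 * K) := by gcongr
      _ = δ ^ 2 * t * K := by ring)
  rw [hsum] at h2
  have h3 := hBLV (us η1 η2) (hh d) hu K (fun _ => t / K) (fun _ => by positivity)
    (insert 0 O) E hdis
  rw [hsum] at h3
  have h4 : |VM (us η1 η2) (hh d) (insert 0 O) E t| ≤
      (∫⁻ x, ENNReal.ofReal (kME (us η1 η2) (hh d) (insert 0 O) E t x x)).toReal := by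
    unfold VM
    rw [← Real.norm_eq_abs]
    refine (norm_integral_le_lintegral_norm _).trans (le_of_eq ?_)
    congr 1
    refine lintegral_congr fun x => ?_
    rw [Real.norm_eq_abs, abs_of_nonneg (kME_nonneg hLAB hu hdis ht x x)]
  refine h4.trans ?_
  rw [h3]
  refine ENNReal.toReal_le_of_le_ofReal (Q_nonneg ht (le_max_right _ _)) (h2.trans ?_)
  refine ENNReal.ofReal_le_ofReal ?_
  exact Q_le (m := (1 - 1 / 2) * l1 ^ 2) ht (le_max_left _ _) (le_max_right _ _) le_rfl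

lemma absorb {m m' t : ℝ} (hm : m' < m) (ht : 0 < t) :
    Real.exp (-(m / (4 * t))) / t ≤ 4 / (m - m') * Real.exp (-(m' / (4 * t))) := by
  have h0 : 0 < m - m' := by linarith
  have h1 : (m - m') / (4 * t) ≤ Real.exp ((m - m') / (4 * t)) := by
    have := Real.add_one_le_exp ((m - m') / (4 * t))
    linarith
  have h2 : Real.exp (-(m / (4 * t))) * Real.exp ((m - m') / (4 * t))
      = Real.exp (-(m' / (4 * t))) := by
    rw [← Real.exp_add]
    congr 1
    ring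
  rw [← h2]
  have h3 : 1 / t = 4 / (m - m') * ((m - m') / (4 * t)) := by field_simp
  calc Real.exp (-(m / (4 * t))) / t = Real.exp (-(m / (4 * t))) * (1 / t) := by ring
    _ = Real.exp (-(m / (4 * t))) * (4 / (m - m') * ((m - m') / (4 * t))) := by rw [← h3]
    _ ≤ Real.exp (-(m / (4 * t))) * (4 / (m - m') * Real.exp ((m - m') / (4 * t))) := by gcongr
    _ = _ := by ring

lemma Q_absorb {C m m' t : ℝ} {p : ℕ} (hC : 0 ≤ C) (hm : m' < m) (ht : 0 < t) :
    Q C p m t ≤ C * (4 / (m - m')) * (1 + t) ^ p * Real.exp (-(m' / (4 * t))) := by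
  unfold Q
  have h1 := absorb hm ht
  calc C * (1 + t) ^ p / t * Real.exp (-(m / (4 * t)))
      = C * (1 + t) ^ p * (Real.exp (-(m / (4 * t))) / t) := by ring
    _ ≤ C * (1 + t) ^ p * (4 / (m - m') * Real.exp (-(m' / (4 * t)))) := by gcongr
    _ = _ := by ring

/-- the assembly -/
theorem asm (hLAB : LabStatement) (hBLV : BlvStatement) (hBLC : BlcStatement)
    (hREF : RefStatement) (hLDM : LdmStatement) (hHYE : HyeStatement) (hLPS : LpsStatement)
    (g : Geo η1 η2 d O E l δ ζ1 ζ2 R) {ε : ℝ} (hε : 0 < ε) :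
    ∃ c0 : ℝ, 0 < c0 ∧ ∀ c : ℝ, 0 < c → c < c0 → ∃ C κ0 : ℝ, 0 < κ0 ∧ ∀ κ : ℝ, κ0 ≤ κ →
      |PhiT (VM (us η1 η2) (hh d) (insert 0 O) E) κ
        - κ / c * ∫ t in Set.Ioi (c / κ), Real.exp (-(κ ^ 2 * t)) *
          TT3 η1 η2 d O E (d - 2 * δ) δ ζ1 ζ2 (c / κ) t|
        ≤ C * Real.exp (-(κ * (l - ε))) := by
  have hu := norm_us η1 η2
  have hδ := g.hδ
  have hl := g.hl
  have hR := g.hR
  set l1 : ℝ := min l (1 / R) with hl1
  have hl10 : 0 < l1 := by positivity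
  have hdis : Disjoint (insert 0 O) E := by
    rw [Finset.disjoint_insert_left]
    exact ⟨g.hE0, g.hOE⟩
  -- constants
  set l' : ℝ := max (l - ε / 2) (l / 2) with hl'
  have hl'0 : 0 < l' := lt_of_lt_of_le (by positivity) (le_max_right _ _)
  have hl'l : l' < l := max_lt (by linarith) (by linarith)
  set m : ℝ := ((l + l') / 2) ^ 2 with hm
  have hml : m < l ^ 2 := by
    rw [hm]
    have : (l + l') / 2 < l := by linarith
    gcongr
  have hml' : l' ^ 2 < m := by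
    rw [hm]
    have : l' < (l + l') / 2 := by linarith
    gcongr
  have hε' : 0 < 1 - m / l ^ 2 := by
    rw [sub_pos, div_lt_one (by positivity)]
    exact hml
  obtain ⟨CT, hCT, hT⟩ := TT3_bound (η1 := η1) (η2 := η2) (d := d) (ζ1 := ζ1) (ζ2 := ζ2) hLAB hδ
    g.hOE
  have hbd : ∀ t : ℝ, 0 < t → ∃ M : ℝ, ∀ a : ℝ, 0 < a → a ≤ t / 2 →
      |TT3 η1 η2 d O E (d - 2 * δ) δ ζ1 ζ2 a t| ≤ M := by
    intro t ht
    refine ⟨CT * (1 / (t / 2)), fun a ha hat => (hT a t ha (by linarith only [ha, hat])).trans ?_⟩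
    have h1 : t / 2 ≤ t - a := by linarith
    have h2 : Real.exp (-(δ ^ 2 / (t - a))) ≤ 1 := by
      rw [Real.exp_le_one_iff, neg_nonpos]
      have : 0 < t - a := by linarith only [ha, hat]
      positivity
    gcongr
  obtain ⟨K, C1, p1, hK2, -, hC1, h1⟩ := claimB hBLC hREF hLDM hHYE g hbd hε'
  obtain ⟨C2, p2, hC2, h2⟩ := V_bound hLAB hBLV hLDM g
  have hm1 : (1 - (1 - m / l ^ 2)) * l ^ 2 = m := by field_simp; ring
  rw [hm1] at h1
  -- the length used for the crude bounds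
  set l0 : ℝ := min δ (l1 / 2) with hl0
  have hl00 : 0 < l0 := by positivity
  have hl0δ : l0 ^ 2 ≤ δ ^ 2 := by
    have : l0 ≤ δ := min_le_left _ _
    gcongr
  have hl0l : l0 ^ 2 ≤ l1 ^ 2 / 4 := by
    have h3 : l0 ≤ l1 / 2 := min_le_right _ _
    calc l0 ^ 2 ≤ (l1 / 2) ^ 2 := by gcongr
      _ = l1 ^ 2 / 4 := by ring
  set C : ℝ := C1 * (4 / (m - l' ^ 2)) + C2 * (4 / ((1 - 1 / 2) * l1 ^ 2 - l0 ^ 2))
    + CT * (4 / (4 * δ ^ 2 - l0 ^ 2)) with hC
  have hd1 : 0 < m - l' ^ 2 := by linarith only [hml']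
  have hl12 : 0 < l1 ^ 2 := by positivity
  have hd2 : 0 < (1 - 1 / 2) * l1 ^ 2 - l0 ^ 2 := by linarith only [hl0l, hl12]
  have hδ2 : 0 < δ ^ 2 := by positivity
  have hd3 : 0 < 4 * δ ^ 2 - l0 ^ 2 := by linarith only [hl0δ, hδ2]
  have hP1 : 0 ≤ C1 * (4 / (m - l' ^ 2)) := by positivity
  have hP2 : 0 ≤ C2 * (4 / ((1 - 1 / 2) * l1 ^ 2 - l0 ^ 2)) := by positivity
  have hP3 : 0 ≤ CT * (4 / (4 * δ ^ 2 - l0 ^ 2)) := by positivity
  set p : ℕ := p1 + p2 with hp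
  -- measurable versions
  set V : ℝ → ℝ := fun t => if 0 < t then V2 (us η1 η2) (hh d) (insert 0 O) E t else 0 with hV
  set T : ℝ → ℝ → ℝ := fun a t => if 0 < a ∧ a < t then
    T2 η1 η2 d O E (d - 2 * δ) δ ζ1 ζ2 a t else 0 with hTd
  have hVe : ∀ t, 0 < t → V t = VM (us η1 η2) (hh d) (insert 0 O) E t := fun t ht => by
    simp only [hV, ht, if_true]
    exact V2_eq hLAB hu hdis ht
  have hTe : ∀ a t, 0 < a → a < t → T a t = TT3 η1 η2 d O E (d - 2 * δ) δ ζ1 ζ2 a t :=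
    fun a t ha hat => by
      simp only [hTd, ha, hat, and_self, if_true]
      exact T2_eq hLAB g.hOE hat
  have hVm : Measurable V :=
    Measurable.ite measurableSet_Ioi (measurable_V2 hLAB hu _ _) measurable_const
  have hTm : Measurable (Function.uncurry T) := by
    have h3 : MeasurableSet {q : ℝ × ℝ | 0 < q.1 ∧ q.1 < q.2} :=
      (measurableSet_lt measurable_const measurable_fst).inter
        (measurableSet_lt measurable_fst measurable_snd)
    exact Measurable.ite h3 (measurable_T2 hLAB _ _ _ _ _ _ _ _ _) measurable_const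
  have hone : ∀ (t : ℝ) (q : ℕ), 0 < t → q ≤ p → (1 + t) ^ q ≤ (1 + t) ^ p := fun t q ht hq =>
    pow_le_pow_right₀ (by linarith only [ht]) hq
  obtain ⟨c0, hc0, h3⟩ := hLPS V T K p C l' l0 (ε / 2) (by omega) hl'0 hl00 (by positivity)
    hVm hTm (fun a t ha hat => by
      have ht : 0 < t := lt_of_lt_of_le (by positivity) hat
      have hat' : a < t := by
        have : (2 : ℝ) ≤ K := by exact_mod_cast hK2
        nlinarith only [ha, hat, this]
      rw [hVe t ht, hTe a t ha hat']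
      refine (h1 a t ha hat).trans ((Q_absorb hC1 hml' ht).trans ?_)
      have h4 := hone t p1 ht (by omega)
      have h5 : C1 * (4 / (m - l' ^ 2)) ≤ C := by rw [hC]; linarith only [hP2, hP3]
      gcongr) (fun t ht => by
      rw [hVe t ht]
      refine (h2 t ht).trans ((Q_absorb (m' := l0 ^ 2) hC2 (by linarith only [hd2]) ht).trans ?_)
      have h4 := hone t p2 ht (by omega)
      have h5 : C2 * (4 / ((1 - 1 / 2) * l1 ^ 2 - l0 ^ 2)) ≤ C := by rw [hC]; linarith only [hP1, hP3]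
      gcongr) (fun a t ha hat => by
      have ht : 0 < t := ha.trans hat
      have hs : 0 < t - a := by linarith only [hat]
      rw [hTe a t ha hat]
      refine (hT a t ha hat).trans ?_
      have h4 : δ ^ 2 / (t - a) = (4 * δ ^ 2) / (4 * (t - a)) := by field_simp
      rw [h4]
      have h5 := absorb (m := 4 * δ ^ 2) (m' := l0 ^ 2) (by linarith only [hl0δ, hδ2]) hs
      have h6 : Real.exp (-(l0 ^ 2 / (4 * (t - a)))) ≤ Real.exp (-(l0 ^ 2 / (4 * t))) := by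
        have h7 : t - a ≤ t := by linarith only [ha]
        gcongr
      have h8 := hone t 0 ht (by omega)
      rw [pow_zero] at h8
      have h9 : CT * (4 / (4 * δ ^ 2 - l0 ^ 2)) ≤ C := by rw [hC]; linarith only [hP1, hP2]
      calc CT * (Real.exp (-(4 * δ ^ 2 / (4 * (t - a)))) / (t - a))
          ≤ CT * (4 / (4 * δ ^ 2 - l0 ^ 2) * Real.exp (-(l0 ^ 2 / (4 * (t - a))))) := by gcongr
        _ ≤ CT * (4 / (4 * δ ^ 2 - l0 ^ 2) * Real.exp (-(l0 ^ 2 / (4 * t)))) := by gcongr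
        _ = CT * (4 / (4 * δ ^ 2 - l0 ^ 2)) * 1 * Real.exp (-(l0 ^ 2 / (4 * t))) := by ring
        _ ≤ C * (1 + t) ^ p * Real.exp (-(l0 ^ 2 / (4 * t))) := by
          gcongr)
  refine ⟨c0, hc0, fun c hc hcc => ?_⟩
  obtain ⟨C', κ0, hκ0, h4⟩ := h3 c hc hcc
  refine ⟨|C'|, κ0, hκ0, fun κ hκ => ?_⟩
  have hκ' : 0 < κ := lt_of_lt_of_le hκ0 hκ
  have h5 := h4 κ hκ
  have e1 : PhiT V κ = PhiT (VM (us η1 η2) (hh d) (insert 0 O) E) κ := by
    unfold PhiT
    refine setIntegral_congr_fun measurableSet_Ioi fun t ht => ?_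
    rw [hVe t ht]
  have e2 : ∫ t in Set.Ioi (c / κ), Real.exp (-(κ ^ 2 * t)) * T (c / κ) t
      = ∫ t in Set.Ioi (c / κ), Real.exp (-(κ ^ 2 * t)) *
          TT3 η1 η2 d O E (d - 2 * δ) δ ζ1 ζ2 (c / κ) t := by
    refine setIntegral_congr_fun measurableSet_Ioi fun t ht => ?_
    rw [hTe _ t (by positivity) ht]
  rw [e1, e2] at h5
  refine h5.trans ?_
  have h6 : l - ε ≤ l' - ε / 2 := by
    have := le_max_left (l - ε / 2) (l / 2)
    linarith only [this]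
  calc C' * Real.exp (-(κ * (l' - ε / 2))) ≤ |C'| * Real.exp (-(κ * (l' - ε / 2))) := by
        gcongr
        exact le_abs_self _
    _ ≤ |C'| * Real.exp (-(κ * (l - ε))) := by gcongr

end Pool.Agent.H60K
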