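import Pool.Agent.Helper60_AEU.Asm2

/-!
AEU (MP_5b0138_an), Part III: the modules BMS, BMN, SPAN, NSP (helper60).
-/

namespace Pool.Agent.H60K

open MeasureTheory Complex Filter Topology ProbabilityTheory Pool.Agent.H16Iso Pool.Agent.H62T
  Pool.Agent.H16F Pool.Agent.H38KL
open scoped ENNReal NNReal

lemma hb_pos {η1 η2 d : ℝ} (h1 : 0 < η1) (h1' : η1 < Real.pi / 2) (h2 : 0 < η2)
    (h2' : η2 < Real.pi / 2) (hd : 0 < d) : 0 < hb η1 η2 d := by
  unfold hb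
  have c1 : 0 < Real.cos η1 := Real.cos_pos_of_mem_Ioo ⟨by linarith [Real.pi_pos], h1'⟩
  have c2 : 0 < Real.cos η2 := Real.cos_pos_of_mem_Ioo ⟨by linarith [Real.pi_pos], h2'⟩
  have s : 0 < Real.sin (η1 + η2) := Real.sin_pos_of_pos_of_lt_pi (by linarith) (by linarith)
  positivity

theorem bms (hLAB : LabStatement) (hBLV : BlvStatement) (hBLC : BlcStatement)
    (hREF : RefStatement) (hLDM : LdmStatement) (hHYE : HyeStatement) (hLPS : LpsStatement)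
    (hGES : GesStatement) (hLOC : LocStatement) : BmsStatement := by
  intro η1 η2 d ε h1 h1' h2 h2' hd hε
  have hH := hb_pos h1 h1' h2 h2' hd
  set H := hb η1 η2 d with hHd
  set ε1 : ℝ := min ε H / 2 with hε1
  have hm : 0 < min ε H := lt_min hε hH
  have hε10 : 0 < ε1 := by positivity
  have hε1H : 2 * ε1 ≤ H := by
    rw [hε1]
    have := min_le_right ε H
    linarith
  have hε1ε : 2 * ε1 ≤ ε := by
    rw [hε1]
    have := min_le_left ε H
    linarith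
  obtain ⟨ρ0, hρ0, hg⟩ := hGES η1 η2 d ε1 h1 h1' h2 h2' hd hε10
  obtain ⟨R, hR, hloc⟩ := hLOC η1 η2 d h1 h2 (by linarith) hd
  refine ⟨ρ0, hρ0, fun ρ hρ hρ' => ?_⟩
  obtain ⟨δ0, hδ0, hg⟩ := hg ρ hρ hρ'
  refine ⟨δ0, hδ0, fun δ hδ hδ' => ?_⟩
  have hg := fun (n : ℕ) [NeZero n] => hg δ hδ hδ' n
  have g : Geo η1 η2 d {1, 2} ∅ (2 * H - ε1) δ (d * Real.tan η1 - ρ) (d * Real.tan η2 - ρ) R :=
    { hO0 := by decide
      hE0 := by decide
      hOn := by decide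
      hOE := by decide
      hδ := hδ
      hl := by linarith
      hR := hR
      loc := fun n _ x A hV hC => (hloc n x A).1 h1' h2' hV hC
      g1 := fun n _ x A hn hV hC hS hL => (hg n x A hn).1 hV hC hS hL
      g2 := by
        intro n _ x A hn hB
        obtain ⟨k, -, -, -, l, -, -, hl⟩ := hB
        exact absurd (Finset.disjoint_empty_right _) hl
      g3 := by
        intro n _ x A hn hA hB hC hS _ hx
        rcases hB with hB | hB
        · obtain ⟨k, -, -, -, l, -, -, hl⟩ := hB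
          exact absurd (Finset.disjoint_empty_right _) hl
        · exact (hg n x A hn).2 hA hB hC hS hx }
  obtain ⟨c0, hc0, h3⟩ := asm hLAB hBLV hBLC hREF hLDM hHYE hLPS g hε10
  refine ⟨c0, hc0, fun c hc hcc => ?_⟩
  obtain ⟨C, κ0, hκ0, h4⟩ := h3 c hc hcc
  refine ⟨|C|, κ0, hκ0, fun κ hκ => (h4 κ hκ).trans ?_⟩
  have hκ' : 0 < κ := lt_of_lt_of_le hκ0 hκ
  have h5 : 2 * H - ε ≤ 2 * H - ε1 - ε1 := by linarith
  calc C * Real.exp (-(κ * (2 * H - ε1 - ε1))) ≤ |C| * Real.exp (-(κ * (2 * H - ε1 - ε1))) := by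
        gcongr
        exact le_abs_self _
    _ ≤ |C| * Real.exp (-(κ * (2 * H - ε))) := by gcongr

theorem bmn (hLAB : LabStatement) (hBLV : BlvStatement) (hBLC : BlcStatement)
    (hREF : RefStatement) (hLDM : LdmStatement) (hHYE : HyeStatement) (hLPS : LpsStatement)
    (hGEN : GenStatement) (hLOC : LocStatement) : BmnStatement := by
  intro η1 η2 d h1 h2 h12 hd
  have h1p : 0 < η1 := by linarith [Real.pi_pos]
  obtain ⟨ρ0, hρ0, hg⟩ := hGEN η1 η2 d h1 h2 h12 hd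
  obtain ⟨R, hR, hloc⟩ := hLOC η1 η2 d h1p h2 h12 hd
  refine ⟨ρ0, hρ0, fun ρ hρ hρ' => ?_⟩
  obtain ⟨e, δ0, he, hδ0, hg⟩ := hg ρ hρ hρ'
  refine ⟨e / 2, δ0, by positivity, hδ0, fun δ hδ hδ' => ?_⟩
  have hg := fun (n : ℕ) [NeZero n] => hg δ hδ hδ' n
  have g : Geo η1 η2 d {1} {2} (2 * d + e) δ ρ ρ R :=
    { hO0 := by decide
      hE0 := by decide
      hOn := by decide
      hOE := by decide
      hδ := hδ
      hl := by positivity
      hR := hR
      loc := fun n _ x A hV hC => (hloc n x A).2 h1 hV hC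
      g1 := fun n _ x A hn hV hC hS hL => (hg n x A hn).1 hV hC hS hL
      g2 := fun n _ x A hn hB hC hS hx hy => (hg n x A hn).2.1 hB hC hS hx hy
      g3 := fun n _ x A hn hA hB hC hS hx hy => (hg n x A hn).2.2 hA hB hC hS hx hy }
  obtain ⟨c0, hc0, h3⟩ := asm hLAB hBLV hBLC hREF hLDM hHYE hLPS g (half_pos he)
  refine ⟨c0, hc0, fun c hc hcc => ?_⟩
  obtain ⟨C, κ0, hκ0, h4⟩ := h3 c hc hcc
  refine ⟨C, κ0, hκ0, fun κ hκ => (h4 κ hκ).trans (le_of_eq ?_)⟩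
  have h5 : 2 * d + e - e / 2 = 2 * d + e / 2 := by ring
  rw [h5]

theorem span (hBMS : BmsStatement) (hFLS : FlsStatement) : SpanStatement := by
  intro η1 η2 d ε h1 h1' h2 h2' hd hε hc
  obtain ⟨ρ1, hρ1, H1⟩ := hBMS η1 η2 d ε h1 h1' h2 h2' hd hε
  obtain ⟨ρ2, hρ2, H2⟩ := hFLS η1 η2 d ε h1 h1' h2 h2' hd hε hc
  have hρ : 0 < min ρ1 ρ2 := lt_min hρ1 hρ2
  obtain ⟨δ1, hδ1, H1⟩ := H1 (min ρ1 ρ2 / 2) (by positivity)
    (by linarith [min_le_left ρ1 ρ2])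
  obtain ⟨δ2, hδ2, H2⟩ := H2 (min ρ1 ρ2 / 2) (by positivity)
    (by linarith [min_le_right ρ1 ρ2])
  have hδ : 0 < min δ1 δ2 := lt_min hδ1 hδ2
  obtain ⟨c1, hc1, H1⟩ := H1 (min δ1 δ2 / 2) (by positivity) (by linarith [min_le_left δ1 δ2])
  obtain ⟨c2, hc2, H2⟩ := H2 (min δ1 δ2 / 2) (by positivity) (by linarith [min_le_right δ1 δ2])
  have hc : 0 < min c1 c2 := lt_min hc1 hc2
  obtain ⟨C1, κ1, hκ1, H1⟩ := H1 (min c1 c2 / 2) (by positivity) (by linarith [min_le_left c1 c2])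
  obtain ⟨C2, κ2, hκ2, H2⟩ := H2 (min c1 c2 / 2) (by positivity)
    (by linarith [min_le_right c1 c2])
  refine ⟨C1 + C2, max κ1 κ2, lt_max_of_lt_left hκ1, fun κ hκ => ?_⟩
  have f1 := H1 κ ((le_max_left _ _).trans hκ)
  have f2 := H2 κ ((le_max_right _ _).trans hκ)
  refine (abs_sub_le _ _ _).trans ((add_le_add f1 f2).trans (le_of_eq ?_))
  ring

theorem nsp (hBMN : BmnStatement) (hFLN : FlnStatement) : NspStatement := by
  intro η1 η2 d h1 h2 h12 hd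
  obtain ⟨ρ1, hρ1, H1⟩ := hBMN η1 η2 d h1 h2 h12 hd
  obtain ⟨ρ2, hρ2, H2⟩ := hFLN η1 η2 d h1 h2 h12 hd
  have hρ : 0 < min ρ1 ρ2 := lt_min hρ1 hρ2
  obtain ⟨e1, δ1, he1, hδ1, H1⟩ := H1 (min ρ1 ρ2 / 2) (by positivity)
    (by linarith [min_le_left ρ1 ρ2])
  obtain ⟨e2, δ2, he2, hδ2, H2⟩ := H2 (min ρ1 ρ2 / 2) (by positivity)
    (by linarith [min_le_right ρ1 ρ2])
  have hδ : 0 < min δ1 δ2 := lt_min hδ1 hδ2
  obtain ⟨c1, hc1, H1⟩ := H1 (min δ1 δ2 / 2) (by positivity) (by linarith [min_le_left δ1 δ2])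
  obtain ⟨c2, hc2, H2⟩ := H2 (min δ1 δ2 / 2) (by positivity) (by linarith [min_le_right δ1 δ2])
  have hc : 0 < min c1 c2 := lt_min hc1 hc2
  obtain ⟨C1, κ1, hκ1, H1⟩ := H1 (min c1 c2 / 2) (by positivity) (by linarith [min_le_left c1 c2])
  obtain ⟨C2, κ2, hκ2, H2⟩ := H2 (min c1 c2 / 2) (by positivity)
    (by linarith [min_le_right c1 c2])
  refine ⟨min e1 e2, |C1| + |C2|, max κ1 κ2, lt_min he1 he2, lt_max_of_lt_left hκ1,
    fun κ hκ => ?_⟩
  have hκ' : 0 < κ := lt_of_lt_of_le (lt_max_of_lt_left hκ1) hκ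
  have f1 := H1 κ ((le_max_left _ _).trans hκ)
  have f2 := H2 κ ((le_max_right _ _).trans hκ)
  have g1 : C1 * Real.exp (-(κ * (2 * d + e1))) ≤ |C1| * Real.exp (-(κ * (2 * d + min e1 e2))) := by
    calc C1 * Real.exp (-(κ * (2 * d + e1))) ≤ |C1| * Real.exp (-(κ * (2 * d + e1))) := by
          gcongr
          exact le_abs_self _
      _ ≤ _ := by
          have := min_le_left e1 e2
          gcongr
  have g2 : C2 * Real.exp (-(κ * (2 * d + e2))) ≤ |C2| * Real.exp (-(κ * (2 * d + min e1 e2))) := by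
    calc C2 * Real.exp (-(κ * (2 * d + e2))) ≤ |C2| * Real.exp (-(κ * (2 * d + e2))) := by
          gcongr
          exact le_abs_self _
      _ ≤ _ := by
          have := min_le_right e1 e2
          gcongr
  refine (abs_sub_le _ _ _).trans ((add_le_add (f1.trans g1) (f2.trans g2)).trans (le_of_eq ?_))
  ring

end Pool.Agent.H60K
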