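import Pool.Agent.Helper16_Fine.Defs2
import Pool.Agent.Helper12_AEU.GermB
import Pool.Agent.Helper38_KL.Klf

/-!
AEU (MP_5b0138_an), Part III, types B, B', D: definitions (helper60).

Three half-planes `ip (u s) x < h s`, `s : Fin 3`, with unit normals. A loop *visits* `s` when it
leaves the open half-plane number `s`.
-/

namespace Pool.Agent.H60K

open MeasureTheory Complex Filter Topology ProbabilityTheory Pool.Agent.H16Iso Pool.Agent.H62T
  Pool.Agent.H16F Pool.Agent.H38KL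
open scoped ENNReal NNReal

/-! ### Macdonald functions -/

/-- superposition of plane waves; equals `Kit τ |z| * exp (τ * arg z)` in the right half-plane -/
noncomputable def pw (τ : ℝ) (z : ℂ) : ℝ :=
  1 / 2 * ∫ v : ℝ, Real.exp (-(z.re * Real.cosh v)) * Real.cos (z.im * Real.sinh v - τ * v)

/-- modified Bessel function of order `0` -/
noncomputable def I0 (x : ℝ) : ℝ :=
  1 / (2 * Real.pi) * ∫ φ in (0 : ℝ)..(2 * Real.pi), Real.exp (x * Real.cos φ)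

/-- mean value property of the solutions of `Δ v = κ² v` -/
def MVP (κ : ℝ) (W : Set ℂ) (v : ℂ → ℝ) : Prop :=
  ∀ (z : ℂ) (ρ : ℝ), 0 < ρ → Metric.closedBall z ρ ⊆ W →
    IntervalIntegrable (fun φ : ℝ => v (z + ρ * exp (φ * I))) volume 0 (2 * Real.pi) ∧
    ∫ φ in (0 : ℝ)..(2 * Real.pi), v (z + ρ * exp (φ * I)) = 2 * Real.pi * I0 (κ * ρ) * v z

/-- local smoothing property: `v` satisfies `e^{-sδ} G_δ * v = v + o(δ)` locally uniformly -/
def LMP (s : ℝ) (W : Set ℂ) (v : ℂ → ℝ) : Prop :=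
  ∀ K : Set ℂ, IsCompact K → K ⊆ W → ∃ r : ℝ, 0 < r ∧ (∀ z ∈ K, Metric.closedBall z r ⊆ W) ∧
    (∃ M : ℝ, ∀ z ∈ K, ∀ y ∈ Metric.closedBall z r, |v y| ≤ M) ∧
    ∀ ε : ℝ, 0 < ε → ∃ δ0 : ℝ, 0 < δ0 ∧ ∀ δ : ℝ, 0 < δ → δ < δ0 → ∀ z ∈ K,
      |v z - Real.exp (-(s * δ)) * ∫ y in Metric.ball z r, G δ (z - y) * v y| ≤ ε * δ

/-! ### Kernels with labels -/

/-- intersection of the half-planes with labels in `B` -/
def Dm (u : Fin 3 → ℂ) (h : Fin 3 → ℝ) (B : Finset (Fin 3)) : Set ℂ :=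
  {x | ∀ s ∈ B, ip (u s) x < h s}

/-- heat kernel of paths which visit no label in `B` -/
noncomputable def pB (u : Fin 3 → ℂ) (h : Fin 3 → ℝ) (B : Finset (Fin 3)) (t : ℝ) (x y : ℂ) : ℝ :=
  pD (Dm u h B) t x y

/-- heat kernel of paths which visit exactly the labels in `A` -/
noncomputable def kA (u : Fin 3 → ℂ) (h : Fin 3 → ℝ) (A : Finset (Fin 3)) (t : ℝ) (x y : ℂ) : ℝ :=
  ∑ B ∈ A.powerset, (-1 : ℝ) ^ B.card * pB u h (Aᶜ ∪ B) t x y

/-- heat kernel of paths which visit all labels in `M` and none in `E` -/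
noncomputable def kME (u : Fin 3 → ℂ) (h : Fin 3 → ℝ) (M E : Finset (Fin 3)) (t : ℝ) (x y : ℂ) : ℝ :=
  ∑ B ∈ M.powerset, (-1 : ℝ) ^ B.card * pB u h (E ∪ B) t x y

/-- reflection in the line number `s` -/
noncomputable def rf (u : Fin 3 → ℂ) (h : Fin 3 → ℝ) (s : Fin 3) (y : ℂ) : ℂ :=
  y - ((2 * (ip (u s) y - h s) : ℝ) : ℂ) * u s

open Classical in
/-- length of the shortest path from `x` to `y` which visits `s` -/
noncomputable def dd (u : Fin 3 → ℂ) (h : Fin 3 → ℝ) (s : Fin 3) (x y : ℂ) : ℝ :=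
  if ip (u s) x < h s ∧ ip (u s) y < h s then ‖x - rf u h s y‖ else ‖x - y‖

/-- length attributed to a block from `x` to `y` with label `A` -/
noncomputable def bl (u : Fin 3 → ℂ) (h : Fin 3 → ℝ) (A : Finset (Fin 3)) (x y : ℂ) : ℝ :=
  Finset.univ.sup' Finset.univ_nonempty (fun s : Fin 3 => if s ∈ A then dd u h s x y else ‖x - y‖)

/-- mass of the loops of duration `t` which visit all labels in `M` and none in `E` -/
noncomputable def VM (u : Fin 3 → ℂ) (h : Fin 3 → ℝ) (M E : Finset (Fin 3)) (t : ℝ) : ℝ :=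
  ∫ x, kME u h M E t x x

/-! ### Blocks -/

/-- density of the loops cut into `n` blocks -/
noncomputable def wt {n : ℕ} [NeZero n] (u : Fin 3 → ℂ) (h : Fin 3 → ℝ) (τ : Fin n → ℝ)
    (x : Fin n → ℂ) (A : Fin n → Finset (Fin 3)) : ℝ :=
  ∏ j, kA u h (A j) (τ j) (x j) (x (j + 1))

open Classical in
/-- mass of a set of configurations -/
noncomputable def Ms {n : ℕ} [NeZero n] (u : Fin 3 → ℂ) (h : Fin 3 → ℝ) (τ : Fin n → ℝ)
    (S : (Fin n → ℂ) → (Fin n → Finset (Fin 3)) → Prop) : ℝ≥0∞ :=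
  ∑ A, ∫⁻ x, if S x A then ENNReal.ofReal (wt u h τ x A) else 0

/-- all labels in `M` are visited and none in `E` -/
def Vis {n : ℕ} (M E : Finset (Fin 3)) (A : Fin n → Finset (Fin 3)) : Prop :=
  (∀ s ∈ M, ∃ j, s ∈ A j) ∧ ∀ j, Disjoint (A j) E

/-- `0` is visited in block `k` after block `j`, and all labels in `O` in later blocks before the
return to block `j` -/
def Fj {n : ℕ} [NeZero n] (O : Finset (Fin 3)) (A : Fin n → Finset (Fin 3)) (j : Fin n) : Prop :=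
  ∃ k : ℕ, 0 < k ∧ k < n ∧ 0 ∈ A (j + Fin.ofNat n k) ∧
    ∀ s ∈ O, ∃ l : ℕ, k < l ∧ l < n ∧ s ∈ A (j + Fin.ofNat n l)

/-- there is no cyclic pattern `0, s, 0, s'` with `O ⊆ {s, s'}` -/
def NoAlt {n : ℕ} [NeZero n] (O : Finset (Fin 3)) (A : Fin n → Finset (Fin 3)) : Prop :=
  ∀ (j : Fin n) (a b c : ℕ) (s s' : Fin 3), 0 < a → a < b → b < c → c < n → s ∈ O → s' ∈ O →
    O ⊆ {s, s'} → 0 ∈ A j → s ∈ A (j + Fin.ofNat n a) → 0 ∈ A (j + Fin.ofNat n b) →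
    s' ∉ A (j + Fin.ofNat n c)

/-- cut-off function -/
noncomputable def ch (ξ1 : ℝ) (x : ℂ) : ℝ := if ξ1 ≤ x.re then 1 else 0

/-- the cut-off is adapted to the visits -/
def Adp {n : ℕ} [NeZero n] (O : Finset (Fin 3)) (ξ1 : ℝ) (x : Fin n → ℂ)
    (A : Fin n → Finset (Fin 3)) : Prop :=
  (∀ j, 0 ∈ A j → ξ1 ≤ (x j).re ∧ ξ1 ≤ (x (j + 1)).re) ∧
    ∀ j, ∀ s ∈ O, s ∈ A j → (x j).re < ξ1 ∧ (x (j + 1)).re < ξ1

/-! ### The standard configuration -/

/-- unit normals: `0` is the line `re = d`, `1` and `2` pass through the vertex `0` in the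
directions `exp (i η1)` and `exp (- i η2)` -/
noncomputable def us (η1 η2 : ℝ) (s : Fin 3) : ℂ :=
  if s = 0 then 1 else if s = 1 then I * exp (η1 * I) else -(I * exp (-(η2 * I)))

/-- support numbers -/
noncomputable def hh (d : ℝ) (s : Fin 3) : ℝ := if s = 0 then d else 0

/-- a window near the foot of the altitude -/
def Rw (ξ1 δ ζ1 ζ2 : ℝ) : Set ℂ := {x | |x.re - ξ1| < δ ∧ -ζ2 < x.im ∧ x.im < ζ1}

/-- the flux through the window in a block of duration `a` -/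
noncomputable def TT3 (η1 η2 d : ℝ) (O E : Finset (Fin 3)) (ξ1 δ ζ1 ζ2 a t : ℝ) : ℝ :=
  ∫ x in Rw ξ1 δ ζ1 ζ2, ∫ y in Rw ξ1 δ ζ1 ζ2, G a (x - y) * (ch ξ1 y - ch ξ1 x)
    * kME (us η1 η2) (hh d) O E (t - a) (rf (us η1 η2) (hh d) 0 y) x

/-- Laplace transform used for the germs -/
noncomputable def PhiT (F : ℝ → ℝ) (κ : ℝ) : ℝ :=
  ∫ t in Set.Ioi (0 : ℝ), Real.exp (-(κ ^ 2 * t)) * F t / t

/-- main term of the spanning case -/
noncomputable def FS (η1 η2 d κ : ℝ) : ℝ :=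
  2 / Real.pi * ∫ τ in Set.Ioi (0 : ℝ),
    (Real.sinh ((2 * (η1 + η2) - Real.pi) * τ) / Real.sinh ((η1 + η2) * τ)
        * Real.cosh ((η1 - η2) * τ) * Kit 0 (2 * κ * d)
      + Real.sinh ((Real.pi - (η1 + η2)) * τ) / Real.sinh ((η1 + η2) * τ)
        * Kit (2 * τ) (2 * κ * d))

/-- main term of the nonspanning case -/
noncomputable def FN (η1 η2 d κ : ℝ) : ℝ :=
  2 / Real.pi * ∫ τ in Set.Ioi (0 : ℝ),
    Real.sinh ((Real.pi - (η1 + η2)) * τ) / Real.sinh ((η1 + η2) * τ)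
      * (Real.cosh (2 * η2 * τ) * Kit 0 (2 * κ * d) - Kit (2 * τ) (2 * κ * d))

end Pool.Agent.H60K
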