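import Pool.Agent.Helper60_AEU.Stmt
import Pool.Agent.Helper25_AEU3.Vex
import Pool.Agent.Helper35_AEU.DefsMain
import Pool.Agent.Helper62_AEU.Exp
import Pool.Agent.Helper60_TRI.Tvol

/-!
AEU (MP_5b0138_an), Part III: from the masses of loops to the contributions of triples of sides
(helper60).
-/

namespace Pool.Agent.H60K

open MeasureTheory Complex Filter Topology ProbabilityTheory Pool.Agent.H16Iso Pool.Agent.H62T
  Pool.Agent.H16F Pool.Agent.H38KL
open scoped ENNReal NNReal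

/-- area of a corner cut off by a line -/
lemma vol_corner {w1 w2 w3 : ℂ} {p q : ℝ} (hp : 0 < p) (hq : 0 < q) (h1 : ‖w1‖ = 1)
    (h2 : ‖w2‖ = 1) (h3 : ‖w3‖ = 1) (hw : ∀ x, ip w3 x = -(p * ip w1 x) - q * ip w2 x)
    (hd : dt w1 w2 ≠ 0) (a1 a2 a3 : ℝ) :
    volume {x : ℂ | a1 < ip w1 x ∧ a2 < ip w2 x ∧ a3 < ip w3 x}
      = ENNReal.ofReal ((max (-(p * a1 + q * a2 + a3)) 0) ^ 2 / (2 * p * q * |dt w1 w2|)) := by
  have e1 : ({x : ℂ | a1 < ip w1 x ∧ a2 < ip w2 x ∧ a3 < ip w3 x} : Set ℂ)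
      =ᵐ[volume] {x : ℂ | a1 ≤ ip w1 x ∧ a2 ≤ ip w2 x ∧ a3 ≤ ip w3 x} := by
    have n1 : ∀ᵐ x : ℂ, ip w1 x ≠ a1 := by
      rw [ae_iff]
      simpa using H60.volume_line w1 h1 a1
    have n2 : ∀ᵐ x : ℂ, ip w2 x ≠ a2 := by
      rw [ae_iff]
      simpa using H60.volume_line w2 h2 a2
    have n3 : ∀ᵐ x : ℂ, ip w3 x ≠ a3 := by
      rw [ae_iff]
      simpa using H60.volume_line w3 h3 a3
    filter_upwards [n1, n2, n3] with x m1 m2 m3
    apply propext
    show (a1 < ip w1 x ∧ a2 < ip w2 x ∧ a3 < ip w3 x) ↔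
      (a1 ≤ ip w1 x ∧ a2 ≤ ip w2 x ∧ a3 ≤ ip w3 x)
    constructor
    · rintro ⟨b1, b2, b3⟩
      exact ⟨b1.le, b2.le, b3.le⟩
    · rintro ⟨b1, b2, b3⟩
      exact ⟨lt_of_le_of_ne b1 m1.symm, lt_of_le_of_ne b2 m2.symm, lt_of_le_of_ne b3 m3.symm⟩
  rw [measure_congr e1]
  set B : ℂ := ⟨p * w1.re, q * w2.re⟩ with hB
  set C : ℂ := ⟨p * w1.im, q * w2.im⟩ with hC
  have hl : ∀ x : ℂ, H60.lin B C x = ⟨p * ip w1 x, q * ip w2 x⟩ := by
    intro x
    rw [H60.lin_apply]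
    apply Complex.ext
    · simp [hB, hC, ip]
      ring
    · simp [hB, hC, ip]
      ring
  have hdet : LinearMap.det (H60.lin B C) = p * q * dt w1 w2 := by
    rw [H60.det_lin]
    simp only [dt, hB, hC]
    ring
  have hset : {x : ℂ | a1 ≤ ip w1 x ∧ a2 ≤ ip w2 x ∧ a3 ≤ ip w3 x}
      = H60.lin B C ⁻¹' {z : ℂ | p * a1 ≤ z.re ∧ q * a2 ≤ z.im ∧ z.re + z.im ≤ 1 - (1 + a3)} := by
    ext x
    simp only [Set.mem_ofPred_eq, Set.mem_preimage, hl]
    rw [mul_le_mul_iff_right₀ hp, mul_le_mul_iff_right₀ hq, hw x]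
    refine and_congr Iff.rfl (and_congr Iff.rfl ?_)
    constructor <;> intro h <;> linarith
  have hne : LinearMap.det (H60.lin B C) ≠ 0 := by
    rw [hdet]
    positivity
  rw [hset, Measure.addHaar_preimage_linearMap _ hne, H60.volume_simplex, hdet,
    ← ENNReal.ofReal_mul (abs_nonneg _)]
  congr 1
  rw [abs_inv, abs_mul, abs_mul, abs_of_pos hp, abs_of_pos hq]
  have hd' : 0 < |dt w1 w2| := abs_pos.2 hd
  have e2 : 1 - (1 + a3 + p * a1 + q * a2) = -(p * a1 + q * a2 + a3) := by ring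
  rw [e2]
  field_simp

/-- the mass of loops, when the area is known -/
lemma vexT (hVEX : VexStatement) (u : Fin 3 → ℂ) (h : Fin 3 → ℝ) (M E : Finset (Fin 3)) (t : ℝ)
    (hu : ∀ s, ‖u s‖ = 1) (hME : Disjoint M E) (ht : 0 < t) (f : Sp → ℝ) (hf0 : ∀ ω, 0 ≤ f ω)
    (hf : Integrable f PP)
    (hvol : ∀ ω, volume {x : ℂ | (∀ s ∈ M, h s < ip (u s) x + Real.sqrt t * hs ω (u s)) ∧
      ∀ s ∈ E, ip (u s) x + Real.sqrt t * hs ω (u s) < h s} = ENNReal.ofReal (f ω)) :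
    VM u h M E t = 1 / (4 * Real.pi * t) * ∫ ω, f ω ∂PP := by
  have hG : G t 0 = 1 / (4 * Real.pi * t) := by
    unfold G
    simp
  have hGpos : 0 < G t 0 := by rw [hG]; have := Real.pi_pos; positivity
  have hm2 := H25.measurableSet_SS2 u h M E t
  have hmeas : Measurable (fun x => PP (H25.SS u h M E t x)) := measurable_measure_prodMk_left hm2
  have hfun : (fun x => kME u h M E t x x) = fun x => G t 0 * (PP (H25.SS u h M E t x)).toReal :=
    funext fun x => H25.kME_diag u h M E ht x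
  have hlin : ∫⁻ x, PP (H25.SS u h M E t x)
      = ∫⁻ ω, volume {x : ℂ | ω ∈ H25.SS u h M E t x} ∂PP := by
    have a1 := Measure.prod_apply (μ := (volume : Measure ℂ)) (ν := PP) hm2
    have a2 := Measure.prod_apply_symm (μ := (volume : Measure ℂ)) (ν := PP) hm2
    rw [a1] at a2
    exact a2
  have hfin : ∫⁻ x, PP (H25.SS u h M E t x) < ⊤ := by
    rw [hlin]
    have e : ∫⁻ ω, volume {x : ℂ | ω ∈ H25.SS u h M E t x} ∂PP
        = ∫⁻ ω, ENNReal.ofReal (f ω) ∂PP := by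
      refine lintegral_congr_ae ?_
      filter_upwards [H41.ae_bdd osc_stmt] with ω hω
      obtain ⟨R, hR⟩ := hω
      rw [← hvol ω]
      apply measure_congr
      have hnull : ∀ᵐ x : ℂ, ∀ s : Fin 3, ip (u s) x ≠ h s - Real.sqrt t * hs ω (u s) := by
        rw [ae_all_iff]
        intro s
        rw [ae_iff]
        simp only [not_not]
        exact H60.volume_line (u s) (hu s) _
      filter_upwards [hnull] with x hx
      apply propext
      show (∀ s ∈ M, ω ∉ H8.AE (H25.Hs u h s) t x) ∧ (∀ s ∈ E, ω ∈ H8.AE (H25.Hs u h s) t x) ↔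
        (∀ s ∈ M, h s < ip (u s) x + Real.sqrt t * hs ω (u s)) ∧
          ∀ s ∈ E, ip (u s) x + Real.sqrt t * hs ω (u s) < h s
      refine and_congr (forall₂_congr fun s _ => ?_) (forall₂_congr fun s _ => ?_)
      · rw [H25.mem_AE_iff ht hR (hx s), not_lt]
        refine ⟨fun h1 => lt_of_le_of_ne h1 fun hc => hx s (by linarith), fun h1 => h1.le⟩
      · exact H25.mem_AE_iff ht hR (hx s)
    rw [e]
    exact hf.lintegral_lt_top
  have hint : Integrable (fun x => kME u h M E t x x) := by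
    rw [hfun]
    refine Integrable.const_mul ?_ _
    exact integrable_toReal_of_lintegral_ne_top hmeas.aemeasurable hfin.ne
  rw [hVEX u h M E t hu hME ht hint, hG]
  congr 1
  refine integral_congr_ae (Eventually.of_forall fun ω => ?_)
  show (volume _).toReal = f ω
  rw [hvol ω, ENNReal.toReal_ofReal (hf0 ω)]

end Pool.Agent.H60K
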