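import Pool.Agent.Helper60_AEU.Gb2

/-!
AEU (MP_5b0138_an), Part III: the germs of types B, B', D (helper60).
-/

namespace Pool.Agent.H60K

open MeasureTheory Complex Filter Topology ProbabilityTheory Pool.Agent.H16Iso Pool.Agent.H62T
  Pool.Agent.H16F Pool.Agent.H38KL
open scoped ENNReal NNReal

/-- rotation by `w` -/
noncomputable def Lr (w : ℂ) (hw : ‖w‖ = 1) : ℂ ≃ₗᵢ[ℝ] ℂ :=
  rotation ⟨w, mem_sphere_zero_iff_norm.2 hw⟩

lemma Lr_apply (w : ℂ) (hw : ‖w‖ = 1) (x : ℂ) : Lr w hw x = w * x := by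
  unfold Lr
  rw [rotation_apply]

/-- reflection followed by the rotation by `w` -/
noncomputable def Lc (w : ℂ) (hw : ‖w‖ = 1) : ℂ ≃ₗᵢ[ℝ] ℂ := conjLIE.trans (Lr w hw)

lemma Lc_apply (w : ℂ) (hw : ‖w‖ = 1) (x : ℂ) : Lc w hw x = w * (starRingEnd ℂ) x := by
  unfold Lc
  rw [LinearIsometryEquiv.trans_apply, Lr_apply, conjLIE_apply]

section

variable (z : ℂ) (α η : ℝ)

/-- first normal -/
noncomputable def n1 : ℂ := z * exp (-(Real.pi - α) * I)

/-- third normal -/
noncomputable def n3 : ℂ := z * I * exp (η * I)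

variable {z} {α η}

lemma n1_eq : n1 z α = z * -exp (α * I) := by
  unfold n1
  congr 1
  have h : (-((Real.pi : ℂ) - α)) * I = α * I - Real.pi * I := by ring
  rw [h, Complex.exp_sub, Complex.exp_pi_mul_I]
  ring

lemma n3_eq : n3 z η = z * (I * exp (η * I)) := by
  unfold n3
  ring

lemma norm_e (a : ℝ) : ‖exp (a * I)‖ = 1 := norm_exp_ofReal_mul_I a

lemma norm_n1 (hz : ‖z‖ = 1) : ‖n1 z α‖ = 1 := by
  rw [n1_eq, norm_mul, norm_neg, norm_e, hz, one_mul]

lemma norm_n3 (hz : ‖z‖ = 1) : ‖n3 z η‖ = 1 := by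
  rw [n3_eq, norm_mul, norm_mul, norm_I, norm_e, hz, one_mul, one_mul]

lemma dt_mul (z a b : ℂ) : dt (z * a) (z * b) = (z.re ^ 2 + z.im ^ 2) * dt a b := by
  unfold dt
  simp only [mul_re, mul_im]
  ring

lemma nz (hz : ‖z‖ = 1) : z.re ^ 2 + z.im ^ 2 = 1 := by
  have h := Complex.normSq_eq_norm_sq z
  rw [Complex.normSq_apply, hz] at h
  nlinarith

lemma dt12 (hz : ‖z‖ = 1) : dt (n1 z α) z = Real.sin α := by
  have h : dt (n1 z α) z = dt (n1 z α) (z * 1) := by rw [mul_one]
  rw [h, n1_eq, dt_mul, nz hz]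
  unfold dt
  simp [exp_ofReal_mul_I_re, exp_ofReal_mul_I_im]

lemma dt23 (hz : ‖z‖ = 1) : dt z (n3 z η) = Real.cos η := by
  have h : dt z (n3 z η) = dt (z * 1) (n3 z η) := by rw [mul_one]
  rw [h, n3_eq, dt_mul, nz hz]
  unfold dt
  simp [exp_ofReal_mul_I_re, exp_ofReal_mul_I_im]

lemma dt31 (hz : ‖z‖ = 1) : dt (n3 z η) (n1 z α) = Real.cos (α - η) := by
  rw [n1_eq, n3_eq, dt_mul, nz hz, Real.cos_sub]
  unfold dt
  simp [exp_ofReal_mul_I_re, exp_ofReal_mul_I_im]
  ring

end

lemma us0 (η1 η2 : ℝ) : us η1 η2 0 = 1 := by simp [us]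
lemma us1 (η1 η2 : ℝ) : us η1 η2 1 = I * exp (η1 * I) := by simp [us]
lemma us2 (η1 η2 : ℝ) : us η1 η2 2 = -(I * exp (-(η2 * I))) := by simp [us]

lemma L1 {z : ℂ} {α η : ℝ} : n3 z η * (I * exp (((α - η : ℝ) : ℂ) * I)) = n1 z α := by
  rw [n1_eq, n3_eq]
  have h : exp ((α : ℂ) * I) = exp (η * I) * exp (((α - η : ℝ) : ℂ) * I) := by
    rw [← Complex.exp_add]
    congr 1
    push_cast
    ring
  rw [h]
  linear_combination (z * exp (η * I) * exp (((α - η : ℝ) : ℂ) * I)) * Complex.I_mul_I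

lemma L2 {z : ℂ} {η : ℝ} : n3 z η * -(I * exp (-(η * I))) = z := by
  rw [n3_eq]
  have h : exp ((η : ℂ) * I) * exp (-(η * I)) = 1 := by
    rw [← Complex.exp_add]
    simp
  linear_combination (-z * (I * I)) * h - z * Complex.I_mul_I

lemma conj_e (a : ℝ) : (starRingEnd ℂ) (exp (a * I)) = exp (-(a * I)) := by
  rw [← Complex.exp_conj]
  congr 1
  simp

lemma L3 {z : ℂ} {η : ℝ} : n3 z η * (starRingEnd ℂ) (I * exp (η * I)) = z := by
  rw [map_mul, conj_I, conj_e]
  have := L2 (z := z) (η := η)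
  linear_combination this

lemma L4 {z : ℂ} {α η : ℝ} :
    n3 z η * (starRingEnd ℂ) (-(I * exp (-(((α - η : ℝ) : ℂ) * I)))) = n1 z α := by
  have h : -(((α - η : ℝ) : ℂ) * I) = (((-(α - η) : ℝ)) : ℂ) * I := by push_cast; ring
  rw [map_neg, map_mul, conj_I, h, conj_e]
  have h2 : -((((-(α - η) : ℝ)) : ℂ) * I) = ((α - η : ℝ) : ℂ) * I := by push_cast; ring
  rw [h2]
  have := L1 (z := z) (α := α) (η := η)
  linear_combination this

lemma TB_symm (d α η κ : ℝ) (hα : α ≠ 0) :
    AEU.H12.TB d (Real.pi / α) (α - η) κ = AEU.H12.TB d (Real.pi / α) η κ := by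
  unfold AEU.H12.TB AEU.H12.Ceta
  have h : Real.cos (2 * (Real.pi / α) * (α - η)) = Real.cos (2 * (Real.pi / α) * η) := by
    have h1 : 2 * (Real.pi / α) * (α - η) = 2 * Real.pi - 2 * (Real.pi / α) * η := by
      field_simp
    rw [h1, Real.cos_two_pi_sub]
  rw [h]

lemma hb_gt {η1 η2 d : ℝ} (hd : 0 < d) (c1 : 0 < Real.cos η1) (c2 : 0 < Real.cos η2)
    (h1 : Real.cos η1 < Real.sin (η1 + η2)) (h2 : Real.cos η2 < Real.sin (η1 + η2)) :
    d < hb η1 η2 d := by
  unfold hb
  refine lt_min ?_ ?_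
  · rw [div_mul_eq_mul_div, lt_div_iff₀ c1]
    exact mul_lt_mul_of_pos_left h1 hd
  · rw [div_mul_eq_mul_div, lt_div_iff₀ c2]
    exact mul_lt_mul_of_pos_left h2 hd

/-- the common part of the spanning cases -/
lemma span_small (hSPAN : SpanStatement) (hINV : InvStatement) (hVEX : VexStatement)
    {z : ℂ} {α η d : ℝ} (hz : ‖z‖ = 1) (hα : α < Real.pi) (hη : 0 < η) (hη' : η < Real.pi / 2)
    (hαη : 0 < α - η) (hαη' : α - η < Real.pi / 2) (hd : 0 < d)
    (hc : |2 * α - Real.pi| + |α - η - η| < α) (hs1 : Real.cos (α - η) < Real.sin α)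
    (hs2 : Real.cos η < Real.sin α) :
    AEU.Small (2 * d) fun κ => AEU.Lap (AEU.EZ (n1 z α) z (n3 z η) (Real.sin α * d)) κ
      + FS (α - η) η d κ := by
  have c1 : 0 < Real.cos (α - η) := Real.cos_pos_of_mem_Ioo ⟨by linarith [Real.pi_pos], hαη'⟩
  have c2 : 0 < Real.cos η := Real.cos_pos_of_mem_Ioo ⟨by linarith [Real.pi_pos], hη'⟩
  have hsum : α - η + η = α := by ring
  have hH : d < hb (α - η) η d := hb_gt hd c1 c2 (by rwa [hsum]) (by rwa [hsum])
  obtain ⟨C, κ0, hκ0, h⟩ := hSPAN (α - η) η d (hb (α - η) η d - d) hαη hαη' hη hη' hd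
    (by linarith) (by rw [hsum]; exact hc)
  refine ⟨C, hb (α - η) η d - d, by linarith, ?_⟩
  filter_upwards [eventually_ge_atTop κ0] with κ hκ
  have h1 := h κ hκ
  have h2 := lap_span hVEX hINV (η1 := α - η) (η2 := η) (d := d) (u1 := n1 z α) (u2 := z)
    (u3 := n3 z η) (Lr (n3 z η) (norm_n3 hz))
    (by rw [Lr_apply, us0, mul_one]) (by rw [Lr_apply, us1]; exact L1)
    (by rw [Lr_apply, us2]; exact L2) (norm_n1 hz) hz (norm_n3 hz)
    (by rw [dt12 hz]; exact Real.sin_pos_of_pos_of_lt_pi (by linarith) hα)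
    (by rw [dt23 hz]; exact c2) (by rw [dt31 hz]; exact c1) κ
  rw [dt12 hz] at h2
  rw [h2]
  have h3 : -PhiT (VM (us (α - η) η) (hh d) {0, 1, 2} ∅) κ + FS (α - η) η d κ
      = -(PhiT (VM (us (α - η) η) (hh d) {0, 1, 2} ∅) κ - FS (α - η) η d κ) := by ring
  rw [h3, abs_neg]
  refine h1.trans (le_of_eq ?_)
  congr 2
  ring

theorem germB (hSPAN : SpanStatement) (hNSP : NspStatement) (hFIN : FinStatement)
    (hINV : InvStatement) (hVEX : VexStatement) : AEU.GermBStmt := by
  intro z α η d hz hα hα' hη hηα hne1 hne2 hd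
  have hs : 0 < Real.sin α := Real.sin_pos_of_pos_of_lt_pi (by linarith [Real.pi_pos]) hα'
  have hα0 : α ≠ 0 := by linarith [Real.pi_pos]
  show AEU.Small (2 * d) fun κ => AEU.Lap (AEU.EZ (n1 z α) z (n3 z η) (Real.sin α * d)) κ
      - AEU.germB d α η κ
  unfold AEU.germB
  have hsum : α - η + η = α := by ring
  rcases lt_or_gt_of_ne hne1 with h1 | h1
  · rcases lt_or_gt_of_ne hne2 with h2 | h2
    · -- spanning
      have hs1 : Real.cos (α - η) < Real.sin α := by
        rw [← Real.sin_pi_div_two_sub, ← Real.sin_pi_sub α]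
        exact Real.sin_lt_sin_of_lt_of_le_pi_div_two (by linarith) (by linarith) (by linarith)
      have hs2 : Real.cos η < Real.sin α := by
        rw [← Real.sin_pi_div_two_sub, ← Real.sin_pi_sub α]
        exact Real.sin_lt_sin_of_lt_of_le_pi_div_two (by linarith) (by linarith) (by linarith)
      obtain ⟨C, δ, hδ, h⟩ := span_small hSPAN hINV hVEX hz hα' hη h1 (by linarith) h2 hd (by
        rw [abs_of_pos (by linarith : 0 < 2 * α - Real.pi)]
        rcases abs_cases (α - η - η) with ⟨h3, -⟩ | ⟨h3, -⟩ <;> rw [h3] <;> linarith) hs1 hs2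
      refine ⟨C, δ, hδ, ?_⟩
      filter_upwards [h, eventually_gt_atTop 0] with κ hκ hκ0
      have h3 := hFIN.1 (α - η) η d κ (by linarith) h2 hη h1 hd hκ0 (by linarith)
      rw [hsum] at h3
      rw [h3] at hκ
      rw [sub_eq_add_neg]
      exact hκ
    · -- nonspanning
      obtain ⟨e, C, κ0, he, hκ0, h⟩ := hNSP (α - η) η d h2 hη (by linarith) hd
      refine ⟨C, e, he, ?_⟩
      filter_upwards [eventually_ge_atTop κ0] with κ hκ
      have hκ' : 0 < κ := lt_of_lt_of_le hκ0 hκ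
      have h3 := h κ hκ
      have h4 := hFIN.2.2 (α - η) η d κ h2 hη (by linarith) hd hκ'
      rw [hsum] at h4
      rw [h4] at h3
      have c2 : 0 < Real.cos η := Real.cos_pos_of_mem_Ioo ⟨by linarith [Real.pi_pos], h1⟩
      have c1 : Real.cos (α - η) < 0 := Real.cos_neg_of_pi_div_two_lt_of_lt h2 (by linarith)
      have h5 := lap_nsp hVEX hINV (η1 := α - η) (η2 := η) (v1 := n1 z α) (v2 := z)
        (d := d) (u1 := n1 z α) (u2 := z) (u3 := n3 z η)
        (p := Real.cos η / Real.sin α) (q := -Real.cos (α - η) / Real.sin α)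
        (Lr (n3 z η) (norm_n3 hz))
        (by rw [Lr_apply, us0, mul_one]) (by rw [Lr_apply, us1]; exact L1)
        (by rw [Lr_apply, us2]; exact L2) (norm_n1 hz) hz (norm_n3 hz)
        (by rw [dt12 hz]; exact hs) (by positivity)
        (by have : 0 < -Real.cos (α - η) := by linarith
            positivity)
        (by rw [dt12 hz, abs_of_pos hs])
        (by unfold AEU.pr
            rw [dt12 hz, dt23 hz, dt31 hz]
            field_simp)
        (fun x => by
          have := dep3 (n1 z α) z (n3 z η) x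
          rw [dt12 hz, dt23 hz, dt31 hz] at this
          field_simp
          linarith)
        (fun k => by
          unfold AEU.DD
          rw [dt12 hz, dt23 hz, dt31 hz]
          field_simp
          ring) κ
      rw [dt12 hz] at h5
      rw [h5]
      refine h3.trans (le_of_eq ?_)
      congr 2
      ring
  · -- the mirror image of the nonspanning case
    have h2 : α - η < Real.pi / 2 := by linarith
    have hsum' : η + (α - η) = α := by ring
    obtain ⟨e, C, κ0, he, hκ0, h⟩ := hNSP η (α - η) d h1 (by linarith) (by linarith) hd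
    refine ⟨C, e, he, ?_⟩
    filter_upwards [eventually_ge_atTop κ0] with κ hκ
    have hκ' : 0 < κ := lt_of_lt_of_le hκ0 hκ
    have h3 := h κ hκ
    have h4 := hFIN.2.2 η (α - η) d κ h1 (by linarith) (by linarith) hd hκ'
    rw [hsum', TB_symm d α η κ hα0] at h4
    rw [h4] at h3
    have c1 : 0 < Real.cos (α - η) :=
      Real.cos_pos_of_mem_Ioo ⟨by linarith [Real.pi_pos], h2⟩
    have c2 : Real.cos η < 0 := Real.cos_neg_of_pi_div_two_lt_of_lt h1 (by linarith)
    have h5 := lap_nsp hVEX hINV (η1 := η) (η2 := α - η) (v1 := z) (v2 := n1 z α)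
      (d := d) (u1 := n1 z α) (u2 := z) (u3 := n3 z η)
      (p := Real.cos (α - η) / Real.sin α) (q := -Real.cos η / Real.sin α)
      (Lc (n3 z η) (norm_n3 hz))
      (by rw [Lc_apply, us0, map_one, mul_one]) (by rw [Lc_apply, us1]; exact L3)
      (by rw [Lc_apply, us2]; exact L4) hz (norm_n1 hz) (norm_n3 hz)
      (by rw [dt12 hz]; exact hs) (by positivity)
      (by have : 0 < -Real.cos η := by linarith
          positivity)
      (by
        have : dt z (n1 z α) = -dt (n1 z α) z := by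
          unfold dt
          ring
        rw [this, abs_neg, dt12 hz, abs_of_pos hs])
      (by unfold AEU.pr
          rw [dt12 hz, dt23 hz, dt31 hz]
          field_simp)
      (fun x => by
        have := dep3 (n1 z α) z (n3 z η) x
        rw [dt12 hz, dt23 hz, dt31 hz] at this
        field_simp
        linarith)
      (fun k => by
        unfold AEU.DD
        rw [dt12 hz, dt23 hz, dt31 hz]
        field_simp
        ring) κ
    rw [dt12 hz] at h5
    rw [h5]
    refine h3.trans (le_of_eq ?_)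
    congr 2
    ring

theorem germB' (hSPAN : SpanStatement) (hFIN : FinStatement)
    (hINV : InvStatement) (hVEX : VexStatement) : AEU.GermB'Stmt := by
  intro z α η d hz hα hc1 hc2 hd
  show AEU.Small (2 * d) fun κ => AEU.Lap (AEU.EZ (n1 z α) z (n3 z η) (Real.sin α * d)) κ
      - (AEU.germB d α η κ + AEU.germD (2 * d * Real.sin α) κ)
  unfold AEU.germB AEU.germD
  have hsum : α - η + η = α := by ring
  have hη : 0 < η := by linarith
  have hαη : 0 < α - η := by linarith
  have hs1 : Real.cos (α - η) < Real.sin α := by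
    rw [← Real.sin_pi_div_two_sub]
    exact Real.sin_lt_sin_of_lt_of_le_pi_div_two (by linarith) (by linarith) (by linarith)
  have hs2 : Real.cos η < Real.sin α := by
    rw [← Real.sin_pi_div_two_sub]
    exact Real.sin_lt_sin_of_lt_of_le_pi_div_two (by linarith) (by linarith) (by linarith)
  obtain ⟨C, δ, hδ, h⟩ := span_small hSPAN hINV hVEX hz (by linarith [Real.pi_pos]) hη
    (by linarith) hαη (by linarith) hd (by
    rw [abs_of_neg (by linarith : 2 * α - Real.pi < 0)]
    rcases abs_cases (α - η - η) with ⟨h3, -⟩ | ⟨h3, -⟩ <;> rw [h3] <;> linarith) hs1 hs2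
  refine ⟨C, δ, hδ, ?_⟩
  filter_upwards [h, eventually_gt_atTop 0] with κ hκ hκ0
  have h3 := hFIN.2.1 (α - η) η d κ hαη (by linarith) hη (by linarith) hd hκ0 (by linarith) (by
    rw [hsum]
    rcases abs_cases (α - η - η) with ⟨h3, -⟩ | ⟨h3, -⟩ <;> rw [h3] <;> linarith)
  rw [hsum] at h3
  rw [h3] at hκ
  have h4 : AEU.Lap (AEU.EZ (n1 z α) z (n3 z η) (Real.sin α * d)) κ
      - (AEU.H12.TB d (Real.pi / α) η κ + -Real.exp (-(2 * d * Real.sin α * κ)))
      = AEU.Lap (AEU.EZ (n1 z α) z (n3 z η) (Real.sin α * d)) κ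
      + (Real.exp (-(2 * d * Real.sin α * κ)) - AEU.H12.TB d (Real.pi / α) η κ) := by ring
  rw [h4]
  exact hκ

end Pool.Agent.H60K
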